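import Pool.Agent.R553.SP.Euler

set_option autoImplicit false
set_option linter.unusedSectionVars false

/-!
A Hamiltonian cycle from a connected even system of disjoint arcs between blocks which are cliques.
-/

namespace Pool.Agent.U402.HC

open Finset
open Pool.Agent.R553.SP (CC Share tl hd euler)

lemma cc_flatMap {α β : Type} (f : α → List β) (R : β → β → Prop) (S : α → α → Prop)
    (l : List α) (h : CC S l) (hne : ∀ a ∈ l, f a ≠ []) (hch : ∀ a ∈ l, (f a).IsChain R)
    (hS : ∀ a ∈ l, ∀ b ∈ l, S a b → ∀ x ∈ (f a).getLast?, ∀ y ∈ (f b).head?, R x y) :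
    CC R (l.flatMap f) := by
  obtain ⟨h1, h2⟩ := h
  constructor
  · rw [List.flatMap_def, List.isChain_flatten (by
      intro hmem
      obtain ⟨a, ha, hfa⟩ := List.mem_map.1 hmem
      exact hne a ha hfa)]
    refine ⟨?_, ?_⟩
    · intro s hs
      obtain ⟨a, ha, rfl⟩ := List.mem_map.1 hs
      exact hch a ha
    · rw [List.isChain_map]
      have h3 : l.IsChain (fun a b => (a ∈ l ∧ b ∈ l) ∧ S a b) := by
        rw [List.isChain_iff_getElem] at h1 ⊢
        intro i hi
        exact ⟨⟨List.getElem_mem _, List.getElem_mem _⟩, h1 i hi⟩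
      exact h3.imp (fun a b hab => hS a hab.1.1 b hab.1.2 hab.2)
  · intro y hy z hz
    rcases List.eq_nil_or_concat l with rfl | ⟨A, u, rfl⟩
    · simp at hy
    · rw [List.concat_eq_append] at *
      have hu : u ∈ A ++ [u] := by simp
      have e1 : (A ++ [u]).flatMap f = A.flatMap f ++ f u := by simp
      rcases hA : A ++ [u] with _ | ⟨v, B⟩
      · simp at hA
      · have hv : v ∈ A ++ [u] := by rw [hA]; simp
        rw [e1, List.getLast?_append_of_ne_nil _ (hne u hu)] at hy
        rw [hA, List.flatMap_cons, List.head?_append_of_ne_nil _ (hne v hv)] at hz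
        refine hS u hu v hv (h2 u (by simp) v ?_) y hy z hz
        rw [hA]; simp

lemma cc_pred {α : Type} (R : α → α → Prop) (l : List α) (h : CC R l) (y : α) (hy : y ∈ l) :
    ∃ x ∈ l, R x y := by
  obtain ⟨A, B, rfl⟩ := List.mem_iff_append.1 hy
  rcases List.eq_nil_or_concat A with rfl | ⟨A', x, rfl⟩
  · have hne : (y :: B) ≠ [] := by simp
    refine ⟨(y :: B).getLast hne, ?_, h.2 _ ?_ y ?_⟩
    · exact List.getLast_mem hne
    · rw [List.nil_append, List.getLast?_eq_getLast_of_ne_nil hne]; rfl
    · simp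
  · refine ⟨x, by simp, ?_⟩
    have h1 := h.1
    rw [List.isChain_append] at h1
    exact h1.2.2 x (by simp) y (by simp)

lemma cc_upgrade {α : Type} [DecidableEq α] (R S : α → α → Prop) (l : List α)
    (hnd : l.Nodup) (hlen : 2 ≤ l.length) (h : CC R l)
    (hRS : ∀ x y, x ≠ y → R x y → S x y) : CC S l := by
  obtain ⟨h1, h2⟩ := h
  constructor
  · rw [List.isChain_iff_getElem] at h1 ⊢
    intro i hi
    refine hRS _ _ ?_ (h1 i hi)
    intro he
    rw [hnd.getElem_inj_iff] at he
    omega
  · intro y hy z hz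
    refine hRS _ _ ?_ (h2 y hy z hz)
    rintro rfl
    have hne : l ≠ [] := by intro h0; rw [h0] at hlen; simp at hlen
    rw [List.getLast?_eq_getLast_of_ne_nil hne, Option.mem_some_iff,
      List.getLast_eq_getElem] at hy
    rw [List.head?_eq_some_head hne, Option.mem_some_iff, List.head_eq_getElem] at hz
    rw [← hz, hnd.getElem_inj_iff] at hy
    omega

/-- **Arcs between cliques.** -/
theorem ham_of_arcs {G Q E : Type} [Fintype G] [DecidableEq G] [Fintype E] [DecidableEq E]
    [DecidableEq Q] [Nonempty E] (Adj : G → G → Prop) (hsymm : ∀ x y, Adj x y → Adj y x)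
    (B : Q → G → Prop) (hB : ∀ q x y, B q x → B q y → x ≠ y → Adj x y) (a b : E → Q)
    (hev : ∀ q, Even ((univ.filter fun e => a e = q).card + (univ.filter fun e => b e = q).card))
    (hconn : ∀ S : Set E, S.Nonempty → Sᶜ.Nonempty → ∃ e ∈ S, ∃ f ∉ S, Share a b e f)
    (p : E → List G) (hp : ∀ e, p e ≠ []) (hnd : ∀ e, (p e).Nodup)
    (hchain : ∀ e, (p e).IsChain Adj) (ha : ∀ e, ∀ x ∈ (p e).head?, B (a e) x)
    (hb : ∀ e, ∀ x ∈ (p e).getLast?, B (b e) x)
    (hdis : ∀ e f, e ≠ f → (p e).Disjoint (p f))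
    (hcov : ∀ x, (∀ e, x ∉ p e) → ∃ q, B q x ∧ ∃ e, a e = q ∨ b e = q)
    (hcard : 2 ≤ Fintype.card G) :
    ∃ L : List G, L.Nodup ∧ (∀ x, x ∈ L) ∧ CC Adj L := by
  classical
  obtain ⟨l, hl0, hlnd, hlall, hlcc⟩ := euler a b hev hconn
  -- paths of darts
  set P : E × Bool → List G := fun d => if d.2 then p d.1 else (p d.1).reverse with hP
  have hPne : ∀ d, P d ≠ [] := by
    rintro ⟨e, s⟩
    cases s <;> simp [hP, hp e]
  have hPnd : ∀ d, (P d).Nodup := by
    rintro ⟨e, s⟩
    cases s <;> simp [hP, hnd e]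
  have hPmem : ∀ d x, x ∈ P d ↔ x ∈ p d.1 := by
    rintro ⟨e, s⟩ x
    cases s <;> simp [hP]
  have hPch : ∀ d, (P d).IsChain Adj := by
    rintro ⟨e, s⟩
    cases s
    · simp only [hP, Bool.false_eq_true, if_false]
      rw [List.isChain_reverse]
      exact (hchain e).imp (fun x y h => hsymm x y h)
    · simpa [hP] using hchain e
  have hPhead : ∀ d, ∀ x ∈ (P d).head?, B (tl a b d) x := by
    rintro ⟨e, s⟩ x hx
    cases s
    · simp only [hP, Bool.false_eq_true, if_false, List.head?_reverse] at hx
      simpa [tl] using hb e x hx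
    · simp only [hP, if_true] at hx
      simpa [tl] using ha e x hx
  have hPlast : ∀ d, ∀ x ∈ (P d).getLast?, B (hd a b d) x := by
    rintro ⟨e, s⟩ x hx
    cases s
    · simp only [hP, Bool.false_eq_true, if_false, List.getLast?_reverse] at hx
      simpa [hd] using ha e x hx
    · simp only [hP, if_true] at hx
      simpa [hd] using hb e x hx
  -- the darts of the remaining elements
  have hδ : ∀ x, (∀ e, x ∉ p e) → ∃ d ∈ l, B (hd a b d) x := by
    intro x hx
    obtain ⟨q, hq, e, he⟩ := hcov x hx
    obtain ⟨d, hd1, rfl⟩ := List.mem_map.1 (hlall e)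
    have h1 : hd a b d = q ∨ tl a b d = q := by
      obtain ⟨e, s⟩ := d
      cases s
      · rcases he with h | h
        · left; simpa [hd] using h
        · right; simpa [tl] using h
      · rcases he with h | h
        · right; simpa [tl] using h
        · left; simpa [hd] using h
    rcases h1 with h1 | h1
    · exact ⟨d, hd1, by rw [h1]; exact hq⟩
    · obtain ⟨d', hd', hdd⟩ := cc_pred _ l hlcc d hd1
      exact ⟨d', hd', by rw [hdd, h1]; exact hq⟩
  have hEB : Nonempty (E × Bool) := by
    obtain ⟨e⟩ := ‹Nonempty E›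
    exact ⟨(e, true)⟩
  choose! δ hδ1 hδ2 using hδ
  set left : Finset G := univ.filter (fun x => ∀ e, x ∉ p e) with hleft
  have hmemleft : ∀ x, x ∈ left ↔ ∀ e, x ∉ p e := by
    intro x; rw [hleft, mem_filter]; exact ⟨fun h => h.2, fun h => ⟨mem_univ _, h⟩⟩
  set ex : E × Bool → List G := fun d => (left.filter (fun x => δ x = d)).toList with hex
  have hexmem : ∀ d x, x ∈ ex d ↔ (∀ e, x ∉ p e) ∧ δ x = d := by
    intro d x
    rw [hex, Finset.mem_toList, mem_filter, hmemleft]
  have hexB : ∀ d, ∀ x ∈ ex d, B (hd a b d) x := by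
    intro d x hx
    obtain ⟨h1, h2⟩ := (hexmem d x).1 hx
    rw [← h2]; exact hδ2 x h1
  set R : G → G → Prop := fun x y => Adj x y ∨ ∃ q, B q x ∧ B q y with hR
  set L : List G := l.flatMap (fun d => P d ++ ex d) with hL
  have hLnd : L.Nodup := by
    rw [hL, List.nodup_flatMap]
    refine ⟨?_, ?_⟩
    · intro d _
      rw [List.nodup_append]
      refine ⟨hPnd d, Finset.nodup_toList _, ?_⟩
      intro x hx y hy
      rintro rfl
      exact ((hexmem d x).1 hy).1 d.1 ((hPmem d x).1 hx)
    · have h1 : l.Pairwise (fun d d' => d.1 ≠ d'.1) := by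
        have := hlnd
        rwa [List.Nodup, List.pairwise_map] at this
      refine h1.imp ?_
      intro d d' hdd x hx hx'
      simp only [List.mem_append] at hx hx'
      rcases hx with hx | hx <;> rcases hx' with hx' | hx'
      · exact hdis d.1 d'.1 hdd ((hPmem d x).1 hx) ((hPmem d' x).1 hx')
      · exact ((hexmem d' x).1 hx').1 d.1 ((hPmem d x).1 hx)
      · exact ((hexmem d x).1 hx).1 d'.1 ((hPmem d' x).1 hx')
      · apply hdd
        rw [← ((hexmem d x).1 hx).2, ← ((hexmem d' x).1 hx').2]
  have hLall : ∀ x, x ∈ L := by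
    intro x
    rw [hL, List.mem_flatMap]
    by_cases hx : ∀ e, x ∉ p e
    · exact ⟨δ x, hδ1 x hx, List.mem_append.2 (Or.inr ((hexmem _ x).2 ⟨hx, rfl⟩))⟩
    · push Not at hx
      obtain ⟨e, he⟩ := hx
      obtain ⟨d, hd1, rfl⟩ := List.mem_map.1 (hlall e)
      exact ⟨d, hd1, List.mem_append.2 (Or.inl ((hPmem d x).2 he))⟩
  have hcc : CC R L := by
    refine cc_flatMap _ R (fun x y => hd a b x = tl a b y) l hlcc ?_ ?_ ?_
    · intro d _ h
      exact hPne d (List.append_eq_nil_iff.1 h).1
    · intro d _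
      rw [List.isChain_append]
      refine ⟨(hPch d).imp (fun x y h => Or.inl h), ?_, ?_⟩
      · apply List.Pairwise.isChain
        rw [List.pairwise_iff_forall_sublist]
        intro x y hxy
        have hx : x ∈ ex d := hxy.subset (by simp)
        have hy : y ∈ ex d := hxy.subset (by simp)
        exact Or.inr ⟨_, hexB d x hx, hexB d y hy⟩
      · intro x hx y hy
        exact Or.inr ⟨_, hPlast d x hx, hexB d y (List.mem_of_mem_head? hy)⟩
    · intro d _ d' _ hdd x hx y hy
      have hx' : B (hd a b d) x := by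
        rcases List.eq_nil_or_concat (ex d) with h0 | ⟨A, u, h0⟩
        · rw [h0, List.append_nil] at hx
          exact hPlast d x hx
        · rw [List.getLast?_append_of_ne_nil _ (by rw [h0]; simp)] at hx
          exact hexB d x (List.mem_of_mem_getLast? hx)
      have hy' : B (tl a b d') y := by
        rw [List.head?_append_of_ne_nil _ (hPne d')] at hy
        exact hPhead d' y hy
      rw [hdd] at hx'
      exact Or.inr ⟨_, hx', hy'⟩
  have hlen : 2 ≤ L.length := by
    have h1 : Fintype.card G ≤ L.length := by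
      have h2 : (univ : Finset G) ⊆ L.toFinset := fun x _ => List.mem_toFinset.2 (hLall x)
      have h3 := card_le_card h2
      rw [card_univ] at h3
      exact h3.trans (List.toFinset_card_le L)
    omega
  refine ⟨L, hLnd, hLall, cc_upgrade R Adj L hLnd hlen hcc ?_⟩
  intro x y hxy hR'
  rcases hR' with h | ⟨q, h1, h2⟩
  · exact h
  · exact hB q x y h1 h2 hxy

/-- the adjacent elements of a closed chain -/
lemma cc_getElem {α : Type*} (R : α → α → Prop) (L : List α) (h : CC R L) (i : ℕ)
    (hi : i < L.length) : R (L[i]) (L[(i + 1) % L.length]'(Nat.mod_lt _ (by omega))) := by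
  obtain ⟨hc, hl⟩ := h
  have hne : L ≠ [] := by intro h0; rw [h0] at hi; simp at hi
  by_cases hk : i + 1 < L.length
  · have := List.isChain_iff_getElem.mp hc i hk
    simp only [Nat.mod_eq_of_lt hk]
    exact this
  · have e0 : i = L.length - 1 := by omega
    have e : (i + 1) % L.length = 0 := by
      rw [show i + 1 = L.length by omega]
      exact Nat.mod_self _
    have hlast : L.getLast? = some (L[L.length - 1]'(by omega)) := by
      rw [List.getLast?_eq_getLast_of_ne_nil hne, List.getLast_eq_getElem]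
    have hhead : L.head? = some (L[0]'(by omega)) := by
      rw [List.head?_eq_some_head hne, List.head_eq_getElem]
    have := hl _ (by rw [hlast]; rfl) _ (by rw [hhead]; rfl)
    have e2 : L[(i + 1) % L.length]'(Nat.mod_lt _ (by omega)) = L[0]'(by omega) := by
      simp only [e]
    have e3 : L[i] = L[L.length - 1]'(by omega) := by simp only [e0]
    rw [e2, e3]
    exact this

/-- A closed chain through all elements gives a closed listing sequence. -/
theorem listing {G : Type*} [Group G] [Finite G] (A : Set G) (L : List G) (hnd : L.Nodup)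
    (hall : ∀ x, x ∈ L) (hcc : CC (fun x y => x⁻¹ * y ∈ A) L) :
    ∃ a : Fin (Nat.card G) → G, (∀ i, a i ∈ A) ∧
      Function.Injective (fun k : Fin (Nat.card G) => ((List.ofFn a).take (k.val + 1)).prod) ∧
      (List.ofFn a).prod = 1 := by
  classical
  have : Fintype G := Fintype.ofFinite G
  set σ := L.formPerm with hσ
  have hstep : ∀ x, x⁻¹ * σ x ∈ A := by
    intro x
    obtain ⟨i, hi, rfl⟩ := List.mem_iff_getElem.1 (hall x)
    rw [hσ, List.formPerm_apply_getElem L hnd i hi]
    exact cc_getElem _ L hcc i hi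
  have hcyc : σ.IsCycleOn ((univ : Finset G) : Set G) := by
    have h1 := hnd.isCycleOn_formPerm
    have h2 : {a | a ∈ L} = ((univ : Finset G) : Set G) := by
      ext x; simp [hall x]
    rwa [h2] at h1
  have hcard : (univ : Finset G).card = Nat.card G := by
    rw [Nat.card_eq_fintype_card]; rfl
  let a : Fin (Nat.card G) → G := fun i => ((σ ^ i.val) 1)⁻¹ * (σ ^ (i.val + 1)) 1
  have hprod : ∀ k, k ≤ Nat.card G → ((List.ofFn a).take k).prod = (σ ^ k) 1 := by
    intro k
    induction k with
    | zero => intro _; simp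
    | succ k ih =>
      intro hk
      have hk' : k < (List.ofFn a).length := by rw [List.length_ofFn]; omega
      rw [List.take_succ_eq_append_getElem hk', List.prod_append, ih (by omega)]
      simp only [List.getElem_ofFn, List.prod_cons, List.prod_nil, mul_one, a]
      rw [mul_inv_cancel_left]
  refine ⟨a, ?_, ?_, ?_⟩
  · intro i
    have h1 := hstep ((σ ^ i.val) 1)
    change ((σ ^ i.val) 1)⁻¹ * (σ ^ (i.val + 1)) 1 ∈ A
    rw [pow_succ', Equiv.Perm.mul_apply]
    exact h1
  · intro i j hij
    have hij' : ((List.ofFn a).take (i.val + 1)).prod = ((List.ofFn a).take (j.val + 1)).prod :=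
      hij
    rw [hprod _ (by omega), hprod _ (by omega)] at hij'
    rw [hcyc.pow_apply_eq_pow_apply (Finset.mem_univ _), hcard] at hij'
    have h2 : i.val ≡ j.val [MOD Nat.card G] := Nat.ModEq.add_right_cancel' 1 hij'
    apply Fin.ext
    exact Nat.ModEq.eq_of_lt_of_lt h2 i.isLt j.isLt
  · have h1 := hprod (Nat.card G) le_rfl
    rw [List.take_of_length_le (by rw [List.length_ofFn])] at h1
    rw [h1, hcyc.pow_apply_eq (Finset.mem_univ _), hcard]

end Pool.Agent.U402.HC
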