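import Pool.Agent.U402.HC.Stage
import Pool.Agent.U402.HC.Ham

set_option autoImplicit false
set_option linter.unusedSectionVars false

/-!
From two disjoint spanning sets of pairwise disjoint arcs to a Hamiltonian cycle of the graph in which
the cosets are complete.
-/

namespace Pool.Agent.U402.HC

open Finset
open Pool.Agent.Helper879.ECD (sp sp_mono mem_sp Ind exists_coeff sum_mem_sp)
open Pool.Agent.R553.SP (CC Share cc_rot)

variable {G : Type} [Group G] [Fintype G] [DecidableEq G] {H : Subgroup G} {S : Finset G}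

lemma dl_apply (u w : G ⧸ H) [Decidable (u = w)] : dl H u w = if u = w then 1 else 0 := by
  by_cases h : u = w
  · rw [if_pos h, h, dl_apply_self]
  · rw [if_neg h, dl_apply_ne (Ne.symm h)]

section

variable (hgen : H ⊔ Subgroup.closure (S : Set G) = ⊤)
  (hirr : ∀ s ∈ S, s ∉ H ⊔ Subgroup.closure ((S.erase s : Finset G) : Set G))

/-- the arcs of the cycle -/
theorem assemble (hgen : H ⊔ Subgroup.closure (S : Set G) = ⊤)
    (hirr : ∀ s ∈ S, s ∉ H ⊔ Subgroup.closure ((S.erase s : Finset G) : Set G))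
    (hS : 0 < S.card) (hn : 2 ≤ Nat.card (G ⧸ H)) (A : Set G) (hA : ∀ x ∈ A, x⁻¹ ∈ A)
    (hSA : ∀ s ∈ S, s ∈ A)
    (K : Fin 2 → Finset (Arc S)) (hK1 : ∀ i j, i ≠ j → Disjoint (K i) (K j))
    (hK2 : ∀ i, sp (ZMod 2) (vx H S) (K i) = sp (ZMod 2) (vx H S) univ)
    (hK3 : ∀ e ∈ univ.biUnion K, ∀ f ∈ univ.biUnion K, ¬ Confl e f) :
    ∃ L : List G, L.Nodup ∧ (∀ x, x ∈ L) ∧
      CC (fun x y : G => ((x : G ⧸ H) = (y : G ⧸ H) ∧ x ≠ y) ∨
        ((∃ e ∈ univ.biUnion K, e.1 = x ∨ hd' S e = x) ∧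
          (∃ e ∈ univ.biUnion K, e.1 = y ∨ hd' S e = y) ∧ x⁻¹ * y ∈ A)) L := by
  classical
  have hnotH : ∀ s ∈ S, s ∉ H := fun s hs h => hirr s hs (Subgroup.mem_sup_left h)
  -- the even set
  have hmem : ∑ e ∈ K 0, vx H S e ∈ sp (ZMod 2) (vx H S) (K 1) := by
    rw [hK2 1, ← hK2 0]
    exact Submodule.sum_mem _ (fun e he => mem_sp he)
  obtain ⟨c, hc⟩ := exists_coeff hmem
  have hsum1 : ∑ e ∈ K 1, c e • vx H S e = ∑ e ∈ (K 1).filter (fun e => c e = 1), vx H S e := by
    rw [sum_filter]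
    apply sum_congr rfl
    intro e _
    have h2 : ∀ a : ZMod 2, a = 0 ∨ a = 1 := by decide
    rcases h2 (c e) with h | h
    · rw [h]; simp
    · rw [h]; simp
  set K' : Finset (Arc S) := (K 1).filter (fun e => c e = 1) with hK'
  set F : Finset (Arc S) := K 0 ∪ K' with hF
  have hdisj : Disjoint (K 0) K' :=
    disjoint_of_subset_right (filter_subset _ _) (hK1 0 1 (by decide))
  have hFsum : ∑ e ∈ F, vx H S e = 0 := by
    rw [hF, sum_union hdisj, ← hsum1]
    have h1 : ∑ e ∈ K 1, c e • vx H S e = ∑ e ∈ K 0, vx H S e := hc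
    rw [h1]
    funext w
    exact CharTwo.add_self_eq_zero _
  have hFK : F ⊆ univ.biUnion K := by
    rw [hF]
    apply union_subset
    · exact subset_biUnion_of_mem K (mem_univ 0)
    · exact (filter_subset _ _).trans (subset_biUnion_of_mem K (mem_univ 1))
  -- functionals
  have hfun : ∀ U : Finset (G ⧸ H), (∀ e ∈ F, ((e.1 : G ⧸ H) ∈ U ↔ ((hd' S e : G) : G ⧸ H) ∈ U)) →
      ∀ u w : G ⧸ H, u ∈ U → w ∈ U := by
    intro U hU u w hu
    by_contra hw
    let φ : ((G ⧸ H) → ZMod 2) →ₗ[ZMod 2] ZMod 2 := ∑ Q ∈ U, LinearMap.proj Q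
    have hφ : ∀ v, φ (dl H v) = if v ∈ U then 1 else 0 := by
      intro v
      have h1 : φ (dl H v) = ∑ Q ∈ U, dl H v Q := by
        simp [φ]
      rw [h1]
      simp only [dl_apply]
      rw [sum_ite_eq]
    have h1 : sp (ZMod 2) (vx H S) (K 0) ≤ LinearMap.ker φ := by
      unfold sp
      rw [Submodule.span_le]
      rintro _ ⟨e, he, rfl⟩
      rw [SetLike.mem_coe, LinearMap.mem_ker]
      have heF : e ∈ F := by rw [hF]; exact mem_union_left _ he
      unfold vx
      rw [map_add, hφ, hφ]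
      by_cases h : (e.1 : G ⧸ H) ∈ U
      · rw [if_pos h, if_pos ((hU e heF).1 h)]
        exact CharTwo.add_self_eq_zero _
      · rw [if_neg h, if_neg (fun h' => h ((hU e heF).2 h'))]
        exact CharTwo.add_self_eq_zero _
    rw [hK2 0] at h1
    have h2 := h1 (dl_mem hgen hirr hS u w)
    rw [LinearMap.mem_ker, map_add, hφ, hφ, if_pos hu, if_neg hw, add_zero] at h2
    exact one_ne_zero h2
  have hcov : ∀ Q : G ⧸ H, ∃ e ∈ F, (e.1 : G ⧸ H) = Q ∨ ((hd' S e : G) : G ⧸ H) = Q := by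
    intro Q
    by_contra hcon
    push Not at hcon
    have : Fintype (G ⧸ H) := Fintype.ofFinite _
    rw [Nat.card_eq_fintype_card] at hn
    obtain ⟨w, hw⟩ := Fintype.exists_ne_of_one_lt_card hn Q
    have h1 := hfun {Q} (by
      intro e he
      rw [mem_singleton, mem_singleton]
      have := hcon e he
      exact ⟨fun h => absurd h this.1, fun h => absurd h this.2⟩) Q w (mem_singleton_self _)
    exact hw (mem_singleton.1 h1)
  let E : Type := {e : Arc S // e ∈ F}
  let a : E → G ⧸ H := fun e => (e.1.1 : G ⧸ H)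
  let b : E → G ⧸ H := fun e => ((hd' S e.1 : G) : G ⧸ H)
  have hEne : Nonempty E := by
    obtain ⟨e, he, -⟩ := hcov (1 : G)
    exact ⟨⟨e, he⟩⟩
  have hne1 : ∀ e : Arc S, e.1 ≠ hd' S e := by
    intro e h
    have h1 : e.2.1 = 1 := by
      have : e.1 * 1 = e.1 * e.2.1 := by rw [mul_one]; exact h
      exact (mul_left_cancel this).symm
    exact hnotH e.2.1 e.2.2 (by rw [h1]; exact H.one_mem)
  refine ham_of_arcs (E := E) _ ?_ (fun (Q : G ⧸ H) (x : G) => (x : G ⧸ H) = Q) ?_ a b ?_ ?_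
    (fun e => [e.1.1, hd' S e.1]) ?_ ?_ ?_ ?_ ?_ ?_ ?_ ?_
  · rintro x y (⟨h1, h2⟩ | ⟨h1, h2, h3⟩)
    · exact Or.inl ⟨h1.symm, h2.symm⟩
    · right
      refine ⟨h2, h1, ?_⟩
      have := hA _ h3
      rwa [mul_inv_rev, inv_inv] at this
  · intro q x y hx hy hxy
    exact Or.inl ⟨hx.trans hy.symm, hxy⟩
  · intro q
    rw [← ZMod.natCast_eq_zero_iff_even]
    have h1 := congrFun hFsum q
    rw [Finset.sum_apply, Pi.zero_apply] at h1
    rw [← h1, Nat.cast_add, card_filter, card_filter, Nat.cast_sum, Nat.cast_sum,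
      ← sum_add_distrib, ← sum_coe_sort F]
    apply sum_congr rfl
    intro e _
    unfold vx
    rw [Pi.add_apply, dl_apply, dl_apply]
    simp only [a, b, Nat.cast_ite, Nat.cast_one, Nat.cast_zero]
  · intro T hT hT'
    by_contra hcon
    push Not at hcon
    obtain ⟨e0, he0⟩ := hT
    obtain ⟨f0, hf0⟩ := hT'
    have : Fintype (G ⧸ H) := Fintype.ofFinite _
    set U : Finset (G ⧸ H) := univ.filter fun Q => ∃ e ∈ T, a e = Q ∨ b e = Q with hU
    have h1 := hfun U (by
      intro e he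
      by_cases heT : (⟨e, he⟩ : E) ∈ T
      · constructor
        · intro _
          rw [hU, mem_filter]; exact ⟨mem_univ _, ⟨e, he⟩, heT, Or.inr rfl⟩
        · intro _
          rw [hU, mem_filter]; exact ⟨mem_univ _, ⟨e, he⟩, heT, Or.inl rfl⟩
      · have h2 : (e.1 : G ⧸ H) ∉ U := by
          intro h
          rw [hU, mem_filter] at h
          obtain ⟨-, e', he', h' | h'⟩ := h
          · exact hcon e' he' ⟨e, he⟩ heT (Or.inl h')
          · exact hcon e' he' ⟨e, he⟩ heT (Or.inr (Or.inr (Or.inl h')))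
        have h3 : ((hd' S e : G) : G ⧸ H) ∉ U := by
          intro h
          rw [hU, mem_filter] at h
          obtain ⟨-, e', he', h' | h'⟩ := h
          · exact hcon e' he' ⟨e, he⟩ heT (Or.inr (Or.inl h'))
          · exact hcon e' he' ⟨e, he⟩ heT (Or.inr (Or.inr (Or.inr h')))
        exact ⟨fun h => absurd h h2, fun h => absurd h h3⟩) (a e0) (a f0) (by
      rw [hU, mem_filter]; exact ⟨mem_univ _, e0, he0, Or.inl rfl⟩)
    rw [hU, mem_filter] at h1
    obtain ⟨-, e', he', h' | h'⟩ := h1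
    · exact hcon e' he' f0 hf0 (Or.inl h')
    · exact hcon e' he' f0 hf0 (Or.inr (Or.inr (Or.inl h')))
  · intro e; simp
  · intro e
    simp only [List.nodup_cons, List.mem_singleton, List.not_mem_nil, not_false_eq_true,
      List.nodup_nil, and_true]
    exact hne1 e.1
  · intro e
    rw [List.isChain_pair]
    right
    refine ⟨⟨e.1, hFK e.2, Or.inl rfl⟩, ⟨e.1, hFK e.2, Or.inr rfl⟩, ?_⟩
    unfold hd'
    rw [inv_mul_cancel_left]
    exact hSA _ e.1.2.2
  · intro e x hx
    simp only [List.head?_cons, Option.mem_some_iff] at hx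
    rw [← hx]
  · intro e x hx
    simp only [List.getLast?_cons_cons, List.getLast?_singleton, Option.mem_some_iff] at hx
    rw [← hx]
  · intro e f hef
    rw [List.disjoint_left]
    intro x hx hx'
    have hnc := hK3 e.1 (hFK e.2) f.1 (hFK f.2)
    apply hnc
    refine ⟨fun h => hef (Subtype.ext h), ?_⟩
    simp only [List.mem_cons, List.not_mem_nil, or_false] at hx hx'
    rcases hx with h | h <;> rcases hx' with h' | h'
    · exact Or.inl (h.symm.trans h')
    · exact Or.inr (Or.inl (h.symm.trans h'))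
    · exact Or.inr (Or.inr (Or.inl (h.symm.trans h')))
    · exact Or.inr (Or.inr (Or.inr (h.symm.trans h')))
  · intro x _
    obtain ⟨e, he, h⟩ := hcov (x : G ⧸ H)
    exact ⟨(x : G ⧸ H), rfl, ⟨e, he⟩, h⟩
  · have h1 : Nat.card (G ⧸ H) ≤ Nat.card G :=
      Nat.card_le_card_of_surjective _ (QuotientGroup.mk_surjective (s := H))
    rw [Nat.card_eq_fintype_card (α := G)] at h1
    omega

end

end Pool.Agent.U402.HC
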