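import Pool.Agent.U402.HC.Link

set_option autoImplicit false
set_option linter.unusedSectionVars false

/-!
Spanning linkages in graphs which contain a blow-up of a path.
-/

namespace Pool.Agent.U402.HC

open Finset

/-- near windows -/
def Nr (a b : ℕ) : Prop := a ≤ b + 1 ∧ b ≤ a + 1

lemma chain_range' (s n : ℕ) : (List.range' s n).IsChain Nr := by
  rw [List.isChain_iff_getElem]
  intro i hi
  simp only [List.getElem_range']
  constructor <;> omega

lemma chain_range'_rev (s n : ℕ) : (List.range' s n).reverse.IsChain Nr := by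
  rw [List.isChain_reverse]
  exact (chain_range' s n).imp fun a b h => ⟨h.2, h.1⟩

/-- the numbers strictly between `a` and `b`, from `a` to `b` -/
def btw (a b : ℕ) : List ℕ :=
  if a < b then List.range' (a + 1) (b - a - 1) else (List.range' (b + 1) (a - b - 1)).reverse

lemma mem_btw (a b j : ℕ) : j ∈ btw a b ↔ (a < j ∧ j < b) ∨ (b < j ∧ j < a) := by
  unfold btw
  split_ifs with h
  · rw [List.mem_range'_1]; omega
  · rw [List.mem_reverse, List.mem_range'_1]; omega

lemma nodup_btw (a b : ℕ) : (btw a b).Nodup := by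
  unfold btw
  split_ifs with h
  · exact List.nodup_range'
  · exact List.nodup_reverse.2 List.nodup_range'

lemma range_ends (a b : ℕ) (h : a < b) :
    a :: (List.range' (a + 1) (b - a - 1) ++ [b]) = List.range' a (b - a + 1) := by
  apply List.ext_getElem
  · simp; omega
  · intro i h1 h2
    rcases i with _ | i
    · simp [List.getElem_range']
    · rw [List.getElem_cons_succ]
      by_cases hi : i < b - a - 1
      · rw [List.getElem_append_left (by simpa using hi)]
        simp only [List.getElem_range']
        omega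
      · rw [List.getElem_append_right (by simpa using hi)]
        simp only [List.length_cons, List.length_append, List.length_range',
          List.length_nil] at h1
        simp only [List.getElem_range', List.getElem_singleton]
        omega

lemma chain_btw (a b : ℕ) : (a :: (btw a b ++ [b])).IsChain Nr := by
  unfold btw
  split_ifs with h
  · rw [range_ends a b h]
    exact chain_range' _ _
  · rcases Nat.lt_or_ge b a with h' | h'
    · have e : a :: ((List.range' (b + 1) (a - b - 1)).reverse ++ [b]) =
          (List.range' b (a - b + 1)).reverse := by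
        rw [← range_ends b a h']
        simp
      rw [e]
      exact chain_range'_rev _ _
    · have e : a = b := by omega
      rw [e, Nat.sub_self]
      simp [Nr]

/-- special vertices -/
inductive Spc (ι : Type) : Type
  | x (i : ι) : Spc ι
  | y (i : ι) : Spc ι
  | f (j : ℕ) (z : ι ⊕ Fin 2) : Spc ι

/-- a chain of near elements is a chain of adjacent ones if there are no repetitions -/
lemma chain_up {G : Type} (Adj : G → G → Prop) (X : Finset G) (w : G → ℕ)
    (hadj : ∀ u ∈ X, ∀ v ∈ X, u ≠ v → Nr (w u) (w v) → Adj u v) (l : List G) (hnd : l.Nodup)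
    (hX : ∀ v ∈ l, v ∈ X) (hc : (l.map w).IsChain Nr) : l.IsChain Adj := by
  rw [List.isChain_map] at hc
  rw [List.isChain_iff_getElem] at hc ⊢
  intro i hi
  refine hadj _ (hX _ (List.getElem_mem _)) _ (hX _ (List.getElem_mem _)) ?_ (hc i hi)
  intro h
  have := (List.Nodup.getElem_inj_iff hnd).1 h
  omega

lemma chain_replicate (n j : ℕ) : (List.replicate n j).IsChain Nr := by
  rw [List.isChain_iff_getElem]
  intro i hi
  simp only [List.getElem_replicate]
  constructor <;> omega

/-- the sweep over all windows -/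
lemma chain_sweep (c : ℕ → ℕ) (m : ℕ) (hc : ∀ j < m, 0 < c j) :
    ((List.range m).flatMap fun j => List.replicate (c j) j).IsChain Nr ∧
    (0 < m → ((List.range m).flatMap fun j => List.replicate (c j) j).head? = some 0 ∧
      ((List.range m).flatMap fun j => List.replicate (c j) j).getLast? = some (m - 1)) := by
  induction m with
  | zero => simp
  | succ m ih =>
    obtain ⟨ih1, ih2⟩ := ih (fun j hj => hc j (by omega))
    have e : ((List.range (m + 1)).flatMap fun j => List.replicate (c j) j) =
        ((List.range m).flatMap fun j => List.replicate (c j) j) ++ List.replicate (c m) m := by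
      rw [List.range_succ, List.flatMap_append]
      simp
    have hcm := hc m (by omega)
    have hh : (List.replicate (c m) m).head? = some m := by
      obtain ⟨k, hk⟩ : ∃ k, c m = k + 1 := ⟨c m - 1, by omega⟩
      rw [hk]; rfl
    have hl : (List.replicate (c m) m).getLast? = some m := by
      rw [List.getLast?_replicate, if_neg (by omega)]
    have hne : List.replicate (c m) m ≠ [] := by
      intro h; rw [h] at hh; simp at hh
    rw [e]
    refine ⟨?_, fun _ => ⟨?_, ?_⟩⟩
    · rw [List.isChain_append]
      refine ⟨ih1, chain_replicate _ _, ?_⟩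
      intro u hu v hv
      rw [hh] at hv
      have hv' : m = v := by simpa using hv
      rcases Nat.eq_zero_or_pos m with h0 | h0
      · rw [h0] at hu; simp at hu
      · rw [(ih2 h0).2] at hu
        have hu' : m - 1 = u := by simpa using hu
        rw [← hu', ← hv']
        constructor <;> omega
    · rcases Nat.eq_zero_or_pos m with h0 | h0
      · rw [h0] at hh ⊢
        simpa using hh
      · rw [List.head?_append_of_ne_nil _ (by
          intro h
          have := (ih2 h0).1
          rw [h] at this
          simp at this)]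
        exact (ih2 h0).1
    · rw [List.getLast?_append_of_ne_nil _ hne, hl]
      simp

/-- **Linkages in blow-ups of paths.** -/
theorem linked_of_windows {G : Type} [DecidableEq G] (Adj : G → G → Prop)
    (X : Finset G) (w : G → ℕ) (m r : ℕ) (hw : ∀ v ∈ X, w v < m)
    (hadj : ∀ u ∈ X, ∀ v ∈ X, u ≠ v → Nr (w u) (w v) → Adj u v)
    (hcard : ∀ j < m, 3 * r + 2 ≤ (X.filter fun v => w v = j).card) :
    Linked Adj (fun v => v ∈ X) r := by
  classical
  intro ι _ x y hne hι hx hy hxi hyi hxy
  obtain ⟨i0⟩ := hne
  set Ends : Finset G := univ.image x ∪ univ.image y with hEnds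
  have hEc : Ends.card ≤ 2 * r := by
    refine (card_union_le _ _).trans ?_
    have h1 : (univ.image x).card ≤ r := card_image_le.trans (by rw [card_univ]; exact hι)
    have h2 : (univ.image y).card ≤ r := card_image_le.trans (by rw [card_univ]; exact hι)
    omega
  have hφ : ∀ j, ∃ φ : (ι ⊕ Fin 2) → G, j < m → (Function.Injective φ ∧
      ∀ z, φ z ∈ X ∧ w (φ z) = j ∧ φ z ∉ Ends) := by
    intro j
    by_cases hj : j < m
    · set Fr : Finset G := (X.filter fun v => w v = j) \ Ends with hFr
      have h1 : r + 2 ≤ Fr.card := by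
        have h2 := hcard j hj
        have h3 := le_card_sdiff Ends (X.filter fun v => w v = j)
        rw [← hFr] at h3
        omega
      have h2 : Fintype.card (ι ⊕ Fin 2) ≤ Fintype.card {v // v ∈ Fr} := by
        rw [Fintype.card_sum, Fintype.card_fin, Fintype.card_coe]
        omega
      obtain ⟨φ⟩ := Function.Embedding.nonempty_of_card_le h2
      refine ⟨fun z => (φ z).1, fun _ => ⟨?_, ?_⟩⟩
      · intro z z' h
        exact φ.injective (Subtype.ext h)
      · intro z
        have this : (φ z).1 ∈ (X.filter fun v => w v = j) \ Ends := (φ z).2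
        rw [mem_sdiff, mem_filter] at this
        exact ⟨this.1.1, this.1.2, this.2⟩
    · exact ⟨fun _ => x i0, fun h => absurd h hj⟩
  choose φ hφ using hφ
  have hm : 0 < m := by have := hw _ (hx i0); omega
  -- the map from the special vertices
  let ψ : Spc ι → G := fun s => match s with
    | Spc.x i => x i
    | Spc.y i => y i
    | Spc.f j z => φ j z
  let ok : Spc ι → Prop := fun s => match s with
    | Spc.x _ => True
    | Spc.y _ => True
    | Spc.f j _ => j < m
  have hxE : ∀ i, x i ∈ Ends := fun i => mem_union_left _ (mem_image_of_mem _ (mem_univ i))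
  have hyE : ∀ i, y i ∈ Ends := fun i => mem_union_right _ (mem_image_of_mem _ (mem_univ i))
  have hψ : ∀ s t, ok s → ok t → ψ s = ψ t → s = t := by
    rintro (i | i | ⟨j, z⟩) (i' | i' | ⟨j', z'⟩) hs ht h
    · rw [hxi h]
    · exact absurd h (hxy i i')
    · exact absurd ((show x i = φ j' z' from h) ▸ hxE i) ((hφ j' ht).2 z').2.2
    · exact absurd h.symm (hxy i' i)
    · rw [hyi h]
    · exact absurd ((show y i = φ j' z' from h) ▸ hyE i) ((hφ j' ht).2 z').2.2
    · exact absurd ((show x i' = φ j z from h.symm) ▸ hxE i') ((hφ j hs).2 z).2.2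
    · exact absurd ((show y i' = φ j z from h.symm) ▸ hyE i') ((hφ j hs).2 z).2.2
    · have h1 : j = j' := by
        rw [← ((hφ j hs).2 z).2.1, ← ((hφ j' ht).2 z').2.1]
        exact congrArg w h
      subst h1
      rw [(hφ j hs).1 h]
  have hψX : ∀ s, ok s → ψ s ∈ X := by
    rintro (i | i | ⟨j, z⟩) hs
    · exact hx i
    · exact hy i
    · exact ((hφ j hs).2 z).1
  -- the lists
  let LP : ι → List (Spc ι) := fun i =>
    Spc.x i :: ((btw (w (x i)) (w (y i))).map (fun j => Spc.f j (Sum.inl i)) ++ [Spc.y i])
  let LA : List (Spc ι) := Spc.x i0 :: (List.range (w (x i0))).reverse.map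
    (fun j => Spc.f j (Sum.inr 0))
  let LB : List (Spc ι) := (List.range' (w (y i0) + 1) (m - 2 - w (y i0))).reverse.map
    (fun j => Spc.f j (Sum.inr 1)) ++ [Spc.y i0]
  have hmLP : ∀ i s, s ∈ LP i ↔ s = Spc.x i ∨ s = Spc.y i ∨
      ∃ j ∈ btw (w (x i)) (w (y i)), s = Spc.f j (Sum.inl i) := by
    intro i s
    simp only [LP, List.mem_cons, List.mem_append, List.mem_map, List.not_mem_nil, or_false]
    constructor
    · rintro (h | ⟨j, hj, rfl⟩ | h)
      · exact Or.inl h
      · exact Or.inr (Or.inr ⟨j, hj, rfl⟩)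
      · exact Or.inr (Or.inl h)
    · rintro (h | h | ⟨j, hj, rfl⟩)
      · exact Or.inl h
      · exact Or.inr (Or.inr h)
      · exact Or.inr (Or.inl ⟨j, hj, rfl⟩)
  have hmLA : ∀ s, s ∈ LA ↔ s = Spc.x i0 ∨ ∃ j < w (x i0), s = Spc.f j (Sum.inr 0) := by
    intro s
    simp only [LA, List.mem_cons, List.mem_map, List.mem_reverse, List.mem_range]
    constructor
    · rintro (h | ⟨j, hj, rfl⟩)
      · exact Or.inl h
      · exact Or.inr ⟨j, hj, rfl⟩
    · rintro (h | ⟨j, hj, rfl⟩)
      · exact Or.inl h
      · exact Or.inr ⟨j, hj, rfl⟩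
  have hmLB : ∀ s, s ∈ LB ↔ s = Spc.y i0 ∨ ∃ j, w (y i0) < j ∧ j < m - 1 ∧
      s = Spc.f j (Sum.inr 1) := by
    intro s
    simp only [LB, List.mem_append, List.mem_map, List.mem_reverse, List.mem_cons,
      List.not_mem_nil, or_false, List.mem_range'_1]
    constructor
    · rintro (⟨j, hj, rfl⟩ | h)
      · exact Or.inr ⟨j, by omega, by omega, rfl⟩
      · exact Or.inl h
    · rintro (h | ⟨j, hj1, hj2, rfl⟩)
      · exact Or.inr h
      · exact Or.inl ⟨j, by omega, rfl⟩
  have hokLP : ∀ i, ∀ s ∈ LP i, ok s := by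
    intro i s hs
    rw [hmLP] at hs
    rcases hs with rfl | rfl | ⟨j, hj, rfl⟩
    · trivial
    · trivial
    · rw [mem_btw] at hj
      have h1 := hw _ (hx i)
      have h2 := hw _ (hy i)
      change j < m
      omega
  have hokLA : ∀ s ∈ LA, ok s := by
    intro s hs
    rw [hmLA] at hs
    rcases hs with rfl | ⟨j, hj, rfl⟩
    · trivial
    · have h1 := hw _ (hx i0)
      change j < m
      omega
  have hokLB : ∀ s ∈ LB, ok s := by
    intro s hs
    rw [hmLB] at hs
    rcases hs with rfl | ⟨j, hj1, hj2, rfl⟩
    · trivial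
    · change j < m
      omega
  have hndLP : ∀ i, (LP i).Nodup := by
    intro i
    simp only [LP, List.nodup_cons, List.mem_append, List.mem_map, List.mem_cons,
      List.not_mem_nil, or_false, List.nodup_append]
    refine ⟨?_, ?_, ?_, ?_⟩
    · rintro (⟨j, _, h⟩ | h)
      · simp at h
      · simp at h
    · apply (nodup_btw _ _).map
      intro j j' h
      simpa using h
    · simp
    · rintro a ⟨j, _, rfl⟩ b rfl
      simp
  have hndLA : LA.Nodup := by
    simp only [LA, List.nodup_cons, List.mem_map]
    refine ⟨?_, ?_⟩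
    · rintro ⟨j, _, h⟩
      simp at h
    · apply (List.nodup_reverse.2 List.nodup_range).map
      intro j j' h
      simpa using h
  have hndLB : LB.Nodup := by
    simp only [LB, List.nodup_append, List.mem_map, List.mem_cons, List.not_mem_nil, or_false]
    refine ⟨?_, ?_, ?_⟩
    · apply (List.nodup_reverse.2 List.nodup_range').map
      intro j j' h
      simpa using h
    · simp
    · rintro a ⟨j, _, rfl⟩ b rfl
      simp
  -- the used set
  set U : Finset G := ((univ.filter fun i => i ≠ i0).biUnion fun i => ((LP i).map ψ).toFinset) ∪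
    ((LA.map ψ).toFinset ∪ (LB.map ψ).toFinset) with hU
  have hmU : ∀ v, v ∈ U ↔ (∃ i, i ≠ i0 ∧ v ∈ (LP i).map ψ) ∨ v ∈ LA.map ψ ∨ v ∈ LB.map ψ := by
    intro v
    rw [hU, mem_union, mem_biUnion, mem_union, List.mem_toFinset, List.mem_toFinset]
    simp only [mem_filter, mem_univ, true_and, List.mem_toFinset]
  let rest : ℕ → List G := fun j => ((X.filter fun v => w v = j) \ U).toList
  have hmrest : ∀ j v, v ∈ rest j ↔ (v ∈ X ∧ w v = j) ∧ v ∉ U := by
    intro j v
    simp only [rest, Finset.mem_toList, mem_sdiff, mem_filter]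
  have hrestne : ∀ j < m, 0 < (rest j).length := by
    intro j hj
    rw [List.length_pos_iff_exists_mem]
    refine ⟨φ j (Sum.inl i0), (hmrest _ _).2 ⟨⟨((hφ j hj).2 _).1, ((hφ j hj).2 _).2.1⟩, ?_⟩⟩
    rw [hmU]
    rintro (⟨i, hi, h⟩ | h | h)
    · obtain ⟨s, hs, he⟩ := List.mem_map.1 h
      have h1 := hψ s (Spc.f j (Sum.inl i0)) (hokLP i s hs) hj he
      rw [h1, hmLP] at hs
      rcases hs with h2 | h2 | ⟨j', _, h2⟩
      · simp at h2
      · simp at h2
      · rw [Spc.f.injEq, Sum.inl.injEq] at h2
        exact hi h2.2.symm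
    · obtain ⟨s, hs, he⟩ := List.mem_map.1 h
      have h1 := hψ s (Spc.f j (Sum.inl i0)) (hokLA s hs) hj he
      rw [h1, hmLA] at hs
      rcases hs with h2 | ⟨j', _, h2⟩
      · simp at h2
      · simp at h2
    · obtain ⟨s, hs, he⟩ := List.mem_map.1 h
      have h1 := hψ s (Spc.f j (Sum.inl i0)) (hokLB s hs) hj he
      rw [h1, hmLB] at hs
      rcases hs with h2 | ⟨j', _, _, h2⟩
      · simp at h2
      · simp at h2
  let R : List G := (List.range m).flatMap rest
  have hmR : ∀ v, v ∈ R ↔ v ∈ X ∧ v ∉ U := by
    intro v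
    simp only [R, List.mem_flatMap, List.mem_range]
    constructor
    · rintro ⟨j, hj, h⟩
      rw [hmrest] at h
      exact ⟨h.1.1, h.2⟩
    · rintro ⟨h1, h2⟩
      exact ⟨w v, hw v h1, (hmrest _ _).2 ⟨⟨h1, rfl⟩, h2⟩⟩
  have hndR : R.Nodup := by
    simp only [R]
    rw [List.nodup_flatMap]
    refine ⟨fun j _ => Finset.nodup_toList _, ?_⟩
    refine List.nodup_range.imp ?_
    intro j j' hjj v hv hv'
    rw [hmrest] at hv hv'
    exact hjj (hv.1.2.symm.trans hv'.1.2)
  have hRw : R.map w = (List.range m).flatMap fun j => List.replicate (rest j).length j := by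
    simp only [R, List.map_flatMap]
    apply List.flatMap_congr
    intro j _
    rw [List.eq_replicate_iff]
    refine ⟨by simp, ?_⟩
    intro b hb
    obtain ⟨v, hv, rfl⟩ := List.mem_map.1 hb
    rw [hmrest] at hv
    exact hv.1.2
  obtain ⟨hRc, hRe⟩ := chain_sweep (fun j => (rest j).length) m hrestne
  rw [← hRw] at hRc hRe
  obtain ⟨hRh, hRl⟩ := hRe hm
  have hRne : R ≠ [] := by
    intro h; rw [h] at hRh; simp at hRh
  -- the long path
  let P0 : List G := LA.map ψ ++ (R ++ LB.map ψ)
  let P : ι → List G := fun i => if i = i0 then P0 else (LP i).map ψ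
  have hAU : ∀ v ∈ LA.map ψ, v ∈ U := fun v hv => (hmU v).2 (Or.inr (Or.inl hv))
  have hBU : ∀ v ∈ LB.map ψ, v ∈ U := fun v hv => (hmU v).2 (Or.inr (Or.inr hv))
  have hPU : ∀ i, i ≠ i0 → ∀ v ∈ (LP i).map ψ, v ∈ U := fun i hi v hv =>
    (hmU v).2 (Or.inl ⟨i, hi, hv⟩)
  have hLdis : ∀ L1 L2 : List (Spc ι), (∀ s ∈ L1, ok s) → (∀ s ∈ L2, ok s) →
      (∀ s ∈ L1, s ∉ L2) → (L1.map ψ).Disjoint (L2.map ψ) := by
    intro L1 L2 h1 h2 h3 v hv hv'
    obtain ⟨s, hs, rfl⟩ := List.mem_map.1 hv
    obtain ⟨t, ht, hst⟩ := List.mem_map.1 hv'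
    rw [hψ t s (h2 t ht) (h1 s hs) hst] at ht
    exact h3 s hs ht
  have hnd' : ∀ L1 : List (Spc ι), L1.Nodup → (∀ s ∈ L1, ok s) → (L1.map ψ).Nodup := by
    intro L1 h1 h2
    exact List.Nodup.map_on (fun s hs t ht h => hψ s t (h2 s hs) (h2 t ht) h) h1
  have hAB : (LA.map ψ).Disjoint (LB.map ψ) := by
    apply hLdis _ _ hokLA hokLB
    intro s hs ht
    rw [hmLA] at hs
    rw [hmLB] at ht
    rcases hs with rfl | ⟨j, _, rfl⟩ <;> rcases ht with h | ⟨j', _, _, h⟩ <;> simp at h
  have hnd0 : P0.Nodup := by
    simp only [P0]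
    rw [List.nodup_append, List.nodup_append]
    refine ⟨hnd' _ hndLA hokLA, ⟨hndR, hnd' _ hndLB hokLB, ?_⟩, ?_⟩
    · intro a ha b hb h
      rw [hmR] at ha
      exact ha.2 (h ▸ hBU b hb)
    · intro a ha b hb h
      rcases List.mem_append.1 hb with h1 | h1
      · rw [hmR] at h1
        exact h1.2 (h ▸ hAU a ha)
      · exact hAB ha (h ▸ h1)
  have hX0 : ∀ v ∈ P0, v ∈ X := by
    intro v hv
    simp only [P0, List.mem_append] at hv
    rcases hv with h | h | h
    · obtain ⟨s, hs, rfl⟩ := List.mem_map.1 h
      exact hψX s (hokLA s hs)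
    · exact ((hmR v).1 h).1
    · obtain ⟨s, hs, rfl⟩ := List.mem_map.1 h
      exact hψX s (hokLB s hs)
  have hAw : (LA.map ψ).map w = (List.range (w (x i0) + 1)).reverse := by
    rw [List.range_succ, List.reverse_append, List.reverse_singleton, List.singleton_append]
    simp only [LA, List.map_cons, List.map_map]
    congr 1
    conv_rhs => rw [← List.map_id (List.range (w (x i0))).reverse]
    apply List.map_congr_left
    intro j hj
    rw [List.mem_reverse, List.mem_range] at hj
    have h1 := hw _ (hx i0)
    exact ((hφ j (by omega)).2 _).2.1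
  have hBw : (LB.map ψ).map w =
      (List.range' (w (y i0) + 1) (m - 2 - w (y i0))).reverse ++ [w (y i0)] := by
    simp only [LB, List.map_append, List.map_map, List.map_cons, List.map_nil]
    congr 1
    conv_rhs => rw [← List.map_id (List.range' (w (y i0) + 1) (m - 2 - w (y i0))).reverse]
    apply List.map_congr_left
    intro j hj
    rw [List.mem_reverse, List.mem_range'_1] at hj
    exact ((hφ j (by omega)).2 _).2.1
  have hyw := hw _ (hy i0)
  have hBc : ((LB.map ψ).map w).IsChain Nr := by
    rw [hBw]
    rcases Nat.lt_or_ge (w (y i0)) (m - 1) with h | h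
    · have := chain_btw (m - 1) (w (y i0))
      unfold btw at this
      rw [if_neg (by omega), show m - 1 - w (y i0) - 1 = m - 2 - w (y i0) by omega] at this
      exact this.tail
    · rw [show m - 2 - w (y i0) = 0 by omega]
      simp
  have hBh : ∀ b ∈ ((LB.map ψ).map w).head?, Nr (m - 1) b := by
    intro b hb
    rw [hBw] at hb
    rcases Nat.lt_or_ge (w (y i0)) (m - 1) with h | h
    · have := chain_btw (m - 1) (w (y i0))
      unfold btw at this
      rw [if_neg (by omega), show m - 1 - w (y i0) - 1 = m - 2 - w (y i0) by omega,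
        List.isChain_cons] at this
      exact this.1 b hb
    · rw [show m - 2 - w (y i0) = 0 by omega] at hb
      have hb' : w (y i0) = b := by simpa using hb
      rw [← hb']
      constructor <;> omega
  have hc0 : (P0.map w).IsChain Nr := by
    simp only [P0, List.map_append]
    rw [List.isChain_append, List.isChain_append]
    refine ⟨?_, ⟨hRc, hBc, ?_⟩, ?_⟩
    · rw [hAw, List.range_eq_range']
      exact chain_range'_rev _ _
    · intro a ha b hb
      rw [hRl] at ha
      have ha' : m - 1 = a := by simpa using ha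
      rw [← ha']
      exact hBh b hb
    · intro a ha b hb
      rw [hAw, List.getLast?_reverse] at ha
      have ha' : a = 0 := by
        rw [List.range_eq_range', List.head?_range', if_neg (by omega)] at ha
        simpa using ha.symm
      rw [List.head?_append_of_ne_nil _ (by simpa using hRne), hRh] at hb
      have hb' : 0 = b := by simpa using hb
      rw [ha', ← hb']
      constructor <;> omega
  have hPi : ∀ i, i ≠ i0 → P i = (LP i).map ψ := fun i hi => by simp only [P, if_neg hi]
  have hPi0 : P i0 = P0 := by simp only [P, if_true]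
  have hLPw : ∀ i, ((LP i).map ψ).map w = w (x i) :: (btw (w (x i)) (w (y i)) ++ [w (y i)]) := by
    intro i
    simp only [LP, List.map_cons, List.map_append, List.map_map, List.map_nil]
    congr 2
    conv_rhs => rw [← List.map_id (btw (w (x i)) (w (y i)))]
    apply List.map_congr_left
    intro j hj
    rw [mem_btw] at hj
    have h1 := hw _ (hx i)
    have h2 := hw _ (hy i)
    exact ((hφ j (by omega)).2 _).2.1
  refine ⟨P, ?_, ?_, ?_⟩
  · intro i
    by_cases hi : i = i0
    · rw [hi, hPi0]
      refine ⟨rfl, ?_, chain_up Adj X w hadj P0 hnd0 hX0 hc0, hnd0, hX0⟩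
      simp only [P0, LB, List.map_append, List.map_cons, List.map_nil]
      rw [List.getLast?_append_of_ne_nil _ (by simp), List.getLast?_append_of_ne_nil _ (by simp),
        List.getLast?_append_of_ne_nil _ (by simp)]
      rfl
    · rw [hPi i hi]
      have h1 : ((LP i).map ψ).Nodup := hnd' _ (hndLP i) (hokLP i)
      have h2 : ∀ v ∈ (LP i).map ψ, v ∈ X := by
        intro v hv
        obtain ⟨s, hs, rfl⟩ := List.mem_map.1 hv
        exact hψX s (hokLP i s hs)
      refine ⟨rfl, ?_, chain_up Adj X w hadj _ h1 h2 ?_, h1, h2⟩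
      · simp only [LP, List.map_cons, List.map_append, List.map_nil]
        rw [← List.cons_append, List.getLast?_append_of_ne_nil _ (by simp)]
        rfl
      · rw [hLPw]
        exact chain_btw _ _
  · -- disjointness
    have h0 : ∀ i, i ≠ i0 → P0.Disjoint ((LP i).map ψ) := by
      intro i hi v hv hv'
      simp only [P0, List.mem_append] at hv
      rcases hv with h | h | h
      · refine hLdis LA (LP i) hokLA (hokLP i) ?_ h hv'
        intro s hs ht
        rw [hmLA] at hs
        rw [hmLP] at ht
        rcases hs with rfl | ⟨j, _, rfl⟩ <;> rcases ht with h | h | ⟨j', _, h⟩ <;> simp at h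
        exact hi h.symm
      · exact ((hmR v).1 h).2 (hPU i hi v hv')
      · refine hLdis LB (LP i) hokLB (hokLP i) ?_ h hv'
        intro s hs ht
        rw [hmLB] at hs
        rw [hmLP] at ht
        rcases hs with rfl | ⟨j, _, _, rfl⟩ <;> rcases ht with h | h | ⟨j', _, h⟩ <;> simp at h
        exact hi h.symm
    intro i i' hii
    by_cases hi : i = i0
    · have hi' : i' ≠ i0 := fun h => hii (hi.trans h.symm)
      rw [hi, hPi0, hPi i' hi']
      exact h0 i' hi'
    · by_cases hi' : i' = i0
      · rw [hi', hPi0, hPi i hi]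
        exact (h0 i hi).symm
      · rw [hPi i hi, hPi i' hi']
        apply hLdis _ _ (hokLP i) (hokLP i')
        intro s hs ht
        rw [hmLP] at hs ht
        rcases hs with rfl | rfl | ⟨j, _, rfl⟩ <;> rcases ht with h | h | ⟨j', _, h⟩ <;>
          simp at h
        · exact hii h
        · exact hii h
        · exact hii h.2
  · intro v hv
    change v ∈ X at hv
    by_cases hvU : v ∈ U
    · rw [hmU] at hvU
      rcases hvU with ⟨i, hi, h⟩ | h | h
      · exact ⟨i, by rw [hPi i hi]; exact h⟩
      · refine ⟨i0, ?_⟩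
        rw [hPi0]
        simp only [P0, List.mem_append]
        exact Or.inl h
      · refine ⟨i0, ?_⟩
        rw [hPi0]
        simp only [P0, List.mem_append]
        exact Or.inr (Or.inr h)
    · refine ⟨i0, ?_⟩
      rw [hPi0]
      simp only [P0, List.mem_append]
      exact Or.inr (Or.inl ((hmR v).2 ⟨hv, hvU⟩))

end Pool.Agent.U402.HC
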