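import Pool.Agent.U402.HC.Asm
import Pool.Agent.U402.HC.Win

set_option autoImplicit false
set_option linter.unusedSectionVars false

/-!
Hamiltonian cycles of Cayley graphs in which the cosets of a subgroup are linked.
-/

namespace Pool.Agent.U402.HC

open Finset
open Pool.Agent.Helper879.ECD (sp sp_mono mem_sp Ind exists_coeff sum_mem_sp)
open Pool.Agent.R553.SP (CC Share cc_rot)

variable {G : Type} [Group G] [Fintype G] [DecidableEq G] {H : Subgroup G} {S : Finset G}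

/-- the even connected part -/
theorem even_part [DecidableEq (G ⧸ H)] (hgen : H ⊔ Subgroup.closure (S : Set G) = ⊤)
    (hirr : ∀ s ∈ S, s ∉ H ⊔ Subgroup.closure ((S.erase s : Finset G) : Set G))
    (hS : 0 < S.card) (hn : 2 ≤ Nat.card (G ⧸ H))
    (K : Fin 2 → Finset (Arc S)) (hK1 : ∀ i j, i ≠ j → Disjoint (K i) (K j))
    (hK2 : ∀ i, sp (ZMod 2) (vx H S) (K i) = sp (ZMod 2) (vx H S) univ) :
    ∃ F : Finset (Arc S), F ⊆ univ.biUnion K ∧
      (∀ Q : G ⧸ H, ∃ e ∈ F, (e.1 : G ⧸ H) = Q ∨ ((hd' S e : G) : G ⧸ H) = Q) ∧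
      (∀ Q : G ⧸ H, Even ((univ.filter fun e : {e // e ∈ F} => (e.1.1 : G ⧸ H) = Q).card +
        (univ.filter fun e : {e // e ∈ F} => ((hd' S e.1 : G) : G ⧸ H) = Q).card)) ∧
      ∀ T : Set {e // e ∈ F}, T.Nonempty → Tᶜ.Nonempty → ∃ e ∈ T, ∃ f ∉ T,
        Share (fun e : {e // e ∈ F} => (e.1.1 : G ⧸ H))
          (fun e : {e // e ∈ F} => ((hd' S e.1 : G) : G ⧸ H)) e f := by
  have hmem : ∑ e ∈ K 0, vx H S e ∈ sp (ZMod 2) (vx H S) (K 1) := by
    rw [hK2 1, ← hK2 0]
    exact Submodule.sum_mem _ (fun e he => mem_sp he)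
  obtain ⟨c, hc⟩ := exists_coeff hmem
  have hsum1 : ∑ e ∈ K 1, c e • vx H S e = ∑ e ∈ (K 1).filter (fun e => c e = 1), vx H S e := by
    rw [sum_filter]
    apply sum_congr rfl
    intro e _
    have h2 : ∀ a : ZMod 2, a = 0 ∨ a = 1 := by decide
    rcases h2 (c e) with h | h
    · rw [h]; simp
    · rw [h]; simp
  set K' : Finset (Arc S) := (K 1).filter (fun e => c e = 1) with hK'
  set F : Finset (Arc S) := K 0 ∪ K' with hF
  have hdisj : Disjoint (K 0) K' :=
    disjoint_of_subset_right (filter_subset _ _) (hK1 0 1 (by decide))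
  have hFsum : ∑ e ∈ F, vx H S e = 0 := by
    rw [hF, sum_union hdisj, ← hsum1]
    have h1 : ∑ e ∈ K 1, c e • vx H S e = ∑ e ∈ K 0, vx H S e := hc
    rw [h1]
    funext w
    exact CharTwo.add_self_eq_zero _
  have hFK : F ⊆ univ.biUnion K := by
    rw [hF]
    apply union_subset
    · exact subset_biUnion_of_mem K (mem_univ 0)
    · exact (filter_subset _ _).trans (subset_biUnion_of_mem K (mem_univ 1))
  -- functionals
  have hfun : ∀ U : Finset (G ⧸ H), (∀ e ∈ F, ((e.1 : G ⧸ H) ∈ U ↔ ((hd' S e : G) : G ⧸ H) ∈ U)) →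
      ∀ u w : G ⧸ H, u ∈ U → w ∈ U := by
    intro U hU u w hu
    by_contra hw
    let φ : ((G ⧸ H) → ZMod 2) →ₗ[ZMod 2] ZMod 2 := ∑ Q ∈ U, LinearMap.proj Q
    have hφ : ∀ v, φ (dl H v) = if v ∈ U then 1 else 0 := by
      intro v
      have h1 : φ (dl H v) = ∑ Q ∈ U, dl H v Q := by
        simp [φ]
      rw [h1]
      simp only [dl_apply]
      rw [sum_ite_eq]
    have h1 : sp (ZMod 2) (vx H S) (K 0) ≤ LinearMap.ker φ := by
      unfold sp
      rw [Submodule.span_le]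
      rintro _ ⟨e, he, rfl⟩
      rw [SetLike.mem_coe, LinearMap.mem_ker]
      have heF : e ∈ F := by rw [hF]; exact mem_union_left _ he
      unfold vx
      rw [map_add, hφ, hφ]
      by_cases h : (e.1 : G ⧸ H) ∈ U
      · rw [if_pos h, if_pos ((hU e heF).1 h)]
        exact CharTwo.add_self_eq_zero _
      · rw [if_neg h, if_neg (fun h' => h ((hU e heF).2 h'))]
        exact CharTwo.add_self_eq_zero _
    rw [hK2 0] at h1
    have h2 := h1 (dl_mem hgen hirr hS u w)
    rw [LinearMap.mem_ker, map_add, hφ, hφ, if_pos hu, if_neg hw, add_zero] at h2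
    exact one_ne_zero h2
  have hcov : ∀ Q : G ⧸ H, ∃ e ∈ F, (e.1 : G ⧸ H) = Q ∨ ((hd' S e : G) : G ⧸ H) = Q := by
    intro Q
    by_contra hcon
    push Not at hcon
    have : Fintype (G ⧸ H) := Fintype.ofFinite _
    rw [Nat.card_eq_fintype_card] at hn
    obtain ⟨w, hw⟩ := Fintype.exists_ne_of_one_lt_card hn Q
    have h1 := hfun {Q} (by
      intro e he
      rw [mem_singleton, mem_singleton]
      have := hcon e he
      exact ⟨fun h => absurd h this.1, fun h => absurd h this.2⟩) Q w (mem_singleton_self _)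
    exact hw (mem_singleton.1 h1)
  let E : Type := {e : Arc S // e ∈ F}
  let a : E → G ⧸ H := fun e => (e.1.1 : G ⧸ H)
  let b : E → G ⧸ H := fun e => ((hd' S e.1 : G) : G ⧸ H)
  refine ⟨F, hFK, hcov, ?_, ?_⟩
  · intro q
    rw [← ZMod.natCast_eq_zero_iff_even]
    have h1 := congrFun hFsum q
    rw [Finset.sum_apply, Pi.zero_apply] at h1
    rw [← h1, Nat.cast_add, card_filter, card_filter, Nat.cast_sum, Nat.cast_sum,
      ← sum_add_distrib, ← sum_coe_sort F]
    apply sum_congr rfl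
    intro e _
    unfold vx
    rw [Pi.add_apply, dl_apply, dl_apply]
    simp only [Nat.cast_ite, Nat.cast_one, Nat.cast_zero]
  · intro T hT hT'
    by_contra hcon
    push Not at hcon
    obtain ⟨e0, he0⟩ := hT
    obtain ⟨f0, hf0⟩ := hT'
    have : Fintype (G ⧸ H) := Fintype.ofFinite _
    classical
    set U : Finset (G ⧸ H) := univ.filter fun Q => ∃ e ∈ T, a e = Q ∨ b e = Q with hU
    have hmU : ∀ Q, Q ∈ U ↔ ∃ e ∈ T, a e = Q ∨ b e = Q := by
      intro Q
      simp only [hU, mem_filter, mem_univ, true_and]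
    have h1 := hfun U (by
      intro e he
      by_cases heT : (⟨e, he⟩ : E) ∈ T
      · constructor
        · intro _
          rw [hmU]; exact ⟨⟨e, he⟩, heT, Or.inr rfl⟩
        · intro _
          rw [hmU]; exact ⟨⟨e, he⟩, heT, Or.inl rfl⟩
      · have h2 : (e.1 : G ⧸ H) ∉ U := by
          intro h
          rw [hmU] at h
          obtain ⟨e', he', h' | h'⟩ := h
          · exact hcon e' he' ⟨e, he⟩ heT (Or.inl h')
          · exact hcon e' he' ⟨e, he⟩ heT (Or.inr (Or.inr (Or.inl h')))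
        have h3 : ((hd' S e : G) : G ⧸ H) ∉ U := by
          intro h
          rw [hmU] at h
          obtain ⟨e', he', h' | h'⟩ := h
          · exact hcon e' he' ⟨e, he⟩ heT (Or.inr (Or.inl h'))
          · exact hcon e' he' ⟨e, he⟩ heT (Or.inr (Or.inr (Or.inr h')))
        exact ⟨fun h => absurd h h2, fun h => absurd h h3⟩) (a e0) (a f0) (by
      rw [hmU]; exact ⟨e0, he0, Or.inl rfl⟩)
    rw [hmU] at h1
    obtain ⟨e', he', h' | h'⟩ := h1
    · exact hcon e' he' f0 hf0 (Or.inl h')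
    · exact hcon e' he' f0 hf0 (Or.inr (Or.inr (Or.inl h')))

/-- linkages of the left cosets -/
lemma linked_coset (A : Set G) (r : ℕ) (h : Linked (fun x y : G => x⁻¹ * y ∈ A) (fun g => g ∈ H) r)
    (Z : G ⧸ H) : Linked (fun x y : G => x⁻¹ * y ∈ A) (fun g : G => (g : G ⧸ H) = Z) r := by
  obtain ⟨g, rfl⟩ := QuotientGroup.mk_surjective Z
  intro ι _ x y hne hι hx hy hxi hyi hxy
  have hm : ∀ v : G, (v : G ⧸ H) = (g : G ⧸ H) → g⁻¹ * v ∈ H := fun v hv =>
    QuotientGroup.eq.1 hv.symm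
  obtain ⟨P, hP1, hP2, hP3⟩ := h ι (fun i => g⁻¹ * x i) (fun i => g⁻¹ * y i) hne hι
    (fun i => hm _ (hx i)) (fun i => hm _ (hy i))
    (fun i j hij => hxi (mul_left_cancel hij)) (fun i j hij => hyi (mul_left_cancel hij))
    (fun i j hij => hxy i j (mul_left_cancel hij))
  refine ⟨fun i => (P i).map (fun v => g * v), ?_, ?_, ?_⟩
  · intro i
    obtain ⟨h1, h2, h3, h4, h5⟩ := hP1 i
    refine ⟨?_, ?_, ?_, ?_, ?_⟩
    · rw [List.head?_map, h1]; simp
    · rw [List.getLast?_map, h2]; simp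
    · rw [List.isChain_map]
      refine h3.imp ?_
      intro a b hab
      have : (g * a)⁻¹ * (g * b) = a⁻¹ * b := by group
      rwa [this]
    · exact h4.map (mul_right_injective g)
    · intro v hv
      obtain ⟨u, hu, rfl⟩ := List.mem_map.1 hv
      exact QuotientGroup.mk_mul_of_mem g (h5 u hu)
  · intro i j hij v hv hv'
    obtain ⟨u, hu, rfl⟩ := List.mem_map.1 hv
    obtain ⟨u', hu', he⟩ := List.mem_map.1 hv'
    rw [mul_left_cancel he] at hu'
    exact hP2 i j hij hu hu'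
  · intro v hv
    obtain ⟨i, hi⟩ := hP3 (g⁻¹ * v) (hm v hv)
    exact ⟨i, List.mem_map.2 ⟨_, hi, mul_inv_cancel_left _ _⟩⟩

/-- **Linked blocks.** -/
theorem main_linked (A : Set G) (hA : ∀ x ∈ A, x⁻¹ ∈ A) (H : Subgroup G) (hH : 98 ≤ Nat.card H)
    (S : Finset G) (hSA : ∀ s ∈ S, s ∈ A) (hS1 : H ⊔ Subgroup.closure (S : Set G) = ⊤)
    (hS2 : ∀ s ∈ S, s ∉ H ⊔ Subgroup.closure ((S.erase s : Finset G) : Set G)) (hS : S.Nonempty)
    (hlink : Linked (fun x y : G => x⁻¹ * y ∈ A) (fun g => g ∈ H) 50) :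
    ∃ L : List G, L.Nodup ∧ (∀ x, x ∈ L) ∧ CC (fun x y => x⁻¹ * y ∈ A) L := by
  classical
  have hS0 : 0 < S.card := card_pos.2 hS
  have hnotH : ∀ s ∈ S, s ∉ H := fun s hs h => hS2 s hs (Subgroup.mem_sup_left h)
  have hn : 2 ≤ Nat.card (G ⧸ H) := by
    by_contra hcon
    have h1 : Nat.card (G ⧸ H) = 1 := by
      have : 0 < Nat.card (G ⧸ H) := Nat.card_pos
      omega
    have h2 : H = ⊤ := Subgroup.index_eq_one.1 h1
    obtain ⟨s, hs⟩ := hS
    apply hnotH s hs
    rw [h2]; trivial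
  obtain ⟨K, hK1, hK2, hK3, hK4⟩ := two_dirac hS1 hS2 hS0 hH
  obtain ⟨F, hFK, hcov, hev, hconn⟩ := even_part hS1 hS2 hS0 hn K hK1 hK2
  have hEne : Nonempty {e // e ∈ F} := by
    obtain ⟨e, he, -⟩ := hcov (1 : G)
    exact ⟨⟨e, he⟩⟩
  have hconf : ∀ e f : {e // e ∈ F}, ¬ Confl e.1 f.1 := fun e f =>
    hK3 e.1 (hFK e.2) f.1 (hFK f.2)
  have hboth : ∀ e : Arc S, (e.1 : G ⧸ H) ≠ ((hd' S e : G) : G ⧸ H) := by
    intro e h
    have h5 : (e.1)⁻¹ * hd' S e ∈ H := QuotientGroup.eq.1 h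
    unfold hd' at h5
    rw [inv_mul_cancel_left] at h5
    exact hnotH _ e.2.2 h5
  refine ham_of_linked (E := {e // e ∈ F}) (fun x y : G => x⁻¹ * y ∈ A)
    (fun g : G => (g : G ⧸ H)) (fun e => e.1.1) (fun e => hd' S e.1) 50 ?_ ?_ ?_ ?_ hev hconn
    ?_ ?_ (fun Z _ => linked_coset A 50 hlink Z)
  · intro e
    have h1 : (e.1.1)⁻¹ * hd' S e.1 ∈ A := by
      unfold hd'
      rw [inv_mul_cancel_left]
      exact hSA _ e.1.2.2
    refine ⟨h1, ?_⟩
    have := hA _ h1
    rwa [mul_inv_rev, inv_inv] at this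
  · intro e f h
    by_cases hef : e = f
    · rw [hef] at h
      exact hboth f.1 (congrArg _ h)
    · exact hconf e f ⟨fun h' => hef (Subtype.ext h'), Or.inr (Or.inl h)⟩
  · intro e f h
    by_contra hef
    exact hconf e f ⟨fun h' => hef (Subtype.ext h'), Or.inl h⟩
  · intro e f h
    by_contra hef
    exact hconf e f ⟨fun h' => hef (Subtype.ext h'), Or.inr (Or.inr (Or.inr h))⟩
  · intro Z _
    obtain ⟨e, he, h⟩ := hcov Z
    exact ⟨⟨e, he⟩, h⟩
  · intro Z
    have h1 := hK4 Z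
    have h2 : (((univ.filter fun e : {e // e ∈ F} => (e.1.1 : G ⧸ H) = Z).map
        (Function.Embedding.subtype _)) ∪
        ((univ.filter fun e : {e // e ∈ F} => ((hd' S e.1 : G) : G ⧸ H) = Z).map
        (Function.Embedding.subtype _))) ⊆ (univ.biUnion K) ∩ at2 Z := by
      intro e he
      rw [mem_union, mem_map, mem_map] at he
      rw [mem_inter, mem_at2]
      rcases he with ⟨e', he', rfl⟩ | ⟨e', he', rfl⟩
      · rw [mem_filter] at he'
        exact ⟨hFK e'.2, Or.inl he'.2⟩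
      · rw [mem_filter] at he'
        exact ⟨hFK e'.2, Or.inr he'.2⟩
    have h3 := card_le_card h2
    rw [card_union_of_disjoint, card_map, card_map] at h3
    · omega
    · rw [disjoint_left]
      intro e he he'
      rw [mem_map] at he he'
      obtain ⟨e1, h4, rfl⟩ := he
      obtain ⟨e2, h5, h6⟩ := he'
      rw [mem_filter] at h4 h5
      have h7 : e2 = e1 := Subtype.ext h6
      rw [h7] at h5
      exact hboth e1.1 (h4.2.trans h5.2.symm)

end Pool.Agent.U402.HC
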