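import Pool.Agent.U402.HC.Sel

set_option autoImplicit false
set_option linter.unusedSectionVars false

/-!
From twelve disjoint spanning sets whose union has a conflict graph of maximum degree two to two
disjoint spanning sets without conflicts.
-/

namespace Pool.Agent.U402.HC

open Finset
open Pool.Agent.Helper879.ECD (sp sp_mono mem_sp Ind)

section matching

variable {E : Type} [DecidableEq E] [Fintype E]

/-- an inclusion-maximal matching, as an involution -/
lemma exists_matching (T : Finset E) (C : E → E → Prop) (hs : ∀ e f, C e f → C f e)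
    (hi : ∀ e, ¬ C e e) :
    ∃ m : E → E, (∀ e, m (m e) = e) ∧ (∀ e, m e ≠ e → e ∈ T ∧ m e ∈ T ∧ C e (m e)) ∧
      ∀ e ∈ T, ∀ f ∈ T, C e f → m e ≠ e ∨ m f ≠ f := by
  classical
  set fam : Finset (E → E) := univ.filter fun m => (∀ e, m (m e) = e) ∧
    (∀ e, m e ≠ e → e ∈ T ∧ m e ∈ T ∧ C e (m e)) with hfam
  obtain ⟨m, hm, hmax⟩ := exists_max_image fam (fun m => (univ.filter fun e => m e ≠ e).card)
    ⟨id, by rw [hfam, mem_filter]; exact ⟨mem_univ _, fun e => rfl, fun e h => absurd rfl h⟩⟩
  rw [hfam, mem_filter] at hm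
  obtain ⟨-, hm1, hm2⟩ := hm
  refine ⟨m, hm1, hm2, ?_⟩
  intro e he f hf hC
  by_contra hcon
  push Not at hcon
  obtain ⟨hme, hmf⟩ := hcon
  have hne : e ≠ f := fun h => hi e (by rw [← h] at hC; exact hC)
  let m' : E → E := fun x => if x = e then f else if x = f then e else m x
  have hme' : ∀ x, x ≠ e → x ≠ f → m x ≠ e ∧ m x ≠ f := by
    intro x h1 h2
    constructor
    · intro h
      apply h1
      rw [← hm1 x, h, hme]
    · intro h
      apply h2
      rw [← hm1 x, h, hmf]
  have e1 : m' e = f := by simp only [m', if_true]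
  have e2 : m' f = e := by simp only [m', if_neg hne.symm, if_true]
  have e3 : ∀ x, x ≠ e → x ≠ f → m' x = m x := by
    intro x h1 h2
    simp only [m', if_neg h1, if_neg h2]
  have hm' : m' ∈ fam := by
    rw [hfam, mem_filter]
    refine ⟨mem_univ _, ?_, ?_⟩
    · intro x
      by_cases h1 : x = e
      · rw [h1, e1, e2]
      · by_cases h2 : x = f
        · rw [h2, e2, e1]
        · rw [e3 x h1 h2, e3 _ (hme' x h1 h2).1 (hme' x h1 h2).2, hm1]
    · intro x hx
      by_cases h1 : x = e
      · rw [h1, e1]; exact ⟨he, hf, hC⟩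
      · by_cases h2 : x = f
        · rw [h2, e2]; exact ⟨hf, he, hs _ _ hC⟩
        · rw [e3 x h1 h2] at hx ⊢
          exact hm2 x hx
  have h1 := hmax m' hm'
  have h2 : (univ.filter fun x => m x ≠ x) ⊂ (univ.filter fun x => m' x ≠ x) := by
    constructor
    · intro x hx
      rw [mem_filter] at hx ⊢
      refine ⟨mem_univ _, ?_⟩
      have h1 : x ≠ e := fun h => hx.2 (by rw [h, hme])
      have h2 : x ≠ f := fun h => hx.2 (by rw [h, hmf])
      rw [e3 x h1 h2]; exact hx.2
    · intro h
      have h3 : e ∈ univ.filter fun x => m' x ≠ x := by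
        rw [mem_filter]; exact ⟨mem_univ _, by rw [e1]; exact hne.symm⟩
      have h4 := h h3
      rw [mem_filter] at h4
      exact h4.2 hme
  have h3 := card_lt_card h2
  omega

end matching

variable {F U E : Type} [Field F] [AddCommGroup U] [Module F U] [DecidableEq E] [Fintype E]

open Classical in
/-- the first round: afterwards no two adjacent elements have two neighbours each -/
lemma round1 [FiniteDimensional F U] (x : E → U) (C : E → E → Prop) (hs : ∀ e f, C e f → C f e)
    (hi : ∀ e, ¬ C e e) (t : ℕ) (I : Fin (2 * t) → Finset E)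
    (hdis : ∀ i j, i ≠ j → Disjoint (I i) (I j)) (W : Submodule F U)
    (hsp : ∀ i, sp F x (I i) = W)
    (hdeg : ∀ e ∈ univ.biUnion I, ((univ.biUnion I).filter fun f => C e f).card ≤ 2) :
    ∃ J : Fin t → Finset E, (∀ i j, i ≠ j → Disjoint (J i) (J j)) ∧
      (∀ i, sp F x (J i) = W) ∧ (univ.biUnion J ⊆ univ.biUnion I) ∧
      ∀ e ∈ univ.biUnion J, ∀ f ∈ univ.biUnion J, C e f →
        ((univ.biUnion J).filter fun f => C e f).card ≤ 1 ∨
        ((univ.biUnion J).filter fun e => C f e).card ≤ 1 := by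
  set T := univ.biUnion I with hT
  obtain ⟨m, hm1, hm2, hm3⟩ := exists_matching T C hs hi
  obtain ⟨J, hJ1, hJ2, hJ3, hJ4⟩ := select_of_family x (fun e => ({e, m e} : Finset E)) 2 t
    (by norm_num) I hdis W hsp (by
      intro e i he
      have h1 : ((univ.biUnion I).filter fun f => ({f, m f} : Finset E) = {e, m e}) ⊆ {e, m e} := by
        intro f hf
        rw [mem_filter] at hf
        rw [← hf.2]
        exact mem_insert_self _ _
      exact (card_le_card h1).trans card_le_two)
  have hJT : univ.biUnion J ⊆ T := by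
    intro e he
    obtain ⟨i, -, hi'⟩ := mem_biUnion.1 he
    exact hJ3 i hi'
  refine ⟨J, hJ1, hJ2, hJT, ?_⟩
  have hself : ∀ e ∈ univ.biUnion J, m e ∈ univ.biUnion J → m e = e := by
    intro e he hme
    obtain ⟨i, -, hi'⟩ := mem_biUnion.1 he
    obtain ⟨j, -, hj'⟩ := mem_biUnion.1 hme
    have := hJ4 i j e hi' (m e) hj' (by
      simp only [hm1]
      exact Finset.pair_comm _ _)
    exact this.symm
  have hfull : ∀ e ∈ univ.biUnion J, 1 < ((univ.biUnion J).filter fun f => C e f).card →
      m e = e := by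
    intro e he h2
    by_contra hne
    obtain ⟨h3, h4, h5⟩ := hm2 e hne
    have h6 : (univ.biUnion J).filter (fun f => C e f) = T.filter fun f => C e f := by
      apply eq_of_subset_of_card_le
      · exact filter_subset_filter _ hJT
      · exact (hdeg e (hJT he)).trans h2
    have h7 : m e ∈ T.filter fun f => C e f := mem_filter.2 ⟨h4, h5⟩
    rw [← h6, mem_filter] at h7
    exact hne (hself e he h7.1)
  intro e he f hf hC
  by_contra hcon
  push Not at hcon
  rcases hm3 e (hJT he) f (hJT hf) hC with h | h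
  · exact h (hfull e he hcon.1)
  · exact h (hfull f hf hcon.2)

open Classical in
/-- the second round: no conflicts are left -/
lemma round2 [FiniteDimensional F U] (x : E → U) (C : E → E → Prop) (hs : ∀ e f, C e f → C f e)
    (hi : ∀ e, ¬ C e e) (t : ℕ) (I : Fin (3 * t) → Finset E)
    (hdis : ∀ i j, i ≠ j → Disjoint (I i) (I j)) (W : Submodule F U)
    (hsp : ∀ i, sp F x (I i) = W)
    (hdeg : ∀ e ∈ univ.biUnion I, ((univ.biUnion I).filter fun f => C e f).card ≤ 2)
    (hadj : ∀ e ∈ univ.biUnion I, ∀ f ∈ univ.biUnion I, C e f →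
        ((univ.biUnion I).filter fun f => C e f).card ≤ 1 ∨
        ((univ.biUnion I).filter fun e => C f e).card ≤ 1) :
    ∃ J : Fin t → Finset E, (∀ i j, i ≠ j → Disjoint (J i) (J j)) ∧
      (∀ i, sp F x (J i) = W) ∧ (univ.biUnion J ⊆ univ.biUnion I) ∧
      ∀ e ∈ univ.biUnion J, ∀ f ∈ univ.biUnion J, ¬ C e f := by
  set T := univ.biUnion I with hT
  let N : E → Finset E := fun e => T.filter fun f => C e f
  have hmN : ∀ e f, f ∈ N e ↔ f ∈ T ∧ C e f := fun e f => mem_filter
  -- the neighbours with two neighbours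
  let Z : E → Finset E := fun e => (N e).filter fun c => 1 < (N c).card
  have hmZ : ∀ e f, f ∈ Z e ↔ f ∈ N e ∧ 1 < (N f).card := fun e f => mem_filter
  let κ : E → Finset E := fun e => if 1 < (N e).card then {e} else
    if (Z e).Nonempty then Z e else insert e (N e)
  have hκ1 : ∀ e, 1 < (N e).card → κ e = {e} := by
    intro e h; simp only [κ, if_pos h]
  have hκ2 : ∀ e, ¬ 1 < (N e).card → (Z e).Nonempty → κ e = Z e := by
    intro e h h'; simp only [κ, if_neg h, if_pos h']
  have hκ3 : ∀ e, ¬ 1 < (N e).card → ¬ (Z e).Nonempty → κ e = insert e (N e) := by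
    intro e h h'; simp only [κ, if_neg h, if_neg h']
  have hadj' : ∀ e ∈ T, ∀ f ∈ T, C e f → κ e = κ f := by
    intro e he f hf hC
    have hfe : f ∈ N e := (hmN e f).2 ⟨hf, hC⟩
    have hef : e ∈ N f := (hmN f e).2 ⟨he, hs _ _ hC⟩
    by_cases h1 : 1 < (N e).card
    · have h2 : ¬ 1 < (N f).card := by
        rcases hadj e he f hf hC with h | h
        · exact absurd h (not_le.2 h1)
        · exact not_lt.2 h
      have h3 : e ∈ Z f := (hmZ f e).2 ⟨hef, h1⟩
      rw [hκ1 e h1, hκ2 f h2 ⟨e, h3⟩]
      have h4 : (Z f).card ≤ 1 := (card_le_card (filter_subset _ _)).trans (not_lt.1 h2)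
      exact (eq_singleton_iff_unique_mem.2 ⟨h3, fun y hy => card_le_one.1 h4 _ hy _ h3⟩).symm
    · by_cases h2 : 1 < (N f).card
      · have h3 : f ∈ Z e := (hmZ e f).2 ⟨hfe, h2⟩
        rw [hκ1 f h2, hκ2 e h1 ⟨f, h3⟩]
        have h4 : (Z e).card ≤ 1 := (card_le_card (filter_subset _ _)).trans (not_lt.1 h1)
        exact eq_singleton_iff_unique_mem.2 ⟨h3, fun y hy => card_le_one.1 h4 _ hy _ h3⟩
      · have hNe : N e = {f} :=
          eq_singleton_iff_unique_mem.2 ⟨hfe, fun y hy => card_le_one.1 (not_lt.1 h1) _ hy _ hfe⟩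
        have hNf : N f = {e} :=
          eq_singleton_iff_unique_mem.2 ⟨hef, fun y hy => card_le_one.1 (not_lt.1 h2) _ hy _ hef⟩
        have h3 : ¬ (Z e).Nonempty := by
          rintro ⟨c, hc⟩
          rw [hmZ, hNe, mem_singleton] at hc
          exact h2 (hc.1 ▸ hc.2)
        have h4 : ¬ (Z f).Nonempty := by
          rintro ⟨c, hc⟩
          rw [hmZ, hNf, mem_singleton] at hc
          exact h1 (hc.1 ▸ hc.2)
        rw [hκ3 e h1 h3, hκ3 f h2 h4, hNe, hNf]
        exact Finset.pair_comm _ _
  have hNsym : ∀ e f, e ∈ T → f ∈ N e → e ∈ N f := by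
    intro e f he hf
    rw [hmN] at hf ⊢
    exact ⟨he, hs _ _ hf.2⟩
  have hcl : ∀ e ∈ T, (T.filter fun f => κ f = κ e).card ≤ 3 := by
    intro e he
    -- the case in which the class has a centre
    have hcentre : ∀ c, 1 < (N c).card → c ∈ T → κ e = {c} →
        (T.filter fun f => κ f = κ e).card ≤ 3 := by
      intro c hc hcT hκe
      have h1 : (T.filter fun f => κ f = κ e) ⊆ insert c (N c) := by
        intro f hf
        rw [mem_filter, hκe] at hf
        rw [mem_insert]
        by_cases h1 : 1 < (N f).card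
        · rw [hκ1 f h1] at hf
          exact Or.inl (singleton_injective hf.2)
        · by_cases h2 : (Z f).Nonempty
          · rw [hκ2 f h1 h2] at hf
            right
            have h3 : c ∈ Z f := by rw [hf.2]; exact mem_singleton_self _
            exact hNsym f c hf.1 ((hmZ f c).1 h3).1
          · rw [hκ3 f h1 h2] at hf
            have h3 : f ∈ ({c} : Finset E) := by rw [← hf.2]; exact mem_insert_self _ _
            exact Or.inl (mem_singleton.1 h3)
      refine (card_le_card h1).trans ((card_insert_le _ _).trans ?_)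
      have := hdeg c hcT
      change (N c).card ≤ 2 at this
      omega
    by_cases h1 : 1 < (N e).card
    · exact hcentre e h1 he (hκ1 e h1)
    · by_cases h2 : (Z e).Nonempty
      · obtain ⟨c, hc⟩ := h2
        have h4 : (Z e).card ≤ 1 := (card_le_card (filter_subset _ _)).trans (not_lt.1 h1)
        have h5 : Z e = {c} :=
          eq_singleton_iff_unique_mem.2 ⟨hc, fun y hy => card_le_one.1 h4 _ hy _ hc⟩
        refine hcentre c ((hmZ e c).1 hc).2 ((hmN e c).1 ((hmZ e c).1 hc).1).1 ?_
        rw [hκ2 e h1 ⟨c, hc⟩, h5]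
      · have h3 : κ e = insert e (N e) := hκ3 e h1 h2
        have h4 : (T.filter fun f => κ f = κ e) ⊆ insert e (N e) := by
          intro f hf
          rw [mem_filter] at hf
          by_cases h5 : 1 < (N f).card
          · rw [hκ1 f h5, h3] at hf
            have h6 : e ∈ ({f} : Finset E) := by rw [hf.2]; exact mem_insert_self _ _
            rw [mem_singleton] at h6
            rw [h6]; exact mem_insert_self _ _
          · by_cases h6 : (Z f).Nonempty
            · exfalso
              rw [hκ2 f h5 h6, h3] at hf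
              obtain ⟨c, hc⟩ := h6
              have h7 : (Z f).card ≤ 1 := (card_le_card (filter_subset _ _)).trans (not_lt.1 h5)
              have h8 : Z f = {c} :=
                eq_singleton_iff_unique_mem.2 ⟨hc, fun y hy => card_le_one.1 h7 _ hy _ hc⟩
              have h9 : e ∈ Z f := by rw [hf.2]; exact mem_insert_self _ _
              have h10 := ((hmZ f e).1 h9).2
              exact h1 h10
            · rw [← h3, ← hf.2, hκ3 f h5 h6]
              exact mem_insert_self _ _
        refine (card_le_card h4).trans ((card_insert_le _ _).trans ?_)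
        have := not_lt.1 h1
        omega
  obtain ⟨J, hJ1, hJ2, hJ3, hJ4⟩ := select_of_family x κ 3 t (by norm_num) I hdis W hsp (by
    intro e i he
    exact hcl e (mem_biUnion.2 ⟨i, mem_univ _, he⟩))
  have hJT : univ.biUnion J ⊆ T := by
    intro e he
    obtain ⟨i, -, hi'⟩ := mem_biUnion.1 he
    exact hJ3 i hi'
  refine ⟨J, hJ1, hJ2, hJT, ?_⟩
  intro e he f hf hC
  obtain ⟨i, -, hi'⟩ := mem_biUnion.1 he
  obtain ⟨j, -, hj'⟩ := mem_biUnion.1 hf
  have h1 := hJ4 i j e hi' f hj' (hadj' e (hJT he) f (hJT hf) hC)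
  rw [h1] at hC
  exact hi _ hC

open Classical in
/-- **Two conflict-free spanning sets from twelve.** -/
theorem indep_of_deg2 [FiniteDimensional F U] (x : E → U) (C : E → E → Prop)
    (hs : ∀ e f, C e f → C f e) (hi : ∀ e, ¬ C e e) (I : Fin 12 → Finset E)
    (hdis : ∀ i j, i ≠ j → Disjoint (I i) (I j)) (W : Submodule F U)
    (hsp : ∀ i, sp F x (I i) = W)
    (hdeg : ∀ e ∈ univ.biUnion I, ((univ.biUnion I).filter fun f => C e f).card ≤ 2) :
    ∃ J : Fin 2 → Finset E, (∀ i j, i ≠ j → Disjoint (J i) (J j)) ∧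
      (∀ i, sp F x (J i) = W) ∧ (univ.biUnion J ⊆ univ.biUnion I) ∧
      ∀ e ∈ univ.biUnion J, ∀ f ∈ univ.biUnion J, ¬ C e f := by
  obtain ⟨J, h1, h2, h3, h4⟩ := round1 x C hs hi 6 I hdis W hsp hdeg
  obtain ⟨J', h1', h2', h3', h4'⟩ := round2 x C hs hi 2 J h1 W h2 (by
    intro e he
    exact (card_le_card (filter_subset_filter _ h3)).trans (hdeg e (h3 he))) h4
  exact ⟨J', h1', h2', h3'.trans h3, h4'⟩

end Pool.Agent.U402.HC
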