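import Mathlib

set_option autoImplicit false
set_option linter.unusedSectionVars false

/-!
Iterative relaxation: a fractional solution of a covering problem with supermodular demands and
degree bounds is rounded to an integral one which violates the degree bounds by less than the number
of degree bounds in which an element takes part.
-/

namespace Pool.Agent.U402.HC

open Finset

/-- moving along a direction until a new constraint becomes tight -/
lemma move {ι : Type} [Fintype ι] (α β : ι → ℚ) (hα : ∀ c, 0 ≤ α c) (h0 : ∀ c, α c = 0 → β c = 0)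
    (hneg : ∃ c, β c < 0) :
    ∃ t : ℚ, (∀ c, 0 ≤ α c + t * β c) ∧ ∃ c, α c ≠ 0 ∧ α c + t * β c = 0 := by
  classical
  set C : Finset ι := univ.filter fun c => β c < 0 with hC
  have hne : C.Nonempty := by
    obtain ⟨c, hc⟩ := hneg
    exact ⟨c, by rw [hC, mem_filter]; exact ⟨mem_univ _, hc⟩⟩
  obtain ⟨c0, hc0, hmin⟩ := exists_min_image C (fun c => α c / (-β c)) hne
  rw [hC, mem_filter] at hc0
  have hb0 : 0 < -β c0 := by linarith [hc0.2]
  have ha0 : α c0 ≠ 0 := fun h => by have := h0 _ h; linarith [hc0.2]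
  refine ⟨α c0 / (-β c0), ?_, c0, ha0, ?_⟩
  · intro c
    have ht : 0 ≤ α c0 / (-β c0) := div_nonneg (hα _) hb0.le
    by_cases hc : β c < 0
    · have h1 := hmin c (by rw [hC, mem_filter]; exact ⟨mem_univ _, hc⟩)
      have h2 : 0 < -β c := by linarith
      rw [le_div_iff₀ h2] at h1
      linarith
    · push Not at hc
      have := mul_nonneg ht hc
      linarith [hα c]
  · have h3 : α c0 / (-β c0) * (-β c0) = α c0 := div_mul_cancel₀ _ hb0.ne'
    linarith

/-- the feasible fractional vectors -/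
structure Feas {E V : Type} [Fintype E] [DecidableEq E] [Fintype V] (q : Finset E → ℤ)
    (inc : V → Finset E) (k : ℕ) (g : V → ℕ) (y : E → ℚ) : Prop where
  nonneg : ∀ e, 0 ≤ y e
  le_one : ∀ e, y e ≤ 1
  cov : ∀ Z, (q Z : ℚ) ≤ ∑ e ∈ Z, y e
  deg : ∀ v, ∑ e ∈ inc v, y e < g v ∨ ((inc v).filter fun e => y e ≠ 0).card < g v + k

/-- the slacks -/
def slack {E : Type} (q : Finset E → ℤ) (y : E → ℚ) : E ⊕ (E ⊕ Finset E) → ℚ
  | Sum.inl e => y e
  | Sum.inr (Sum.inl e) => 1 - y e
  | Sum.inr (Sum.inr Z) => ∑ e ∈ Z, y e - q Z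

/-- the rates of change -/
def rate {E : Type} (z : E → ℚ) : E ⊕ (E ⊕ Finset E) → ℚ
  | Sum.inl e => z e
  | Sum.inr (Sum.inl e) => - z e
  | Sum.inr (Sum.inr Z) => ∑ e ∈ Z, z e

section step

variable {E V : Type} [Fintype E] [DecidableEq E] [Fintype V] [DecidableEq V]
  {q : Finset E → ℤ} {inc : V → Finset E} {k : ℕ} {g : V → ℕ} {y : E → ℚ}

/-- the direction -/
lemma direction (hq0 : q ∅ = 0)
    (hsup : ∀ Y Z, q Y + q Z ≤ q (Y ∩ Z) + q (Y ∪ Z))
    (hk : ∀ e, (univ.filter fun v => e ∈ inc v).card ≤ k) (hy : Feas q inc k g y)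
    (hfrac : ∃ e, y e ≠ 0 ∧ y e ≠ 1) :
    ∃ z : E → ℚ, z ≠ 0 ∧ (∀ e, y e = 0 ∨ y e = 1 → z e = 0) ∧
      (∀ Z, (q Z : ℚ) = ∑ e ∈ Z, y e → ∑ e ∈ Z, z e = 0) ∧
      ∀ v, g v + k ≤ ((inc v).filter fun e => y e ≠ 0).card → ∑ e ∈ inc v, z e = 0 := by
  classical
  set E' : Finset E := univ.filter fun e => y e ≠ 0 ∧ y e ≠ 1 with hE'
  have hmE' : ∀ e, e ∈ E' ↔ y e ≠ 0 ∧ y e ≠ 1 := by
    intro e; rw [hE', mem_filter]; simp
  have hpos : ∀ e ∈ E', 0 < y e := fun e he =>
    lt_of_le_of_ne (hy.nonneg e) (Ne.symm ((hmE' e).1 he).1)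
  have hlt1 : ∀ e ∈ E', y e < 1 := fun e he =>
    lt_of_le_of_ne (hy.le_one e) ((hmE' e).1 he).2
  let tight : Finset E → Prop := fun Z => (q Z : ℚ) = ∑ e ∈ Z, y e
  have ht0 : tight ∅ := by
    change (q ∅ : ℚ) = ∑ e ∈ (∅ : Finset E), y e
    rw [hq0]; simp
  have hmod : ∀ Y Z : Finset E, ∑ e ∈ Y ∩ Z, y e + ∑ e ∈ Y ∪ Z, y e =
      ∑ e ∈ Y, y e + ∑ e ∈ Z, y e := by
    intro Y Z
    rw [add_comm, sum_union_inter]
  have htiu : ∀ Y Z, tight Y → tight Z → tight (Y ∩ Z) ∧ tight (Y ∪ Z) := by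
    intro Y Z hY hZ
    have h1 : ((q Y + q Z : ℤ) : ℚ) ≤ ((q (Y ∩ Z) + q (Y ∪ Z) : ℤ) : ℚ) := by
      exact_mod_cast hsup Y Z
    push_cast at h1
    have h2 := hmod Y Z
    have h3 := hy.cov (Y ∩ Z)
    have h4 := hy.cov (Y ∪ Z)
    change (q Y : ℚ) = _ at hY
    change (q Z : ℚ) = _ at hZ
    constructor
    · change (q (Y ∩ Z) : ℚ) = _
      linarith
    · change (q (Y ∪ Z) : ℚ) = _
      linarith
  let cv : E → Prop := fun e => ∃ Z, tight Z ∧ e ∈ Z
  have hZm : ∀ e, cv e → ∃ K, tight K ∧ e ∈ K ∧ ∀ Z, tight Z → e ∈ Z → K ⊆ Z := by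
    rintro e ⟨Z0, hZ0, heZ0⟩
    obtain ⟨K, hK, hmin⟩ := exists_min_image (univ.filter fun Z => tight Z ∧ e ∈ Z)
      (fun Z => Z.card) ⟨Z0, by rw [mem_filter]; exact ⟨mem_univ _, hZ0, heZ0⟩⟩
    rw [mem_filter] at hK
    refine ⟨K, hK.2.1, hK.2.2, ?_⟩
    intro Z hZ heZ
    have h1 := hmin (K ∩ Z) (by
      rw [mem_filter]
      exact ⟨mem_univ _, (htiu K Z hK.2.1 hZ).1, mem_inter.2 ⟨hK.2.2, heZ⟩⟩)
    have h2 : K ∩ Z = K := eq_of_subset_of_card_le inter_subset_left h1
    rw [← h2]
    exact inter_subset_right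
  choose! Zm hZm1 hZm2 hZm3 using hZm
  have hbU : ∀ s : Finset E, (∀ f ∈ s, tight (Zm f)) → tight (s.biUnion Zm) := by
    intro s
    induction s using Finset.induction_on with
    | empty => intro _; rw [biUnion_empty]; exact ht0
    | insert a s _ ih =>
      intro h
      rw [biUnion_insert]
      exact (htiu _ _ (h a (mem_insert_self _ _)) (ih fun f hf => h f (mem_insert_of_mem hf))).2
  set Ecov : Finset E := E'.filter cv with hEcov
  set Cl : Finset (Finset E) := Ecov.image Zm with hCl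
  have hClt : ∀ K ∈ Cl, tight K := by
    intro K hK
    obtain ⟨e, he, rfl⟩ := mem_image.1 hK
    exact hZm1 e (mem_filter.1 he).2
  have hclsone : ∀ K ∈ Cl, (1 : ℚ) ≤ ∑ e ∈ Ecov.filter (fun f => Zm f = K), y e := by
    intro K hK
    have hKt := hClt K hK
    have hcK : ∀ f ∈ K, cv f := fun f hf => ⟨K, hKt, hf⟩
    set U : Finset E := (K.filter fun f => Zm f ≠ K).biUnion Zm with hU
    have hUt : tight U := hbU _ (fun f hf => hZm1 f (hcK f (mem_filter.1 hf).1))
    have hUK : U ⊆ K := by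
      rw [hU, biUnion_subset]
      intro f hf
      rw [mem_filter] at hf
      exact hZm3 f (hcK f hf.1) K hKt hf.1
    have hdiff : K \ U = K.filter fun f => Zm f = K := by
      ext f
      rw [mem_sdiff, mem_filter]
      constructor
      · rintro ⟨hf, hfU⟩
        refine ⟨hf, ?_⟩
        by_contra hne
        exact hfU (mem_biUnion.2 ⟨f, mem_filter.2 ⟨hf, hne⟩, hZm2 f (hcK f hf)⟩)
      · rintro ⟨hf, hfK⟩
        refine ⟨hf, fun hfU => ?_⟩
        obtain ⟨f', hf', hff'⟩ := mem_biUnion.1 hfU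
        rw [mem_filter] at hf'
        have h1 : Zm f ⊆ Zm f' := hZm3 f (hcK f hf) _ (hZm1 f' (hcK f' hf'.1)) hff'
        have h2 : Zm f' ⊆ K := hZm3 f' (hcK f' hf'.1) K hKt hf'.1
        rw [hfK] at h1
        exact hf'.2 (Subset.antisymm h2 h1)
    have h1 : ∑ e ∈ K \ U, y e = (q K : ℚ) - q U := by
      have h2 := sum_sdiff (f := y) hUK
      change (q K : ℚ) = _ at hKt
      change (q U : ℚ) = _ at hUt
      linarith
    have h2 : ∑ e ∈ K \ U, y e = ∑ e ∈ (K \ U).filter (fun e => e ∈ E'), y e +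
        ∑ e ∈ (K \ U).filter (fun e => e ∉ E'), y e :=
      (sum_filter_add_sum_filter_not _ _ _).symm
    have h3 : ∑ e ∈ (K \ U).filter (fun e => e ∉ E'), y e =
        (((K \ U).filter (fun e => e ∉ E')).filter fun e => y e = 1).card := by
      rw [card_filter, Nat.cast_sum]
      apply sum_congr rfl
      intro e he
      rw [mem_filter, hmE'] at he
      by_cases h : y e = 1
      · simp [h]
      · have h0 : y e = 0 := by
          by_contra h'
          exact he.2 ⟨h', h⟩
        simp [h0]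
    have h4 : (K \ U).filter (fun e => e ∈ E') = Ecov.filter (fun f => Zm f = K) := by
      rw [hdiff]
      ext f
      simp only [mem_filter, hEcov]
      constructor
      · rintro ⟨⟨h1, h2⟩, h3⟩; exact ⟨⟨h3, hcK f h1⟩, h2⟩
      · rintro ⟨⟨h3, h4⟩, h2⟩
        refine ⟨⟨?_, h2⟩, h3⟩
        rw [← h2]; exact hZm2 f h4
    rw [h4] at h2
    set N : ℕ := (((K \ U).filter (fun e => e ∉ E')).filter fun e => y e = 1).card with hN
    have h5 : ∑ e ∈ Ecov.filter (fun f => Zm f = K), y e = ((q K - q U - N : ℤ) : ℚ) := by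
      push_cast
      linarith
    have h6 : 0 < ∑ e ∈ Ecov.filter (fun f => Zm f = K), y e := by
      apply sum_pos
      · intro e he
        exact hpos e (mem_filter.1 (mem_filter.1 he).1).1
      · obtain ⟨e, he, heK⟩ := mem_image.1 hK
        exact ⟨e, mem_filter.2 ⟨he, heK⟩⟩
    rw [h5] at h6 ⊢
    have h7 : (0 : ℤ) < q K - q U - N := by exact_mod_cast h6
    have h8 : (1 : ℤ) ≤ q K - q U - N := h7
    exact_mod_cast h8
  have hl : (Cl.card : ℚ) ≤ ∑ e ∈ E', y e := by
    have h1 : (Cl.card : ℚ) ≤ ∑ K ∈ Cl, ∑ e ∈ Ecov.filter (fun f => Zm f = K), y e := by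
      rw [← nsmul_one]
      exact card_nsmul_le_sum _ _ _ hclsone
    have h2 : ∑ K ∈ Cl, ∑ e ∈ Ecov.filter (fun f => Zm f = K), y e = ∑ e ∈ Ecov, y e :=
      sum_fiberwise_of_maps_to (fun e he => mem_image_of_mem _ he) _
    rw [h2] at h1
    refine h1.trans ?_
    exact sum_le_sum_of_subset_of_nonneg (filter_subset _ _) (fun e _ _ => hy.nonneg e)
  set Act : Finset V := univ.filter fun v => g v + k ≤ ((inc v).filter fun e => y e ≠ 0).card
    with hAct
  have hactive : ∀ v ∈ Act, (k : ℚ) < ∑ e ∈ E', if e ∈ inc v then (1 - y e) else 0 := by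
    intro v hv
    rw [hAct, mem_filter] at hv
    have h1 : ∑ e ∈ inc v, y e < g v := by
      rcases hy.deg v with h | h
      · exact h
      · omega
    have h2 : ∑ e ∈ E', (if e ∈ inc v then (1 - y e) else 0) =
        ∑ e ∈ (inc v).filter (fun e => y e ≠ 0), (1 - y e) := by
      rw [← sum_filter]
      apply sum_subset_zero_on_sdiff
      · intro e he
        rw [mem_filter, hmE'] at he
        exact mem_filter.2 ⟨he.2, he.1.1⟩
      · intro e he
        rw [mem_sdiff, mem_filter, mem_filter, hmE'] at he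
        have h3 : y e = 1 := by
          by_contra h
          exact he.2 ⟨⟨he.1.2, h⟩, he.1.1⟩
        rw [h3]; simp
      · intro e _; rfl
    rw [h2, sum_sub_distrib, sum_const, nsmul_one]
    have h3 : ∑ e ∈ (inc v).filter (fun e => y e ≠ 0), y e = ∑ e ∈ inc v, y e := by
      rw [sum_filter]
      apply sum_congr rfl
      intro e _
      by_cases h : y e = 0
      · simp [h]
      · simp [h]
    rw [h3]
    have h4 : ((g v + k : ℕ) : ℚ) ≤ (((inc v).filter fun e => y e ≠ 0).card : ℚ) := by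
      exact_mod_cast hv.2
    push_cast at h4
    linarith
  have hdouble : ∑ v ∈ Act, ∑ e ∈ E', (if e ∈ inc v then (1 - y e) else 0) ≤
      (k : ℚ) * ∑ e ∈ E', (1 - y e) := by
    rw [sum_comm, mul_sum]
    apply sum_le_sum
    intro e he
    rw [← sum_filter, sum_const, nsmul_eq_mul]
    apply mul_le_mul_of_nonneg_right
    · have h1 : (Act.filter fun v => e ∈ inc v).card ≤ k :=
        (card_le_card (filter_subset_filter _ (subset_univ _))).trans (hk e)
      exact_mod_cast h1
    · linarith [hlt1 e he]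
  have hsumE : ∑ e ∈ E', y e + ∑ e ∈ E', (1 - y e) = E'.card := by
    rw [← sum_add_distrib]
    simp
  have hcount : Cl.card + Act.card < E'.card := by
    have h1 : ((Cl.card + Act.card : ℕ) : ℚ) < (E'.card : ℚ) := by
      push_cast
      rcases Act.eq_empty_or_nonempty with hA | hA
      · rw [hA]
        simp only [card_empty, Nat.cast_zero, add_zero]
        have h2 : 0 < ∑ e ∈ E', (1 - y e) := by
          apply sum_pos
          · intro e he; linarith [hlt1 e he]
          · obtain ⟨e, he⟩ := hfrac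
            exact ⟨e, (hmE' e).2 he⟩
        linarith
      · have h2 : (Act.card : ℚ) * k < ∑ v ∈ Act, ∑ e ∈ E', (if e ∈ inc v then (1 - y e) else 0) := by
          have h3 : ∑ _v ∈ Act, (k : ℚ) < ∑ v ∈ Act, ∑ e ∈ E', (if e ∈ inc v then (1 - y e) else 0) :=
            sum_lt_sum_of_nonempty hA hactive
          rwa [sum_const, nsmul_eq_mul] at h3
        have h4 : (Act.card : ℚ) * k < k * ∑ e ∈ E', (1 - y e) := lt_of_lt_of_le h2 hdouble
        rcases Nat.eq_zero_or_pos k with hk0 | hk0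
        · rw [hk0] at h4; simp at h4
        · have hk1 : (0 : ℚ) < k := by exact_mod_cast hk0
          have h5 : (Act.card : ℚ) < ∑ e ∈ E', (1 - y e) := by
            rw [mul_comm] at h4
            exact lt_of_mul_lt_mul_left h4 hk1.le
          linarith
    exact_mod_cast h1
  -- the linear map
  let ι2 : Type := {K // K ∈ Cl} ⊕ ({v // v ∈ Act} ⊕ {e // e ∉ E'})
  let Φ : (E → ℚ) →ₗ[ℚ] (ι2 → ℚ) :=
    { toFun := fun z i => match i with
        | Sum.inl K => ∑ e ∈ Ecov.filter (fun f => Zm f = K.1), z e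
        | Sum.inr (Sum.inl v) => ∑ e ∈ inc v.1, z e
        | Sum.inr (Sum.inr e) => z e.1
      map_add' := by
        intro z w
        funext i
        rcases i with K | v | e
        · simp [sum_add_distrib]
        · simp [sum_add_distrib]
        · simp
      map_smul' := by
        intro c z
        funext i
        rcases i with K | v | e
        · simp [mul_sum]
        · simp [mul_sum]
        · simp }
  have hker : LinearMap.ker Φ ≠ ⊥ := by
    apply LinearMap.ker_ne_bot_of_finrank_lt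
    rw [Module.finrank_fintype_fun_eq_card, Module.finrank_fintype_fun_eq_card]
    have h1 : Fintype.card ι2 = Cl.card + (Act.card + (Fintype.card E - E'.card)) := by
      change Fintype.card ({K // K ∈ Cl} ⊕ ({v // v ∈ Act} ⊕ {e // e ∉ E'})) = _
      rw [Fintype.card_sum, Fintype.card_sum, Fintype.card_coe, Fintype.card_coe,
        Fintype.card_subtype_compl, Fintype.card_coe]
    rw [h1]
    have h2 : E'.card ≤ Fintype.card E := card_le_univ _
    omega
  obtain ⟨z, hz, hz0⟩ := Submodule.exists_mem_ne_zero_of_ne_bot hker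
  have hzi : ∀ i, Φ z i = 0 := fun i => by rw [LinearMap.mem_ker.1 hz]; rfl
  have hz1 : ∀ K ∈ Cl, ∑ e ∈ Ecov.filter (fun f => Zm f = K), z e = 0 := fun K hK =>
    hzi (Sum.inl ⟨K, hK⟩)
  have hz2 : ∀ v ∈ Act, ∑ e ∈ inc v, z e = 0 := fun v hv => hzi (Sum.inr (Sum.inl ⟨v, hv⟩))
  have hz3 : ∀ e, e ∉ E' → z e = 0 := fun e he => hzi (Sum.inr (Sum.inr ⟨e, he⟩))
  refine ⟨z, hz0, ?_, ?_, ?_⟩
  · intro e he
    apply hz3
    rw [hmE']
    rintro ⟨h1, h2⟩
    rcases he with h | h
    · exact h1 h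
    · exact h2 h
  · intro Z hZ
    have h1 : ∑ e ∈ Z, z e = ∑ e ∈ Z.filter (fun e => e ∈ E'), z e := by
      rw [sum_filter]
      apply sum_congr rfl
      intro e _
      by_cases h : e ∈ E'
      · simp [h]
      · simp [h, hz3 e h]
    rw [h1, ← sum_fiberwise_of_maps_to (t := Cl.filter fun K => K ⊆ Z) (g := Zm)]
    · apply sum_eq_zero
      intro K hK
      rw [mem_filter] at hK
      rw [← hz1 K hK.1]
      apply sum_congr _ (fun _ _ => rfl)
      ext f
      simp only [mem_filter, hEcov]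
      constructor
      · rintro ⟨⟨h1, h2⟩, h3⟩; exact ⟨⟨h2, Z, hZ, h1⟩, h3⟩
      · rintro ⟨⟨h1, h2⟩, h3⟩
        refine ⟨⟨hK.2 ?_, h1⟩, h3⟩
        rw [← h3]; exact hZm2 f h2
    · intro f hf
      rw [mem_filter] at hf ⊢
      have hcf : cv f := ⟨Z, hZ, hf.1⟩
      exact ⟨mem_image_of_mem _ (mem_filter.2 ⟨hf.2, hcf⟩), hZm3 f hcf Z hZ hf.1⟩
  · intro v hv
    exact hz2 v (by rw [hAct, mem_filter]; exact ⟨mem_univ _, hv⟩)

open Classical in
/-- number of slacks which are zero -/
noncomputable def zs (q : Finset E → ℤ) (y : E → ℚ) : ℕ :=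
  (univ.filter fun c : E ⊕ (E ⊕ Finset E) => slack q y c = 0).card

lemma zs_le (q : Finset E → ℤ) (y : E → ℚ) : zs q y ≤ Fintype.card (E ⊕ (E ⊕ Finset E)) :=
  card_le_univ _

lemma step (hq0 : q ∅ = 0)
    (hsup : ∀ Y Z, q Y + q Z ≤ q (Y ∩ Z) + q (Y ∪ Z))
    (hk : ∀ e, (univ.filter fun v => e ∈ inc v).card ≤ k) (hy : Feas q inc k g y)
    (hfrac : ∃ e, y e ≠ 0 ∧ y e ≠ 1) :
    ∃ y', Feas q inc k g y' ∧ (∀ e, y e = 0 → y' e = 0) ∧ zs q y < zs q y' := by
  classical
  obtain ⟨z, hz0, hz1, hz2, hz3⟩ := direction hq0 hsup hk hy hfrac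
  obtain ⟨t, ht1, c0, hc0, hc1⟩ := move (slack q y) (rate z)
    (by
      rintro (e | e | Z)
      · exact hy.nonneg e
      · exact sub_nonneg.2 (hy.le_one e)
      · exact sub_nonneg.2 (hy.cov Z))
    (by
      rintro (e | e | Z) h
      · exact hz1 e (Or.inl h)
      · change 1 - y e = 0 at h
        have : z e = 0 := hz1 e (Or.inr (by linarith))
        change - z e = 0
        rw [this, neg_zero]
      · change ∑ e ∈ Z, y e - q Z = 0 at h
        exact hz2 Z (by linarith))
    (by
      have : ∃ e, z e ≠ 0 := by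
        by_contra hcon
        push Not at hcon
        exact hz0 (funext hcon)
      obtain ⟨e, he⟩ := this
      rcases lt_or_gt_of_ne he with h | h
      · exact ⟨Sum.inl e, h⟩
      · exact ⟨Sum.inr (Sum.inl e), by change - z e < 0; linarith⟩)
  have hsl : ∀ c, slack q (fun e => y e + t * z e) c = slack q y c + t * rate z c := by
    rintro (e | e | Z)
    · rfl
    · change 1 - (y e + t * z e) = (1 - y e) + t * (- z e)
      ring
    · change ∑ e ∈ Z, (y e + t * z e) - q Z = (∑ e ∈ Z, y e - q Z) + t * ∑ e ∈ Z, z e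
      rw [sum_add_distrib, mul_sum]
      ring
  refine ⟨fun e => y e + t * z e, ?_, ?_, ?_⟩
  · constructor
    · intro e
      have := ht1 (Sum.inl e)
      rw [← hsl] at this
      exact this
    · intro e
      have := ht1 (Sum.inr (Sum.inl e))
      rw [← hsl] at this
      exact sub_nonneg.1 this
    · intro Z
      have := ht1 (Sum.inr (Sum.inr Z))
      rw [← hsl] at this
      exact sub_nonneg.1 this
    · intro v
      by_cases hv : g v + k ≤ ((inc v).filter fun e => y e ≠ 0).card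
      · left
        rw [sum_add_distrib, ← mul_sum, hz3 v hv, mul_zero, add_zero]
        rcases hy.deg v with h | h
        · exact h
        · omega
      · right
        refine lt_of_le_of_lt (card_le_card ?_) (not_le.1 hv)
        intro e he
        rw [mem_filter] at he ⊢
        refine ⟨he.1, fun h => he.2 ?_⟩
        rw [h, hz1 e (Or.inl h)]; ring
  · intro e he
    change y e + t * z e = 0
    rw [he, hz1 e (Or.inl he)]; ring
  · unfold zs
    apply card_lt_card
    constructor
    · intro c hc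
      rw [mem_filter] at hc ⊢
      refine ⟨mem_univ _, ?_⟩
      rw [hsl, hc.2, zero_add]
      have : rate z c = 0 := by
        rcases c with e | e | Z
        · exact hz1 e (Or.inl hc.2)
        · have h := hc.2
          change 1 - y e = 0 at h
          have : z e = 0 := hz1 e (Or.inr (by linarith))
          change - z e = 0
          rw [this, neg_zero]
        · have h := hc.2
          change ∑ e ∈ Z, y e - q Z = 0 at h
          exact hz2 Z (by linarith)
      rw [this, mul_zero]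
    · intro h
      have h1 : c0 ∈ univ.filter fun c : E ⊕ (E ⊕ Finset E) =>
          slack q (fun e => y e + t * z e) c = 0 := by
        rw [mem_filter]
        exact ⟨mem_univ _, by rw [hsl]; exact hc1⟩
      have h2 := h h1
      rw [mem_filter] at h2
      exact hc0 h2.2

end step

/-- **Iterative relaxation.** -/
theorem relax {E V : Type} [Fintype E] [DecidableEq E] [Fintype V] [DecidableEq V]
    (q : Finset E → ℤ) (hq0 : q ∅ = 0)
    (hsup : ∀ Y Z, q Y + q Z ≤ q (Y ∩ Z) + q (Y ∪ Z)) (inc : V → Finset E) (k : ℕ)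
    (hk : ∀ e, (univ.filter fun v => e ∈ inc v).card ≤ k) (g : V → ℕ) (y : E → ℚ)
    (h0 : ∀ e, 0 ≤ y e) (h1 : ∀ e, y e ≤ 1) (hZ : ∀ Z, (q Z : ℚ) ≤ ∑ e ∈ Z, y e)
    (hv : ∀ v, ∑ e ∈ inc v, y e < g v) :
    ∃ J : Finset E, (∀ e ∈ J, y e ≠ 0) ∧ (∀ Z, q Z ≤ (J ∩ Z).card) ∧
      ∀ v, (J ∩ inc v).card < g v + k := by
  classical
  have key : ∀ n : ℕ, ∀ y' : E → ℚ, Feas q inc k g y' → (∀ e, y e = 0 → y' e = 0) →
      Fintype.card (E ⊕ (E ⊕ Finset E)) - zs q y' ≤ n →
      ∃ y'', Feas q inc k g y'' ∧ (∀ e, y e = 0 → y'' e = 0) ∧ ∀ e, y'' e = 0 ∨ y'' e = 1 := by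
    intro n
    induction n with
    | zero =>
      intro y' hy' hs hn
      by_cases hfrac : ∃ e, y' e ≠ 0 ∧ y' e ≠ 1
      · obtain ⟨y'', _, _, hlt⟩ := step hq0 hsup hk hy' hfrac
        have := zs_le q y''
        omega
      · push Not at hfrac
        exact ⟨y', hy', hs, fun e => by
          by_cases h : y' e = 0
          · exact Or.inl h
          · exact Or.inr (hfrac e h)⟩
    | succ n ih =>
      intro y' hy' hs hn
      by_cases hfrac : ∃ e, y' e ≠ 0 ∧ y' e ≠ 1
      · obtain ⟨y'', hy'', hs'', hlt⟩ := step hq0 hsup hk hy' hfrac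
        have := zs_le q y''
        exact ih y'' hy'' (fun e he => hs'' e (hs e he)) (by omega)
      · push Not at hfrac
        exact ⟨y', hy', hs, fun e => by
          by_cases h : y' e = 0
          · exact Or.inl h
          · exact Or.inr (hfrac e h)⟩
  obtain ⟨y', hy', hs, hint⟩ := key _ y ⟨h0, h1, hZ, fun v => Or.inl (hv v)⟩ (fun e h => h) le_rfl
  have hcard : ∀ Z : Finset E, ∑ e ∈ Z, y' e = (((univ.filter fun e => y' e = 1) ∩ Z).card : ℚ) := by
    intro Z
    have e1 : (univ.filter fun e => y' e = 1) ∩ Z = Z.filter fun e => y' e = 1 := by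
      ext e; simp [and_comm]
    rw [e1, card_filter, Nat.cast_sum]
    apply sum_congr rfl
    intro e _
    rcases hint e with h | h <;> simp [h]
  refine ⟨univ.filter fun e => y' e = 1, ?_, ?_, ?_⟩
  · intro e he h
    rw [mem_filter] at he
    have := hs e h
    rw [he.2] at this
    exact one_ne_zero this
  · intro Z
    have h2 := hy'.cov Z
    rw [hcard] at h2
    exact_mod_cast h2
  · intro v
    rcases hy'.deg v with h | h
    · rw [hcard] at h
      have : ((univ.filter fun e => y' e = 1) ∩ inc v).card < g v := by exact_mod_cast h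
      omega
    · refine lt_of_le_of_lt (card_le_card ?_) h
      intro e he
      rw [mem_inter, mem_filter] at he
      rw [mem_filter]
      refine ⟨he.2, ?_⟩
      rw [he.1.2]; exact one_ne_zero

end Pool.Agent.U402.HC
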