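import Pool.Agent.U402.HC.CutB
import Pool.Agent.U402.HC.Relax
import Pool.Agent.U402.HC.Indep

set_option autoImplicit false
set_option linter.unusedSectionVars false

/-!
The arcs `(g, s)` of a coset graph, as vectors over the field with two elements.
-/

namespace Pool.Agent.U402.HC

open Finset
open Pool.Agent.Helper879.ECD (sp sp_mono mem_sp Ind)
open Pool.Agent.H825R2.EW (packM)

/-- a packing inside a given set -/
theorem pack_in {F U E : Type} [Field F] [AddCommGroup U] [Module F U] [DecidableEq E] [Fintype E]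
    [FiniteDimensional F U] (x : E → U) (J : Finset E) (m : ℕ) (hm : 0 < m)
    (hJ : ∀ Z : Finset E, (m : ℤ) * ((Module.finrank F (sp F x univ) : ℤ) -
      Module.finrank F (sp F x (univ \ Z))) ≤ ((J ∩ Z).card : ℤ)) :
    ∃ I : Fin m → Finset E, (∀ i j, i ≠ j → Disjoint (I i) (I j)) ∧
      (∀ i, sp F x (I i) = sp F x univ) ∧ ∀ i, I i ⊆ J := by
  classical
  let E' : Type := {e : E // e ∈ J}
  let x' : E' → U := fun e => x e.1
  have himg : ∀ R : Finset E', sp F x' R = sp F x (R.map (Function.Embedding.subtype _)) := by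
    intro R
    unfold sp
    congr 1
    ext u
    simp only [Set.mem_image, mem_coe, mem_map, Function.Embedding.coe_subtype]
    constructor
    · rintro ⟨e, he, rfl⟩; exact ⟨e.1, ⟨e, he, rfl⟩, rfl⟩
    · rintro ⟨_, ⟨e, he, rfl⟩, rfl⟩; exact ⟨e, he, rfl⟩
  have huniv : (univ : Finset E').map (Function.Embedding.subtype _) = J := by
    ext e
    rw [mem_map]
    constructor
    · rintro ⟨e', -, rfl⟩; exact e'.2
    · intro he; exact ⟨⟨e, he⟩, mem_univ _, rfl⟩
  have hfull : sp F x J = sp F x univ := by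
    apply Submodule.eq_of_le_of_finrank_le (sp_mono (subset_univ _))
    have h1 := hJ (univ \ J)
    have h2 : J ∩ (univ \ J) = ∅ := by
      ext e; simp
    have h3 : univ \ (univ \ J) = J := by
      ext e; simp
    rw [h2, h3, card_empty] at h1
    have h4 : (0 : ℤ) < m := by exact_mod_cast hm
    by_contra hcon
    push Not at hcon
    have h5 : (0 : ℤ) < (Module.finrank F (sp F x univ) : ℤ) - Module.finrank F (sp F x J) := by
      omega
    have := mul_pos h4 h5
    push_cast at h1
    omega
  obtain ⟨I, hI1, hI2⟩ := packM (K := Fin m) (x := fun _ => x') (by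
    intro R
    simp only [sum_const, card_univ, Fintype.card_fin, smul_eq_mul]
    set R0 : Finset E := R.map (Function.Embedding.subtype _) with hR0
    have h1 := hJ (univ \ R0)
    have h3 : univ \ (univ \ R0) = R0 := by
      ext e; simp
    rw [h3] at h1
    have h2 : (J ∩ (univ \ R0)).card ≤ (univ \ R).card := by
      have h4 : J ∩ (univ \ R0) ⊆ (univ \ R).map (Function.Embedding.subtype _) := by
        intro e he
        rw [mem_inter, mem_sdiff] at he
        refine mem_map.2 ⟨⟨e, he.1⟩, ?_, rfl⟩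
        rw [mem_sdiff]
        refine ⟨mem_univ _, fun h => he.2.2 ?_⟩
        rw [hR0]; exact mem_map.2 ⟨_, h, rfl⟩
      have h5 := card_le_card h4
      rwa [card_map] at h5
    rw [himg, himg, huniv, hfull, ← hR0]
    have h4 : (m : ℤ) * (Module.finrank F (sp F x univ) : ℤ) ≤
        m * (Module.finrank F (sp F x R0) : ℤ) + ((univ \ R).card : ℤ) := by
      have h6 : ((J ∩ (univ \ R0)).card : ℤ) ≤ ((univ \ R).card : ℤ) := by exact_mod_cast h2
      have h7 : (m : ℤ) * ((Module.finrank F (sp F x univ) : ℤ) -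
        Module.finrank F (sp F x R0)) = m * (Module.finrank F (sp F x univ) : ℤ) -
        m * (Module.finrank F (sp F x R0) : ℤ) := by ring
      linarith
    exact_mod_cast h4)
  refine ⟨fun i => (I i).map (Function.Embedding.subtype _), ?_, ?_, ?_⟩
  · intro i j hij
    exact (disjoint_map _).2 (hI1 i j hij)
  · intro i
    rw [← himg, hI2 i, himg, huniv, hfull]
  · intro i e he
    obtain ⟨e', -, rfl⟩ := mem_map.1 he
    exact e'.2

/-- the demand function -/
noncomputable def dem (F : Type) {U E : Type} [Field F] [AddCommGroup U] [Module F U]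
    [DecidableEq E] [Fintype E] (x : E → U) (m : ℕ) (Z : Finset E) : ℤ :=
  (m : ℤ) * ((Module.finrank F (sp F x univ) : ℤ) - Module.finrank F (sp F x (univ \ Z)))

section dem

variable {F U E : Type} [Field F] [AddCommGroup U] [Module F U] [DecidableEq E] [Fintype E]
  [FiniteDimensional F U]

lemma dem_empty (x : E → U) (m : ℕ) : dem F x m ∅ = 0 := by
  unfold dem
  rw [sdiff_empty, sub_self, mul_zero]

lemma finrank_submod (x : E → U) (A B : Finset E) :
    Module.finrank F (sp F x (A ∪ B)) + Module.finrank F (sp F x (A ∩ B)) ≤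
      Module.finrank F (sp F x A) + Module.finrank F (sp F x B) := by
  have h1 : sp F x (A ∪ B) = sp F x A ⊔ sp F x B := by
    unfold sp
    rw [← Submodule.span_union, ← Set.image_union, coe_union]
  have h2 : sp F x (A ∩ B) ≤ sp F x A ⊓ sp F x B :=
    le_inf (sp_mono inter_subset_left) (sp_mono inter_subset_right)
  have h3 := Submodule.finrank_mono h2
  have h4 := Submodule.finrank_sup_add_finrank_inf_eq (sp F x A) (sp F x B)
  rw [h1]
  omega

lemma dem_sup (x : E → U) (m : ℕ) (Y Z : Finset E) :
    dem F x m Y + dem F x m Z ≤ dem F x m (Y ∩ Z) + dem F x m (Y ∪ Z) := by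
  unfold dem
  have h1 := finrank_submod (F := F) x (univ \ Y) (univ \ Z)
  have e1 : (univ \ Y) ∪ (univ \ Z) = univ \ (Y ∩ Z) := by
    ext e; simp only [mem_union, mem_sdiff, mem_univ, true_and, mem_inter]; tauto
  have e2 : (univ \ Y) ∩ (univ \ Z) = univ \ (Y ∪ Z) := by
    ext e; simp only [mem_union, mem_sdiff, mem_univ, true_and, mem_inter]; tauto
  rw [e1, e2] at h1
  rw [← mul_add, ← mul_add]
  apply mul_le_mul_of_nonneg_left _ (Int.natCast_nonneg _)
  omega

end dem

section arcs

variable {G : Type} [Group G] [Fintype G] [DecidableEq G] (H : Subgroup G) (S : Finset G)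

/-- the arcs -/
abbrev Arc : Type := G × {s // s ∈ S}

/-- the head of an arc -/
def hd' (e : Arc S) : G := e.1 * e.2.1

/-- the unit vector of a coset -/
noncomputable def dl (u : G ⧸ H) : (G ⧸ H) → ZMod 2 := open Classical in Pi.single u 1

/-- the vector of an arc -/
noncomputable def vx (e : Arc S) : (G ⧸ H) → ZMod 2 := dl H (e.1 : G ⧸ H) + dl H ((hd' S e : G) : G ⧸ H)

variable {H} {S}

lemma dl_apply_self (u : G ⧸ H) : dl H u u = 1 := by
  classical
  unfold dl
  simp

lemma dl_apply_ne {u w : G ⧸ H} (h : w ≠ u) : dl H u w = 0 := by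
  classical
  unfold dl
  exact Pi.single_eq_of_ne h _

lemma dl_add_self (u : G ⧸ H) : dl H u + dl H u = 0 := by
  funext w
  exact CharTwo.add_self_eq_zero _

/-- The classes of cosets which are connected by `R`. -/
def cls (R : Finset (Arc S)) : Setoid (G ⧸ H) where
  r u w := dl H u + dl H w ∈ sp (ZMod 2) (vx H S) R
  iseqv := by
    refine ⟨fun u => ?_, fun {u w} h => ?_, fun {u v w} h1 h2 => ?_⟩
    · rw [dl_add_self]; exact Submodule.zero_mem _
    · rwa [add_comm]
    · have e : dl H u + dl H w = (dl H u + dl H v) + (dl H v + dl H w) := by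
        have := dl_add_self v
        calc dl H u + dl H w = dl H u + 0 + dl H w := by rw [add_zero]
          _ = dl H u + (dl H v + dl H v) + dl H w := by rw [this]
          _ = _ := by abel
      rw [e]
      exact Submodule.add_mem _ h1 h2

lemma sum_dl (f : (G ⧸ H) → ZMod 2) [Fintype (G ⧸ H)] : f = ∑ u, f u • dl H u := by
  classical
  funext w
  rw [Finset.sum_apply, Finset.sum_eq_single w]
  · rw [Pi.smul_apply, dl_apply_self]; simp
  · intro u _ hu
    rw [Pi.smul_apply, dl_apply_ne (Ne.symm hu), smul_zero]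
  · intro h; exact absurd (mem_univ _) h

lemma rank_classes (R : Finset (Arc S)) :
    Nat.card (G ⧸ H) ≤ Module.finrank (ZMod 2) (sp (ZMod 2) (vx H S) R) +
      Nat.card (Quotient (cls (H := H) R)) := by
  classical
  have : Fintype (G ⧸ H) := Fintype.ofFinite _
  have : Fintype (Quotient (cls (H := H) R)) := Fintype.ofFinite _
  set W : Submodule (ZMod 2) ((G ⧸ H) → ZMod 2) := Submodule.span (ZMod 2)
    (Set.range fun c : Quotient (cls (H := H) R) => dl H c.out) with hW
  have h1 : (⊤ : Submodule (ZMod 2) ((G ⧸ H) → ZMod 2)) ≤ sp (ZMod 2) (vx H S) R ⊔ W := by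
    intro f _
    rw [sum_dl f]
    apply Submodule.sum_mem
    intro u _
    apply Submodule.smul_mem
    have h2 : dl H u = (dl H u + dl H (Quotient.mk (cls (H := H) R) u).out) +
        dl H (Quotient.mk (cls (H := H) R) u).out := by
      rw [add_assoc, dl_add_self, add_zero]
    rw [h2]
    apply Submodule.add_mem_sup
    · exact (cls (H := H) R).symm (Quotient.exact (Quotient.out_eq (Quotient.mk (cls (H := H) R) u)))
    · exact Submodule.subset_span ⟨_, rfl⟩
  have h2 := Submodule.finrank_mono h1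
  have h3 := Submodule.finrank_add_le_finrank_add_finrank (sp (ZMod 2) (vx H S) R) W
  have h4 : Module.finrank (ZMod 2) W ≤ Fintype.card (Quotient (cls (H := H) R)) :=
    finrank_range_le_card _
  rw [finrank_top, Module.finrank_fintype_fun_eq_card] at h2
  rw [Nat.card_eq_fintype_card, Nat.card_eq_fintype_card]
  omega

lemma rank_univ : Module.finrank (ZMod 2) (sp (ZMod 2) (vx H S) univ) + 1 ≤ Nat.card (G ⧸ H) := by
  classical
  have : Fintype (G ⧸ H) := Fintype.ofFinite _
  have h1 : sp (ZMod 2) (vx H S) univ < ⊤ := by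
    rw [lt_top_iff_ne_top]
    intro h
    let φ : ((G ⧸ H) → ZMod 2) →ₗ[ZMod 2] ZMod 2 := ∑ u : G ⧸ H, LinearMap.proj u
    have hφ : ∀ f : (G ⧸ H) → ZMod 2, φ f = ∑ u, f u := by
      intro f
      simp [φ]
    have hdl : ∀ u : G ⧸ H, φ (dl H u) = 1 := by
      intro u
      rw [hφ, Finset.sum_eq_single u]
      · exact dl_apply_self u
      · intro w _ hw; exact dl_apply_ne hw
      · intro h; exact absurd (mem_univ _) h
    have h2 : sp (ZMod 2) (vx H S) univ ≤ LinearMap.ker φ := by
      unfold sp
      rw [Submodule.span_le]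
      rintro _ ⟨e, -, rfl⟩
      rw [SetLike.mem_coe, LinearMap.mem_ker]
      unfold vx
      rw [map_add, hdl, hdl]
      exact CharTwo.add_self_eq_zero _
    rw [h] at h2
    have h3 : dl H (1 : G) ∈ LinearMap.ker φ := h2 trivial
    rw [LinearMap.mem_ker, hdl] at h3
    exact one_ne_zero h3
  have h2 := Submodule.finrank_lt_finrank_of_lt h1
  rw [finrank_top, Module.finrank_fintype_fun_eq_card] at h2
  rw [Nat.card_eq_fintype_card]
  omega

variable (hgen : H ⊔ Subgroup.closure (S : Set G) = ⊤)
  (hirr : ∀ s ∈ S, s ∉ H ⊔ Subgroup.closure ((S.erase s : Finset G) : Set G))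

include hgen hirr in
/-- the arcs between different classes -/
lemma cross_card (R : Finset (Arc S)) (hp : 2 ≤ Nat.card (Quotient (cls (H := H) R))) :
    Nat.card H * S.card * Nat.card (Quotient (cls (H := H) R)) ≤ (univ \ R).card := by
  classical
  have : Fintype (Quotient (cls (H := H) R)) := Fintype.ofFinite _
  let c : G → Quotient (cls (H := H) R) := fun g => Quotient.mk _ (g : G ⧸ H)
  let U : Quotient (cls (H := H) R) → Finset G := fun q => univ.filter fun g => c g = q
  have hmU : ∀ q g, g ∈ U q ↔ c g = q := by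
    intro q g; simp only [U, mem_filter, mem_univ, true_and]
  have h1 : ∀ q, Nat.card H * S.card ≤ ∑ s ∈ S, fc s (U q) := by
    intro q
    apply cut_irr H S hgen hirr
    · intro u hu h hh
      rw [hmU] at hu ⊢
      rw [← hu]
      change Quotient.mk _ ((u * h : G) : G ⧸ H) = Quotient.mk _ (u : G ⧸ H)
      rw [QuotientGroup.mk_mul_of_mem u hh]
    · obtain ⟨v, rfl⟩ := Quotient.exists_rep q
      obtain ⟨g, rfl⟩ := QuotientGroup.mk_surjective v
      exact ⟨g, (hmU _ _).2 rfl⟩
    · intro h
      rw [Nat.card_eq_fintype_card] at hp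
      obtain ⟨q', hq'⟩ := Fintype.exists_ne_of_one_lt_card hp q
      obtain ⟨v, rfl⟩ := Quotient.exists_rep q'
      obtain ⟨g, rfl⟩ := QuotientGroup.mk_surjective v
      have : g ∈ U q := by rw [h]; exact mem_univ _
      rw [hmU] at this
      exact hq' this
  have h2 : ∑ q, ∑ s ∈ S, fc s (U q) = (univ.filter fun e : Arc S => c e.1 ≠ c (hd' S e)).card := by
    rw [card_filter, Fintype.sum_prod_type_right, sum_comm]
    rw [← sum_coe_sort S]
    apply sum_congr rfl
    intro s _
    simp only [fc_eq_sum]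
    rw [sum_comm]
    apply sum_congr rfl
    intro g _
    rw [Finset.sum_eq_single (c g)]
    · simp only [hmU, hd', true_and]
      by_cases h : c g = c (g * s.1)
      · simp [h]
      · simp [h, Ne.symm h]
    · intro q _ hq
      rw [if_neg]
      rw [hmU, hmU]
      rintro ⟨h, -⟩
      exact hq h.symm
    · intro h; exact absurd (mem_univ _) h
  have h3 : (univ.filter fun e : Arc S => c e.1 ≠ c (hd' S e)) ⊆ univ \ R := by
    intro e he
    rw [mem_filter] at he
    rw [mem_sdiff]
    refine ⟨mem_univ _, fun h => he.2 ?_⟩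
    exact Quotient.sound (show dl H (e.1 : G ⧸ H) + dl H ((hd' S e : G) : G ⧸ H) ∈
      sp (ZMod 2) (vx H S) R from mem_sp h)
  have h4 := card_le_card h3
  rw [← h2] at h4
  refine le_trans ?_ h4
  rw [Nat.card_eq_fintype_card (α := Quotient (cls (H := H) R)), mul_comm, ← smul_eq_mul,
    ← card_univ]
  exact card_nsmul_le_sum _ _ _ (fun q _ => h1 q)

include hgen hirr in
lemma dl_mem (hS : 0 < S.card) (u w : G ⧸ H) :
    dl H u + dl H w ∈ sp (ZMod 2) (vx H S) univ := by
  classical
  have h1 : ¬ 2 ≤ Nat.card (Quotient (cls (H := H) (univ : Finset (Arc S)))) := by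
    intro h
    have h2 := cross_card hgen hirr univ h
    rw [sdiff_self, bot_eq_empty, card_empty] at h2
    have h3 : 0 < Nat.card H := Nat.card_pos
    have h4 : 0 < Nat.card H * S.card * Nat.card (Quotient (cls (H := H) (univ : Finset (Arc S)))) :=
      Nat.mul_pos (Nat.mul_pos h3 hS) (by omega)
    omega
  have : Fintype (Quotient (cls (H := H) (univ : Finset (Arc S)))) := Fintype.ofFinite _
  rw [Nat.card_eq_fintype_card, not_le] at h1
  have h2 : Quotient.mk (cls (H := H) (univ : Finset (Arc S))) u = Quotient.mk _ w :=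
    Fintype.card_le_one_iff.1 (by omega) _ _
  exact Quotient.exact h2

include hgen hirr in
/-- **The density bound.** -/
lemma dens (R : Finset (Arc S)) :
    Nat.card (G ⧸ H) * (Nat.card H * S.card) * Module.finrank (ZMod 2) (sp (ZMod 2) (vx H S) univ) ≤
      Nat.card (G ⧸ H) * (Nat.card H * S.card) * Module.finrank (ZMod 2) (sp (ZMod 2) (vx H S) R) +
      (Nat.card (G ⧸ H) - 1) * (univ \ R).card := by
  classical
  have hA := rank_classes (H := H) R
  have hB := rank_univ (H := H) (S := S)
  set r1 := Module.finrank (ZMod 2) (sp (ZMod 2) (vx H S) univ)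
  set r2 := Module.finrank (ZMod 2) (sp (ZMod 2) (vx H S) R)
  set n := Nat.card (G ⧸ H) with hn
  set p := Nat.card (Quotient (cls (H := H) R)) with hp
  set M := Nat.card H * S.card with hM
  have hpn : p ≤ n := Nat.card_le_card_of_surjective _ (Quotient.mk_surjective (s := cls (H := H) R))
  rcases Nat.lt_or_ge p 2 with h | h
  · have h1 : r1 ≤ r2 := by omega
    have := Nat.mul_le_mul_left (n * M) h1
    omega
  · have hC := cross_card hgen hirr R h
    set K := (univ \ R).card
    have h1 : r1 ≤ r2 + (p - 1) := by omega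
    have h2 : n * (p - 1) ≤ (n - 1) * p := by
      obtain ⟨p', hp'⟩ : ∃ p', p = p' + 1 := ⟨p - 1, by omega⟩
      obtain ⟨n', hn'⟩ : ∃ n', n = n' + 1 := ⟨n - 1, by omega⟩
      rw [hn', hp', Nat.add_sub_cancel, Nat.add_sub_cancel]
      rw [hn', hp'] at hpn
      nlinarith
    have h3 : (n - 1) * (M * p) ≤ (n - 1) * K := Nat.mul_le_mul_left _ hC
    calc n * M * r1 ≤ n * M * (r2 + (p - 1)) := Nat.mul_le_mul_left _ h1
      _ = n * M * r2 + M * (n * (p - 1)) := by ring
      _ ≤ n * M * r2 + M * ((n - 1) * p) := by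
          apply Nat.add_le_add_left; exact Nat.mul_le_mul_left _ h2
      _ = n * M * r2 + (n - 1) * (M * p) := by ring
      _ ≤ _ := by apply Nat.add_le_add_left; exact h3

/-- the arcs at an element -/
def at1 (v : G) : Finset (Arc S) := univ.filter fun e => e.1 = v ∨ hd' S e = v

/-- the arcs at a coset -/
noncomputable def at2 (Q : G ⧸ H) : Finset (Arc S) :=
  @Finset.filter (Arc S) (fun e => (e.1 : G ⧸ H) = Q ∨ ((hd' S e : G) : G ⧸ H) = Q)
    (Classical.decPred _) univ

lemma mem_at1 (v : G) (e : Arc S) : e ∈ at1 v ↔ e.1 = v ∨ hd' S e = v := by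
  unfold at1; rw [mem_filter]; simp

lemma mem_at2 (Q : G ⧸ H) (e : Arc S) :
    e ∈ at2 Q ↔ (e.1 : G ⧸ H) = Q ∨ ((hd' S e : G) : G ⧸ H) = Q := by
  classical
  unfold at2
  simp only [mem_filter, mem_univ, true_and]

lemma card_at1 (v : G) : (at1 v : Finset (Arc S)).card ≤ 2 * S.card := by
  classical
  have h1 : (at1 v : Finset (Arc S)) ⊆ (S.attach.image fun s => ((v, s) : Arc S)) ∪
      (S.attach.image fun s => ((v * s.1⁻¹, s) : Arc S)) := by
    rintro ⟨g, s⟩ he
    rw [mem_at1] at he
    rw [mem_union, mem_image, mem_image]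
    rcases he with h | h
    · left; exact ⟨s, mem_attach _ _, by rw [← h]⟩
    · right
      refine ⟨s, mem_attach _ _, ?_⟩
      rw [← h]
      unfold hd'
      rw [mul_inv_cancel_right]
  refine (card_le_card h1).trans ((card_union_le _ _).trans ?_)
  have h2 : (S.attach.image fun s => ((v, s) : Arc S)).card ≤ S.card :=
    card_image_le.trans (by rw [card_attach])
  have h3 : (S.attach.image fun s => ((v * s.1⁻¹, s) : Arc S)).card ≤ S.card :=
    card_image_le.trans (by rw [card_attach])
  omega

lemma card_fiber (Q : G ⧸ H) [DecidableEq (G ⧸ H)] :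
    (univ.filter fun g : G => (g : G ⧸ H) = Q).card ≤ Nat.card H := by
  classical
  obtain ⟨a, rfl⟩ := QuotientGroup.mk_surjective Q
  have h1 : (univ.filter fun g : G => (g : G ⧸ H) = (a : G ⧸ H)) ⊆
      (univ : Finset H).image (fun h : H => a * (h : G)) := by
    intro g hg
    rw [mem_filter] at hg
    have h2 : a⁻¹ * g ∈ H := QuotientGroup.eq.1 hg.2.symm
    exact mem_image.2 ⟨⟨_, h2⟩, mem_univ _, by simp⟩
  refine (card_le_card h1).trans (card_image_le.trans ?_)
  rw [card_univ, Nat.card_eq_fintype_card]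

lemma card_at2 (Q : G ⧸ H) : (at2 Q : Finset (Arc S)).card ≤ 2 * (Nat.card H * S.card) := by
  classical
  have h1 : (at2 Q : Finset (Arc S)) ⊆
      (((univ.filter fun g : G => (g : G ⧸ H) = Q) ×ˢ (univ : Finset {s // s ∈ S}))) ∪
      (((univ.filter fun g : G => (g : G ⧸ H) = Q) ×ˢ (univ : Finset {s // s ∈ S})).image
        fun p => ((p.1 * p.2.1⁻¹, p.2) : Arc S)) := by
    rintro ⟨g, s⟩ he
    rw [mem_at2] at he
    rw [mem_union]
    rcases he with h | h
    · left
      rw [mem_product, mem_filter]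
      exact ⟨⟨mem_univ _, h⟩, mem_univ _⟩
    · right
      rw [mem_image]
      refine ⟨(g * s.1, s), ?_, ?_⟩
      · rw [mem_product, mem_filter]
        exact ⟨⟨mem_univ _, h⟩, mem_univ _⟩
      · simp only [mul_inv_cancel_right]
  have h0 : ((univ.filter fun g : G => (g : G ⧸ H) = Q) ×ˢ (univ : Finset {s // s ∈ S})).card ≤
      Nat.card H * S.card := by
    rw [card_product, card_univ, Fintype.card_coe]
    exact Nat.mul_le_mul_right _ (card_fiber Q)
  refine (card_le_card h1).trans ((card_union_le _ _).trans ?_)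
  have h2 := card_image_le (s := ((univ.filter fun g : G => (g : G ⧸ H) = Q) ×ˢ
    (univ : Finset {s // s ∈ S}))) (f := fun p => ((p.1 * p.2.1⁻¹, p.2) : Arc S))
  omega

include hgen hirr in
/-- the fractional vector covers the demands -/
lemma frac_cover (hS : 0 < S.card) (m : ℕ) (Z : Finset (Arc S)) :
    ((dem (ZMod 2) (vx H S) m Z : ℤ) : ℚ) ≤
      ∑ _e ∈ Z, ((m : ℚ) * (Nat.card (G ⧸ H) - 1) / (Nat.card (G ⧸ H) * (Nat.card H * S.card))) := by
  classical
  have h1 := dens hgen hirr (univ \ Z)
  have e1 : univ \ (univ \ Z) = Z := by ext e; simp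
  rw [e1] at h1
  unfold dem
  set r1 := Module.finrank (ZMod 2) (sp (ZMod 2) (vx H S) univ)
  set r2 := Module.finrank (ZMod 2) (sp (ZMod 2) (vx H S) (univ \ Z))
  set n := Nat.card (G ⧸ H) with hn
  have hn0 : 0 < n := Nat.card_pos
  have hH0 : 0 < Nat.card H := Nat.card_pos
  have hM0 : 0 < Nat.card H * S.card := Nat.mul_pos hH0 hS
  rw [sum_const, nsmul_eq_mul]
  have hM' : (0 : ℚ) < n * (Nat.card H * S.card) := by
    have : (0 : ℚ) < ((n * (Nat.card H * S.card) : ℕ) : ℚ) := by
      exact_mod_cast Nat.mul_pos hn0 hM0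
    push_cast at this
    exact this
  rw [mul_div_assoc', le_div_iff₀ hM']
  have h2 : ((n * (Nat.card H * S.card) * r1 : ℕ) : ℚ) ≤
      ((n * (Nat.card H * S.card) * r2 + (n - 1) * Z.card : ℕ) : ℚ) := by exact_mod_cast h1
  push_cast [Nat.cast_sub (show 1 ≤ n from hn0)] at h2
  push_cast
  have hm0 : (0 : ℚ) ≤ m := by positivity
  have h3 := mul_le_mul_of_nonneg_left h2 hm0
  nlinarith

end arcs

end Pool.Agent.U402.HC
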