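import Mathlib

set_option autoImplicit false
set_option linter.unusedSectionVars false

/-!
Edge cuts in coset graphs: if `U` is a union of left cosets of `H` which is not closed under right
multiplication with `s`, then at least `|H|` elements `u` of `U` satisfy `u s ∉ U`.
-/

namespace Pool.Agent.U402.HC

open Finset

variable {G : Type} [Group G] [Fintype G] [DecidableEq G]

/-- the number of `u ∈ U` with `u s ∉ U` -/
def fc (s : G) (U : Finset G) : ℕ := (U.filter fun u => u * s ∉ U).card

/-- a union of left cosets of `H` -/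
def RInv (H : Subgroup G) (U : Finset G) : Prop := ∀ u ∈ U, ∀ h ∈ H, u * h ∈ U

lemma fc_eq_sum (s : G) (U : Finset G) :
    fc s U = ∑ u : G, if u ∈ U ∧ u * s ∉ U then 1 else 0 := by
  unfold fc
  rw [← card_filter]
  congr 1
  ext u
  simp

lemma fc_submod (s : G) (A B : Finset G) : fc s (A ∩ B) + fc s (A ∪ B) ≤ fc s A + fc s B := by
  rw [fc_eq_sum, fc_eq_sum, fc_eq_sum, fc_eq_sum, ← sum_add_distrib, ← sum_add_distrib]
  apply sum_le_sum
  intro u _
  simp only [mem_inter, mem_union]
  by_cases h1 : u ∈ A <;> by_cases h2 : u ∈ B <;> by_cases h3 : u * s ∈ A <;>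
    by_cases h4 : u * s ∈ B <;> simp [h1, h2, h3, h4]

lemma fc_zero_iff (s : G) (U : Finset G) : fc s U = 0 ↔ ∀ u ∈ U, u * s ∈ U := by
  unfold fc
  rw [card_eq_zero, filter_eq_empty_iff]
  simp

lemma back_of_fc_zero {s : G} {U : Finset G} (h : fc s U = 0) {u : G} (hu : u * s ∈ U) :
    u ∈ U := by
  rw [fc_zero_iff] at h
  have h1 : U.image (fun u => u * s) ⊆ U := by
    intro x hx
    obtain ⟨y, hy, rfl⟩ := mem_image.1 hx
    exact h y hy
  have h2 : U.image (fun u => u * s) = U :=
    eq_of_subset_of_card_le h1 (by rw [card_image_of_injective _ (mul_left_injective s)])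
  rw [← h2] at hu
  obtain ⟨y, hy, hyu⟩ := mem_image.1 hu
  have : y = u := mul_left_injective s hyu
  rwa [← this]

/-- left translate -/
def lt (g : G) (U : Finset G) : Finset G := U.image (fun u => g * u)

lemma mem_lt {g : G} {U : Finset G} {x : G} : x ∈ lt g U ↔ g⁻¹ * x ∈ U := by
  unfold lt
  rw [mem_image]
  constructor
  · rintro ⟨u, hu, rfl⟩
    rwa [inv_mul_cancel_left]
  · intro h
    exact ⟨_, h, mul_inv_cancel_left _ _⟩

lemma card_lt (g : G) (U : Finset G) : (lt g U).card = U.card :=
  card_image_of_injective _ (mul_right_injective g)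

lemma fc_lt (s g : G) (U : Finset G) : fc s (lt g U) = fc s U := by
  unfold fc
  have : (lt g U).filter (fun u => u * s ∉ lt g U) = lt g (U.filter fun u => u * s ∉ U) := by
    ext x
    rw [mem_filter, mem_lt, mem_lt, mem_lt, mem_filter, mul_assoc]
  rw [this, card_lt]

lemma RInv.lt {H : Subgroup G} {U : Finset G} (h : RInv H U) (g : G) :
    RInv H (Pool.Agent.U402.HC.lt g U) := by
  intro u hu k hk
  rw [mem_lt] at hu ⊢
  rw [← mul_assoc]
  exact h _ hu k hk

lemma RInv.sdiff {H : Subgroup G} {U W : Finset G} (hW : RInv H W) (hU : RInv H U) :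
    RInv H (W \ U) := by
  intro u hu k hk
  rw [mem_sdiff] at hu ⊢
  refine ⟨hW u hu.1 k hk, fun h => hu.2 ?_⟩
  have := hU _ h k⁻¹ (H.inv_mem hk)
  rwa [mul_inv_cancel_right] at this

lemma fc_sdiff_of_zero {s : G} {U I : Finset G} (hI : fc s I = 0) (hIU : I ⊆ U) :
    fc s (U \ I) = fc s U := by
  unfold fc
  congr 1
  ext u
  have h0 := (fc_zero_iff s I).1 hI
  simp only [mem_filter, mem_sdiff, not_and, not_not]
  constructor
  · rintro ⟨⟨hu, huI⟩, h⟩
    refine ⟨hu, fun hs => huI ?_⟩
    exact back_of_fc_zero hI (h hs)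
  · rintro ⟨hu, hs⟩
    refine ⟨⟨hu, fun hI' => hs (hIU (h0 u hI'))⟩, fun h => absurd h hs⟩

lemma fc_compl_in {s : G} {U W : Finset G} (hW : fc s W = 0) (hUW : U ⊆ W) :
    fc s (W \ U) = fc s U := by
  have h0 := (fc_zero_iff s W).1 hW
  have e1 : (W \ U).filter (fun u => u * s ∉ W \ U) =
      (univ.filter fun u => u * s ∈ U) \ (U.filter fun u => u * s ∈ U) := by
    ext u
    simp only [mem_filter, mem_sdiff, mem_univ, true_and, not_and, not_not]
    constructor
    · rintro ⟨⟨hu, huU⟩, h⟩
      exact ⟨h (h0 u hu), fun h' => absurd h' huU⟩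
    · rintro ⟨hs, h⟩
      refine ⟨⟨back_of_fc_zero hW (hUW hs), fun hu => h hu hs⟩, fun _ => hs⟩
  have e2 : (univ.filter fun u : G => u * s ∈ U).card = U.card := by
    have : (univ.filter fun u : G => u * s ∈ U) = U.image (fun u => u * s⁻¹) := by
      ext u
      simp only [mem_filter, mem_univ, true_and, mem_image]
      constructor
      · intro h; exact ⟨_, h, mul_inv_cancel_right _ _⟩
      · rintro ⟨v, hv, rfl⟩; rwa [inv_mul_cancel_right]
    rw [this, card_image_of_injective _ (mul_left_injective _)]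
  have e3 : (U.filter fun u => u * s ∈ U).card + (U.filter fun u => u * s ∉ U).card = U.card :=
    card_filter_add_card_filter_not _
  have e4 : (U.filter fun u => u * s ∈ U) ⊆ (univ.filter fun u : G => u * s ∈ U) := by
    intro u hu
    rw [mem_filter] at hu ⊢
    exact ⟨mem_univ _, hu.2⟩
  unfold fc
  rw [e1, card_sdiff_of_subset e4, e2]
  omega

/-- **Edge cuts of coset graphs.** -/
theorem cut (H : Subgroup G) (s : G) (U : Finset G) (hU : RInv H U) (hf : 0 < fc s U) :
    Nat.card H ≤ fc s U := by
  classical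
  set N := Fintype.card G with hN
  set fam : Finset (Finset G) := univ.filter fun U => RInv H U ∧ 0 < fc s U with hfam
  have hne : fam.Nonempty := ⟨U, by rw [hfam, mem_filter]; exact ⟨mem_univ _, hU, hf⟩⟩
  obtain ⟨U0, hU0, hmin⟩ := exists_min_image fam (fun V => fc s V * (N + 1) + V.card) hne
  rw [hfam, mem_filter] at hU0
  obtain ⟨-, hinv, hpos⟩ := hU0
  have hcardN : ∀ V : Finset G, V.card ≤ N := fun V => card_le_univ V
  have hmin1 : ∀ V, RInv H V → 0 < fc s V → fc s U0 ≤ fc s V := by
    intro V h1 h2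
    have h3 := hmin V (by rw [hfam, mem_filter]; exact ⟨mem_univ _, h1, h2⟩)
    have h4 := hcardN V
    by_contra hlt
    push Not at hlt
    have h5 : (fc s V + 1) * (N + 1) ≤ fc s U0 * (N + 1) := Nat.mul_le_mul_right _ hlt
    nlinarith
  have hmin2 : ∀ V, RInv H V → 0 < fc s V → fc s V ≤ fc s U0 → U0.card ≤ V.card := by
    intro V h1 h2 h6
    have h3 := hmin V (by rw [hfam, mem_filter]; exact ⟨mem_univ _, h1, h2⟩)
    have h7 : fc s V = fc s U0 := le_antisymm h6 (hmin1 V h1 h2)
    simp only [h7] at h3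
    omega
  -- translates are equal or disjoint
  have hdich : ∀ g : G, (U0 ∩ lt g U0).Nonempty → lt g U0 = U0 := by
    intro g hI
    by_contra hneq
    have hlt : (U0 ∩ lt g U0).card < U0.card := by
      apply card_lt_card
      refine ⟨inter_subset_left, fun h => hneq ?_⟩
      symm
      apply eq_of_subset_of_card_le (fun x hx => (mem_inter.1 (h hx)).2)
      rw [card_lt]
    have hinvI : RInv H (U0 ∩ lt g U0) := by
      intro u hu k hk
      rw [mem_inter] at hu ⊢
      exact ⟨hinv u hu.1 k hk, hinv.lt g u hu.2 k hk⟩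
    rcases Nat.eq_zero_or_pos (fc s (U0 ∩ lt g U0)) with h0 | h0
    · have h1 : fc s (U0 \ (U0 ∩ lt g U0)) = fc s U0 := fc_sdiff_of_zero h0 inter_subset_left
      have h2 := hmin2 (U0 \ (U0 ∩ lt g U0)) (hinv.sdiff hinvI) (by rw [h1]; exact hpos)
        (le_of_eq h1)
      rw [card_sdiff_of_subset inter_subset_left] at h2
      have h3 := card_pos.2 hI
      omega
    · have h1 : fc s U0 < fc s (U0 ∩ lt g U0) := by
        by_contra h
        push Not at h
        have := hmin2 _ hinvI h0 h
        omega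
      have h2 := fc_submod s U0 (lt g U0)
      rw [fc_lt] at h2
      have hinvW : RInv H (U0 ∪ lt g U0) := by
        intro u hu k hk
        rw [mem_union] at hu ⊢
        rcases hu with hu | hu
        · exact Or.inl (hinv u hu k hk)
        · exact Or.inr (hinv.lt g u hu k hk)
      have h3 : fc s (U0 ∪ lt g U0) = 0 := by
        by_contra h
        have := hmin1 _ hinvW (Nat.pos_of_ne_zero h)
        omega
      have h4 : fc s ((U0 ∪ lt g U0) \ U0) = fc s U0 := fc_compl_in h3 subset_union_left
      have h5 := hmin2 _ (hinvW.sdiff hinv) (by rw [h4]; exact hpos) (le_of_eq h4)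
      rw [card_sdiff_of_subset subset_union_left] at h5
      have h6 := card_union_add_card_inter U0 (lt g U0)
      rw [card_lt] at h6
      have h7 := card_pos.2 hI
      omega
  have hall : ∀ x ∈ U0, x * s ∉ U0 := by
    intro x hx hxs
    have h1 : ∀ y ∈ U0, y * s ∈ U0 := by
      intro y hy
      have h2 : lt (y * x⁻¹) U0 = U0 := by
        apply hdich
        refine ⟨y, mem_inter.2 ⟨hy, ?_⟩⟩
        rw [mem_lt]
        simpa using hx
      rw [← h2, mem_lt]
      have e : (y * x⁻¹)⁻¹ * (y * s) = x * s := by group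
      rwa [e]
    have := (fc_zero_iff s U0).2 h1
    omega
  have h1 : fc s U0 = U0.card := by
    unfold fc
    rw [filter_true_of_mem hall]
  obtain ⟨u, hu⟩ : U0.Nonempty := by
    rw [← card_pos, ← h1]; exact hpos
  have h2 : Nat.card H ≤ U0.card := by
    have h3 : ((univ : Finset H).image fun h : H => u * (h : G)) ⊆ U0 := by
      intro x hx
      obtain ⟨h, -, rfl⟩ := mem_image.1 hx
      exact hinv u hu h h.2
    have h4 := card_le_card h3
    rw [card_image_of_injective _ (fun a b hab => Subtype.ext (mul_right_injective u hab)),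
      card_univ] at h4
    rwa [Nat.card_eq_fintype_card]
  exact (h1 ▸ h2).trans (hmin1 U hU hf)

/-- If `H` and `S` generate the group then a proper nonempty union of left cosets of `H` has at
least `|H|` elements `u` with `u s` outside for some `s ∈ S`. -/
theorem cut_gen (H : Subgroup G) (S : Finset G) (hgen : H ⊔ Subgroup.closure (S : Set G) = ⊤)
    (U : Finset G) (hU : RInv H U) (hne : U.Nonempty) (hne' : U ≠ univ) :
    Nat.card H ≤ (U.filter fun u => ∃ s ∈ S, u * s ∉ U).card := by
  classical
  by_cases h : ∃ s ∈ S, 0 < fc s U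
  · obtain ⟨s, hs, hf⟩ := h
    refine (cut H s U hU hf).trans (card_le_card ?_)
    intro u hu
    rw [mem_filter] at hu ⊢
    exact ⟨hu.1, s, hs, hu.2⟩
  · exfalso
    push Not at h
    have h0 : ∀ s ∈ S, fc s U = 0 := fun s hs => Nat.le_zero.1 (h s hs)
    apply hne'
    obtain ⟨u, hu⟩ := hne
    have hcl : ∀ g ∈ H ⊔ Subgroup.closure (S : Set G), ∀ v, v ∈ U ↔ v * g ∈ U := by
      intro g hg
      rw [← Subgroup.closure_eq H, ← Subgroup.closure_union] at hg
      induction hg using Subgroup.closure_induction with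
      | mem g hg =>
        intro v
        rcases hg with hg | hg
        · refine ⟨fun hv => hU v hv g hg, fun hv => ?_⟩
          have := hU _ hv g⁻¹ (H.inv_mem hg)
          rwa [mul_inv_cancel_right] at this
        · exact ⟨fun hv => (fc_zero_iff g U).1 (h0 g hg) v hv, fun hv => back_of_fc_zero (h0 g hg) hv⟩
      | one => intro v; rw [mul_one]
      | mul a b _ _ ha hb => intro v; rw [ha v, hb (v * a), mul_assoc]
      | inv a _ ha => intro v; rw [ha (v * a⁻¹), inv_mul_cancel_right]
    rw [eq_univ_iff_forall]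
    intro x
    have h1 := (hcl (u⁻¹ * x) (by rw [hgen]; trivial) u).1 hu
    rwa [mul_inv_cancel_left] at h1

end Pool.Agent.U402.HC
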