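import Pool.Agent.U402.HC.Cut

set_option autoImplicit false
set_option linter.unusedSectionVars false

/-!
The edge cut bound for an irredundant set of further generators.
-/

namespace Pool.Agent.U402.HC

open Finset

variable {G : Type} [Group G] [Fintype G] [DecidableEq G]

/-- invariance under the elements of a generated subgroup -/
lemma inv_of_fc_zero (H : Subgroup G) (T : Finset G) (U : Finset G) (hU : RInv H U)
    (h0 : ∀ s ∈ T, fc s U = 0) : ∀ g ∈ H ⊔ Subgroup.closure (T : Set G), ∀ v, v ∈ U ↔ v * g ∈ U := by
  intro g hg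
  rw [← Subgroup.closure_eq H, ← Subgroup.closure_union] at hg
  induction hg using Subgroup.closure_induction with
  | mem g hg =>
    intro v
    rcases hg with hg | hg
    · refine ⟨fun hv => hU v hv g hg, fun hv => ?_⟩
      have := hU _ hv g⁻¹ (H.inv_mem hg)
      rwa [mul_inv_cancel_right] at this
    · exact ⟨fun hv => (fc_zero_iff g U).1 (h0 g hg) v hv, fun hv => back_of_fc_zero (h0 g hg) hv⟩
  | one => intro v; rw [mul_one]
  | mul a b _ _ ha hb => intro v; rw [ha v, hb (v * a), mul_assoc]
  | inv a _ ha => intro v; rw [ha (v * a⁻¹), inv_mul_cancel_right]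

/-- irredundant generators double the order each time -/
lemma card_chain (H : Subgroup G) (S : Finset G)
    (hirr : ∀ s ∈ S, s ∉ H ⊔ Subgroup.closure ((S.erase s : Finset G) : Set G)) (T : Finset G)
    (hT : T ⊆ S) :
    Nat.card H * 2 ^ T.card ≤ Nat.card (H ⊔ Subgroup.closure (T : Set G) : Subgroup G) := by
  induction T using Finset.induction_on with
  | empty =>
    rw [card_empty, pow_zero, mul_one]
    exact Nat.card_le_card_of_injective (Subgroup.inclusion le_sup_left)
      (Subgroup.inclusion_injective _)
  | insert a T ha ih =>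
    have ih' := ih (fun x hx => hT (mem_insert_of_mem hx))
    have haS : a ∈ S := hT (mem_insert_self _ _)
    set K : Subgroup G := H ⊔ Subgroup.closure (T : Set G) with hK
    set K' : Subgroup G := H ⊔ Subgroup.closure ((insert a T : Finset G) : Set G) with hK'
    have hle : K ≤ K' := by
      rw [hK, hK']
      apply sup_le_sup_left
      apply Subgroup.closure_mono
      intro x hx
      exact mem_coe.2 (mem_insert_of_mem (mem_coe.1 hx))
    have haK' : a ∈ K' := by
      apply Subgroup.mem_sup_right
      exact Subgroup.subset_closure (mem_coe.2 (mem_insert_self _ _))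
    have haK : a ∉ K := by
      intro h
      apply hirr a haS
      have h1 : K ≤ H ⊔ Subgroup.closure ((S.erase a : Finset G) : Set G) := by
        rw [hK]
        apply sup_le_sup_left
        apply Subgroup.closure_mono
        intro x hx
        have hx' : x ∈ T := mem_coe.1 hx
        exact mem_coe.2 (mem_erase.2 ⟨fun h => ha (h ▸ hx'), hT (mem_insert_of_mem hx')⟩)
      exact h1 h
    have hdvd : Nat.card K ∣ Nat.card K' := Subgroup.card_dvd_of_le hle
    obtain ⟨c, hc⟩ := hdvd
    have hc2 : 2 ≤ c := by
      rcases Nat.lt_or_ge c 2 with h | h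
      · exfalso
        have hpos : 0 < Nat.card K' := Nat.card_pos
        have hc1 : c = 1 := by
          rcases Nat.eq_zero_or_pos c with h0 | h0
          · rw [h0, mul_zero] at hc; omega
          · omega
        rw [hc1, mul_one] at hc
        have : K = K' := Subgroup.eq_of_le_of_card_ge hle (le_of_eq hc)
        exact haK (this ▸ haK')
      · exact h
    rw [card_insert_of_notMem ha, pow_succ, ← mul_assoc, hc]
    exact Nat.mul_le_mul ih' hc2

/-- **The cut bound for irredundant generators.** -/
theorem cut_irr (H : Subgroup G) (S : Finset G)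
    (hgen : H ⊔ Subgroup.closure (S : Set G) = ⊤)
    (hirr : ∀ s ∈ S, s ∉ H ⊔ Subgroup.closure ((S.erase s : Finset G) : Set G))
    (U : Finset G) (hU : RInv H U) (hne : U.Nonempty) (hne' : U ≠ univ) :
    Nat.card H * S.card ≤ ∑ s ∈ S, fc s U := by
  classical
  set S0 : Finset G := S.filter fun s => fc s U = 0 with hS0
  set S1 : Finset G := S.filter fun s => ¬ fc s U = 0 with hS1
  have hcard : S0.card + S1.card = S.card := card_filter_add_card_filter_not _
  set K : Subgroup G := H ⊔ Subgroup.closure (S0 : Set G) with hK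
  have hinv := inv_of_fc_zero H S0 U hU (fun s hs => (mem_filter.1 hs).2)
  have hUK : RInv K U := fun u hu h hh => (hinv h hh u).1 hu
  have h1 : ∀ s ∈ S1, Nat.card K ≤ fc s U := fun s hs =>
    cut K s U hUK (Nat.pos_of_ne_zero (mem_filter.1 hs).2)
  have h2 : S1.card * Nat.card K ≤ ∑ s ∈ S, fc s U := by
    calc S1.card * Nat.card K ≤ ∑ s ∈ S1, fc s U := by
          rw [← smul_eq_mul]
          exact card_nsmul_le_sum _ _ _ h1
      _ ≤ ∑ s ∈ S, fc s U := sum_le_sum_of_subset (filter_subset _ _)
  have h3 := card_chain H S hirr S0 (filter_subset _ _)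
  have h4 : 1 ≤ S1.card := by
    rw [Nat.one_le_iff_ne_zero, Ne, card_eq_zero]
    intro h0
    apply hne'
    have hS : S0 = S := by
      rw [hS0, filter_eq_self]
      intro s hs
      by_contra h
      have : s ∈ S1 := mem_filter.2 ⟨hs, h⟩
      rw [h0] at this
      simp at this
    rw [hS, hgen] at hinv
    obtain ⟨u, hu⟩ := hne
    rw [eq_univ_iff_forall]
    intro x
    have h1 := (hinv (u⁻¹ * x) trivial u).1 hu
    rwa [mul_inv_cancel_left] at h1
  refine le_trans ?_ h2
  have h5 : S.card ≤ S1.card * 2 ^ S0.card := by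
    have h6 : S0.card + 1 ≤ 2 ^ S0.card := Nat.lt_two_pow_self
    have h7 : S1.card * (S0.card + 1) ≤ S1.card * 2 ^ S0.card := Nat.mul_le_mul_left _ h6
    nlinarith
  calc Nat.card H * S.card ≤ Nat.card H * (S1.card * 2 ^ S0.card) := Nat.mul_le_mul_left _ h5
    _ = S1.card * (Nat.card H * 2 ^ S0.card) := by ring
    _ ≤ S1.card * Nat.card K := Nat.mul_le_mul_left _ h3

end Pool.Agent.U402.HC
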