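import Pool.Agent.U402.HC.Ham

set_option autoImplicit false
set_option linter.unusedSectionVars false

/-!
A Hamiltonian cycle from a connected even system of disjoint arcs between blocks in which prescribed
pairs of elements can be linked by spanning systems of disjoint paths.
-/

namespace Pool.Agent.U402.HC

open Finset
open Pool.Agent.R553.SP (CC Share tl hd euler)

/-- Any at most `r` disjoint pairs of elements of `X` are linked by disjoint paths which cover `X`. -/
def Linked {G : Type} (Adj : G → G → Prop) (X : G → Prop) (r : ℕ) : Prop :=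
  ∀ (ι : Type) [Fintype ι] (x y : ι → G), Nonempty ι → Fintype.card ι ≤ r →
    (∀ i, X (x i)) → (∀ i, X (y i)) → Function.Injective x → Function.Injective y →
    (∀ i j, x i ≠ y j) →
    ∃ P : ι → List G, (∀ i, (P i).head? = some (x i) ∧ (P i).getLast? = some (y i) ∧
      (P i).IsChain Adj ∧ (P i).Nodup ∧ ∀ v ∈ P i, X v) ∧
      (∀ i j, i ≠ j → (P i).Disjoint (P j)) ∧ ∀ v, X v → ∃ i, v ∈ P i

lemma cc_formPerm {α : Type} [DecidableEq α] (l : List α) (hnd : l.Nodup) :
    CC (fun x y => y = l.formPerm x) l := by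
  refine ⟨?_, ?_⟩
  · rw [List.isChain_iff_getElem]
    intro i hi
    rw [List.formPerm_apply_lt_getElem l hnd i hi]
  · intro y hy z hz
    rcases l with _ | ⟨a, l⟩
    · simp at hy
    · have h1 : z = a := by simpa using hz.symm
      have h2 : (a :: l).getLast (by simp) = y := by
        rw [List.getLast?_eq_getLast_of_ne_nil (by simp)] at hy
        simpa using hy
      rw [h1, ← h2, List.formPerm_apply_getLast]

lemma cc_rel {α : Type} [DecidableEq α] (R : α → α → Prop) (l : List α) (hnd : l.Nodup)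
    (hcc : CC R l) (x : α) (hx : x ∈ l) : R x (l.formPerm x) := by
  obtain ⟨i, hi, rfl⟩ := List.mem_iff_getElem.1 hx
  rw [List.formPerm_apply_getElem l hnd i hi]
  exact cc_getElem _ l hcc i hi

/-- **Arcs between linked blocks.** -/
theorem ham_of_linked {G Q E : Type} [Fintype G] [DecidableEq G] [Fintype E] [DecidableEq E]
    [DecidableEq Q] [Nonempty E] (Adj : G → G → Prop) (bl : G → Q) (p q : E → G) (r : ℕ)
    (hadj : ∀ e, Adj (p e) (q e) ∧ Adj (q e) (p e))
    (hpq : ∀ e f, p e ≠ q f) (hpp : Function.Injective p) (hqq : Function.Injective q)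
    (hev : ∀ Z, Even ((univ.filter fun e => bl (p e) = Z).card +
      (univ.filter fun e => bl (q e) = Z).card))
    (hconn : ∀ S : Set E, S.Nonempty → Sᶜ.Nonempty →
      ∃ e ∈ S, ∃ f ∉ S, Share (fun e => bl (p e)) (fun e => bl (q e)) e f)
    (hcov : ∀ Z, (∃ g, bl g = Z) → ∃ e, bl (p e) = Z ∨ bl (q e) = Z)
    (hdeg : ∀ Z, (univ.filter fun e => bl (p e) = Z).card +
      (univ.filter fun e => bl (q e) = Z).card ≤ 2 * r + 1)
    (hlink : ∀ Z, (∃ g, bl g = Z) → Linked Adj (fun g => bl g = Z) r) :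
    ∃ L : List G, L.Nodup ∧ (∀ x, x ∈ L) ∧ CC Adj L := by
  classical
  obtain ⟨l, hl0, hlnd, hlall, hlcc⟩ := euler (fun e => bl (p e)) (fun e => bl (q e)) hev hconn
  have hlnd' : l.Nodup := List.Nodup.of_map _ hlnd
  have hinjl : ∀ d ∈ l, ∀ d' ∈ l, d.1 = d'.1 → d = d' := by
    intro d hd d' hd' h
    exact List.inj_on_of_nodup_map hlnd hd hd' h
  set σ := l.formPerm with hσ
  have hσmem : ∀ d ∈ l, σ d ∈ l := fun d hd => List.formPerm_apply_mem_of_mem hd
  -- end points
  let te : E × Bool → G := fun d => if d.2 then p d.1 else q d.1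
  let he : E × Bool → G := fun d => if d.2 then q d.1 else p d.1
  have hte : ∀ d, bl (te d) = tl (fun e => bl (p e)) (fun e => bl (q e)) d := by
    rintro ⟨e, s⟩; cases s <;> rfl
  have hhe : ∀ d, bl (he d) = hd (fun e => bl (p e)) (fun e => bl (q e)) d := by
    rintro ⟨e, s⟩; cases s <;> rfl
  have hσbl : ∀ d ∈ l, bl (he d) = bl (te (σ d)) := by
    intro d hd
    rw [hhe, hte]
    exact cc_rel _ l hlnd' hlcc d hd
  have hheinj : ∀ d ∈ l, ∀ d' ∈ l, he d = he d' → d = d' := by
    rintro ⟨e, s⟩ hd ⟨e', s'⟩ hd' h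
    apply hinjl _ hd _ hd'
    cases s <;> cases s' <;> simp only [he, Bool.false_eq_true, if_false, if_true] at h
    · exact hpp h
    · exact absurd h (hpq _ _)
    · exact absurd h.symm (hpq _ _)
    · exact hqq h
  have hteinj : ∀ d ∈ l, ∀ d' ∈ l, te d = te d' → d = d' := by
    rintro ⟨e, s⟩ hd ⟨e', s'⟩ hd' h
    apply hinjl _ hd _ hd'
    cases s <;> cases s' <;> simp only [te, Bool.false_eq_true, if_false, if_true] at h
    · exact hqq h
    · exact absurd h.symm (hpq _ _)
    · exact absurd h (hpq _ _)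
    · exact hpp h
  have hhete : ∀ d ∈ l, ∀ d' ∈ l, he d ≠ te d' := by
    rintro ⟨e, s⟩ hd ⟨e', s'⟩ hd' h
    have h1 : e = e' ∧ s ≠ s' := by
      cases s <;> cases s' <;> simp only [te, he, Bool.false_eq_true, if_false, if_true] at h
      · exact absurd h (hpq _ _)
      · exact ⟨hpp h, by decide⟩
      · exact ⟨hqq h, by decide⟩
      · exact absurd h.symm (hpq _ _)
    have h2 := hinjl _ hd _ hd' h1.1
    exact h1.2 (by rw [Prod.mk.injEq] at h2; exact h2.2)
  -- the darts which enter a block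
  let D : Q → Finset (E × Bool) := fun Z => univ.filter fun d => d ∈ l ∧ bl (he d) = Z
  have hmD : ∀ Z d, d ∈ D Z ↔ d ∈ l ∧ bl (he d) = Z := by
    intro Z d; simp only [D, mem_filter, mem_univ, true_and]
  have hDcard : ∀ Z, (D Z).card ≤ r := by
    intro Z
    -- the ends of arcs in the block
    set N : Finset (E × Bool) := univ.filter fun d => bl (he d) = Z with hN
    have hNc : N.card ≤ 2 * r + 1 := by
      refine le_trans ?_ (hdeg Z)
      have h1 : N ⊆ (univ.filter fun e => bl (p e) = Z).image (fun e => (e, false)) ∪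
          (univ.filter fun e => bl (q e) = Z).image (fun e => (e, true)) := by
        rintro ⟨e, s⟩ h
        rw [hN, mem_filter] at h
        rw [mem_union, mem_image, mem_image]
        cases s
        · left; exact ⟨e, mem_filter.2 ⟨mem_univ _, h.2⟩, rfl⟩
        · right; exact ⟨e, mem_filter.2 ⟨mem_univ _, h.2⟩, rfl⟩
      refine (card_le_card h1).trans ((card_union_le _ _).trans ?_)
      exact Nat.add_le_add card_image_le card_image_le
    let τ : E × Bool → E × Bool := fun d => ((σ d).1, !(σ d).2)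
    have hτhe : ∀ d, he (τ d) = te (σ d) := by
      intro d
      rcases hd : σ d with ⟨e, s⟩
      cases s <;> simp [τ, he, te, hd]
    have h2 : (D Z).image τ ⊆ N := by
      intro d' hd'
      obtain ⟨d, hd, rfl⟩ := mem_image.1 hd'
      rw [hmD] at hd
      rw [hN, mem_filter]
      exact ⟨mem_univ _, by rw [hτhe, ← hσbl d hd.1, hd.2]⟩
    have h3 : D Z ⊆ N := by
      intro d hd
      rw [hmD] at hd
      rw [hN, mem_filter]
      exact ⟨mem_univ _, hd.2⟩
    have h4 : Disjoint (D Z) ((D Z).image τ) := by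
      rw [disjoint_left]
      intro d' hd1 hd2
      obtain ⟨d, hd, rfl⟩ := mem_image.1 hd2
      rw [hmD] at hd hd1
      exact hhete _ hd1.1 _ (hσmem d hd.1) (hτhe d)
    have h5 : ((D Z).image τ).card = (D Z).card := by
      apply card_image_of_injOn
      intro d hd d' hd' h
      have h6 : te (σ d) = te (σ d') := by rw [← hτhe, ← hτhe, h]
      have hdl := ((hmD Z d).1 hd).1
      have hdl' := ((hmD Z d').1 hd').1
      exact σ.injective (hteinj _ (hσmem d hdl) _ (hσmem d' hdl') h6)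
    have h6 := card_le_card (union_subset h3 h2)
    rw [card_union_of_disjoint h4, h5] at h6
    omega
  -- the linkages
  have hne : ∀ Z, (∃ g, bl g = Z) → (D Z).Nonempty := by
    intro Z hZ
    obtain ⟨e, he'⟩ := hcov Z hZ
    obtain ⟨d, hd1, rfl⟩ := List.mem_map.1 (hlall e)
    have h1 : bl (he d) = Z ∨ bl (te d) = Z := by
      obtain ⟨e, s⟩ := d
      cases s
      · rcases he' with h | h
        · left; exact h
        · right; exact h
      · rcases he' with h | h
        · right; exact h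
        · left; exact h
    rcases h1 with h1 | h1
    · exact ⟨d, (hmD _ _).2 ⟨hd1, h1⟩⟩
    · obtain ⟨d', hd', hdd⟩ := cc_pred _ l hlcc d hd1
      refine ⟨d', (hmD _ _).2 ⟨hd', ?_⟩⟩
      rw [hhe, hdd, ← hte, h1]
  have hpaths : ∀ Z, (∃ g, bl g = Z) → ∃ P : E × Bool → List G,
      (∀ d ∈ D Z, (P d).head? = some (he d) ∧ (P d).getLast? = some (te (σ d)) ∧
        (P d).IsChain Adj ∧ (P d).Nodup ∧ ∀ v ∈ P d, bl v = Z) ∧
      (∀ d ∈ D Z, ∀ d' ∈ D Z, d ≠ d' → (P d).Disjoint (P d')) ∧
      ∀ v, bl v = Z → ∃ d ∈ D Z, v ∈ P d := by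
    intro Z hZ
    obtain ⟨P, hP1, hP2, hP3⟩ := hlink Z hZ {d // d ∈ D Z} (fun d => he d.1)
      (fun d => te (σ d.1)) (by obtain ⟨d, hd⟩ := hne Z hZ; exact ⟨⟨d, hd⟩⟩)
      (by rw [Fintype.card_coe]; exact hDcard Z)
      (fun d => ((hmD Z _).1 d.2).2)
      (fun d => by
        have := (hmD Z _).1 d.2
        change bl (te (σ d.1)) = Z
        rw [← hσbl _ this.1, this.2])
      (fun d d' h => Subtype.ext (hheinj _ ((hmD Z _).1 d.2).1 _ ((hmD Z _).1 d'.2).1 h))
      (fun d d' h => Subtype.ext (σ.injective (hteinj _ (hσmem _ ((hmD Z _).1 d.2).1) _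
        (hσmem _ ((hmD Z _).1 d'.2).1) h)))
      (fun d d' => hhete _ ((hmD Z _).1 d.2).1 _ (hσmem _ ((hmD Z _).1 d'.2).1))
    refine ⟨fun d => if h : d ∈ D Z then P ⟨d, h⟩ else [], ?_, ?_, ?_⟩
    · intro d hd
      simp only [dif_pos hd]
      exact hP1 ⟨d, hd⟩
    · intro d hd d' hd' h
      simp only [dif_pos hd, dif_pos hd']
      exact hP2 _ _ (fun h' => h (congrArg Subtype.val h'))
    · intro v hv
      obtain ⟨d, hd⟩ := hP3 v hv
      refine ⟨d.1, d.2, ?_⟩
      simp only [dif_pos d.2]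
      exact hd
  choose! P hP1 hP2 hP3 using hpaths
  let f : E × Bool → List G := fun d => P (bl (he d)) d
  have hdD : ∀ d ∈ l, d ∈ D (bl (he d)) := fun d hd => (hmD _ _).2 ⟨hd, rfl⟩
  have hf1 : ∀ d ∈ l, (f d).head? = some (he d) ∧ (f d).getLast? = some (te (σ d)) ∧
        (f d).IsChain Adj ∧ (f d).Nodup ∧ ∀ v ∈ f d, bl v = bl (he d) := by
    intro d hd
    exact hP1 _ ⟨_, rfl⟩ d (hdD d hd)
  refine ⟨l.flatMap f, ?_, ?_, ?_⟩
  · rw [List.nodup_flatMap]
    refine ⟨fun d hd => (hf1 d hd).2.2.2.1, ?_⟩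
    have h1 : l.Pairwise (fun d d' => d ∈ l ∧ d' ∈ l ∧ d ≠ d') := by
      rw [List.pairwise_iff_getElem]
      intro i j hi hj hij
      refine ⟨List.getElem_mem _, List.getElem_mem _, ?_⟩
      intro h
      have := (List.Nodup.getElem_inj_iff hlnd').1 h
      omega
    refine h1.imp ?_
    rintro d d' ⟨hd, hd', hne'⟩ v hv hv'
    have h2 := (hf1 d hd).2.2.2.2 v hv
    have h3 := (hf1 d' hd').2.2.2.2 v hv'
    have h4 : bl (he d') = bl (he d) := h3.symm.trans h2
    have h5 : d' ∈ D (bl (he d)) := (hmD _ _).2 ⟨hd', h4⟩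
    have h6 : v ∈ P (bl (he d)) d' := by
      have : v ∈ P (bl (he d')) d' := hv'
      rwa [h4] at this
    exact hP2 _ ⟨_, rfl⟩ d (hdD d hd) d' h5 hne' hv h6
  · intro v
    obtain ⟨d, hd, hv⟩ := hP3 (bl v) ⟨v, rfl⟩ v rfl
    rw [List.mem_flatMap]
    have h1 := (hmD _ _).1 hd
    refine ⟨d, h1.1, ?_⟩
    change v ∈ P (bl (he d)) d
    rw [h1.2]; exact hv
  · refine cc_flatMap f Adj (fun x y => y = l.formPerm x) l (cc_formPerm l hlnd') ?_ ?_ ?_
    · intro d hd h
      have := (hf1 d hd).1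
      rw [h] at this
      simp at this
    · intro d hd
      exact (hf1 d hd).2.2.1
    · intro d hd d' hd' hdd x hx y hy
      rw [(hf1 d hd).2.1] at hx
      rw [(hf1 d' hd').1] at hy
      simp only [Option.mem_some_iff] at hx hy
      rw [← hx, ← hy]
      have h1 : σ d = d' := hdd.symm
      rw [h1]
      obtain ⟨e, s⟩ := d'
      cases s
      · exact (hadj e).2
      · exact (hadj e).1

end Pool.Agent.U402.HC
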