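import Pool.Agent.U402.HC.Ham

set_option autoImplicit false
set_option linter.unusedSectionVars false

/-!
A Hamiltonian cycle of a graph whose blocks are complete is turned into one in which the pairs inside
the blocks are edges of a graph with large minimum degree inside the blocks.
-/

namespace Pool.Agent.U402.HC

open Finset
open Pool.Agent.R553.SP (CC cc_rot)

/-- a pair of neighbours of a closed chain which violates a relation, moved to the end -/
lemma not_cc {α : Type} (R : α → α → Prop) (L : List α) (hlen : 2 ≤ L.length) (h : ¬ CC R L) :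
    ∃ (A B M : List α) (x y : α), L = A ++ B ∧ B ++ A = y :: (M ++ [x]) ∧ ¬ R x y := by
  classical
  by_cases hc : L.IsChain R
  · have h2 : ∃ y ∈ L.getLast?, ∃ z ∈ L.head?, ¬ R y z := by
      by_contra hcon
      push Not at hcon
      exact h ⟨hc, hcon⟩
    obtain ⟨x, hx, y, hy, hR⟩ := h2
    rcases L with _ | ⟨a, L⟩
    · simp at hlen
    · rcases List.eq_nil_or_concat L with rfl | ⟨M, b, rfl⟩
      · simp at hlen
      · rw [List.concat_eq_append] at *
        refine ⟨[], a :: (M ++ [b]), M, x, y, rfl, ?_, hR⟩
        rw [List.append_nil]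
        have h1 : b = x := by
          have : (a :: (M ++ [b])).getLast? = some b := by
            rw [← List.cons_append, List.getLast?_append_of_ne_nil _ (by simp)]; rfl
          rw [this] at hx
          simpa using hx
        have h2 : a = y := by simpa using hy
        rw [h1, h2]
  · rw [List.isChain_iff_getElem] at hc
    push Not at hc
    obtain ⟨i, hi, hR⟩ := hc
    refine ⟨L.take (i + 1), L.drop (i + 1), L.drop (i + 2) ++ L.take i, L[i], L[i + 1],
      (List.take_append_drop _ _).symm, ?_, hR⟩
    rw [List.drop_eq_getElem_cons hi, List.take_succ_eq_append_getElem (by omega : i < L.length)]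
    simp only [List.cons_append, List.append_assoc]

/-- the successor in a closed chain -/
lemma cc_succ {α : Type} [DecidableEq α] (R : α → α → Prop) (L : List α) (hnd : L.Nodup)
    (hall : ∀ x, x ∈ L) (hcc : CC R L) (x : α) : R x (L.formPerm x) := by
  obtain ⟨i, hi, rfl⟩ := List.mem_iff_getElem.1 (hall x)
  rw [List.formPerm_apply_getElem L hnd i hi]
  exact cc_getElem _ L hcc i hi

/-- **Switching.** -/
theorem switch {G Q : Type} [Fintype G] [DecidableEq G] [DecidableEq Q] (bl : G → Q)
    (Adj : G → G → Prop) (hsymm : ∀ x y, Adj x y → Adj y x) (End : Finset G) (D h c : ℕ)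
    [DecidableRel Adj]
    (hblock : ∀ q, (univ.filter fun w => bl w = q).card ≤ h)
    (hdeg : ∀ u, D ≤ (univ.filter fun w => bl w = bl u ∧ w ≠ u ∧ Adj u w).card)
    (hend : ∀ q, (End.filter fun w => bl w = q).card ≤ c)
    (hD : h + c ≤ 2 * D) (hG : 2 ≤ Fintype.card G)
    (hL : ∃ L : List G, L.Nodup ∧ (∀ x, x ∈ L) ∧
      CC (fun x y => (bl x = bl y ∧ x ≠ y) ∨ (x ∈ End ∧ y ∈ End ∧ Adj x y)) L) :
    ∃ L : List G, L.Nodup ∧ (∀ x, x ∈ L) ∧ CC Adj L := by
  classical
  set R : G → G → Prop := fun x y => (bl x = bl y ∧ x ≠ y) ∨ (x ∈ End ∧ y ∈ End ∧ Adj x y)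
    with hR
  set bad : Finset (Sym2 G) := univ.filter fun z => ∃ x y, z = s(x, y) ∧ bl x = bl y ∧ x ≠ y ∧
    ¬ Adj x y with hbad
  have hbad' : ∀ x y, s(x, y) ∈ bad → bl x = bl y ∧ x ≠ y ∧ ¬ Adj x y := by
    intro x y hxy
    rw [hbad, mem_filter] at hxy
    obtain ⟨-, x', y', hs, h1, h2, h3⟩ := hxy
    rw [Sym2.eq_iff] at hs
    rcases hs with ⟨rfl, rfl⟩ | ⟨rfl, rfl⟩
    · exact ⟨h1, h2, h3⟩
    · exact ⟨h1.symm, h2.symm, fun h => h3 (hsymm _ _ h)⟩
  have key : ∀ X : Finset (Sym2 G), X ⊆ bad → ∃ L : List G, L.Nodup ∧ (∀ x, x ∈ L) ∧
      CC (fun x y => R x y ∧ s(x, y) ∉ X) L := by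
    intro X
    induction X using Finset.induction_on with
    | empty =>
      intro _
      obtain ⟨L, h1, h2, h3⟩ := hL
      refine ⟨L, h1, h2, ?_, ?_⟩
      · exact h3.1.imp fun x y hxy => ⟨hxy, by simp⟩
      · intro y hy z hz
        exact ⟨h3.2 y hy z hz, by simp⟩
    | insert z X hz ih =>
      intro hX
      obtain ⟨L, hnd, hall, hcc⟩ := ih (fun w hw => hX (mem_insert_of_mem hw))
      by_cases hgood : CC (fun x y => R x y ∧ s(x, y) ∉ insert z X) L
      · exact ⟨L, hnd, hall, hgood⟩
      have hlenL : ∀ L : List G, (∀ x, x ∈ L) → 2 ≤ L.length := by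
        intro L hall
        have h2 : (univ : Finset G) ⊆ L.toFinset := fun x _ => List.mem_toFinset.2 (hall x)
        have h3 := card_le_card h2
        rw [card_univ] at h3
        have := h3.trans (List.toFinset_card_le L)
        omega
      obtain ⟨A, B, M, x, y, hAB, hBA, hnR⟩ := not_cc _ L (hlenL L hall) hgood
      have hcc2 : CC (fun x y => R x y ∧ s(x, y) ∉ X) (y :: (M ++ [x])) := by
        rw [← hBA]
        apply cc_rot
        rw [← hAB]; exact hcc
      have hnd2 : (y :: (M ++ [x])).Nodup := by
        rw [← hBA]
        rw [hAB] at hnd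
        exact List.nodup_append_comm.1 hnd
      have hall2 : ∀ w, w ∈ y :: (M ++ [x]) := by
        intro w
        rw [← hBA]
        have := hall w
        rw [hAB] at this
        simp only [List.mem_append] at this ⊢
        tauto
      set L2 : List G := y :: (M ++ [x]) with hL2
      have hlast : L2.getLast? = some x := by
        rw [hL2, ← List.cons_append, List.getLast?_append_of_ne_nil _ (by simp)]; rfl
      have hhead : L2.head? = some y := by rw [hL2]; rfl
      have hRxy : R x y ∧ s(x, y) ∉ X := hcc2.2 x (by rw [hlast]; rfl) y (by rw [hhead]; rfl)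
      have hz' : s(x, y) = z := by
        by_contra hne
        apply hnR
        refine ⟨hRxy.1, ?_⟩
        rw [mem_insert]
        rintro (h | h)
        · exact hne h
        · exact hRxy.2 h
      have hzbad := hbad' x y (by rw [hz']; exact hX (mem_insert_self _ _))
      obtain ⟨hblxy, hxy, hnadj⟩ := hzbad
      -- good pairs avoid the bad set
      have hgp : ∀ u v, bl u = bl v → u ≠ v → Adj u v → R u v ∧ s(u, v) ∉ insert z X := by
        intro u v h1 h2 h3
        refine ⟨Or.inl ⟨h1, h2⟩, fun h4 => ?_⟩
        exact (hbad' u v (hX h4)).2.2 h3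
      set σ := L2.formPerm with hσ
      have hσR := cc_succ _ L2 hnd2 hall2 hcc2
      have hσx : σ x = y := by
        rw [hσ, hL2]
        simp
      -- the two sets
      set S1 : Finset G := univ.filter fun w => bl w = bl x ∧ w ≠ x ∧ Adj x w with hS1
      set T2 : Finset G := univ.filter fun w => (bl w = bl y ∧ w ≠ y ∧ Adj y w) ∧ w ∉ End with hT2
      set S2 : Finset G := univ.filter fun w => σ w ∈ T2 with hS2
      have hcS2 : S2.card = T2.card := by
        have : S2 = T2.image σ.symm := by
          ext w
          rw [hS2, mem_filter, mem_image]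
          constructor
          · rintro ⟨-, h⟩; exact ⟨σ w, h, by simp⟩
          · rintro ⟨v, hv, rfl⟩; simpa using hv
        rw [this, card_image_of_injective _ σ.symm.injective]
      have hcT2 : D ≤ T2.card + c := by
        have h1 := hdeg y
        have h2 : (univ.filter fun w => bl w = bl y ∧ w ≠ y ∧ Adj y w).card ≤
            T2.card + (End.filter fun w => bl w = bl y).card := by
          rw [← card_filter_add_card_filter_not (p := fun w => w ∉ End)
            (s := univ.filter fun w => bl w = bl y ∧ w ≠ y ∧ Adj y w)]
          apply Nat.add_le_add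
          · rw [hT2, filter_filter]
          · apply card_le_card
            intro w hw
            rw [mem_filter, mem_filter, not_not] at hw
            rw [mem_filter]
            exact ⟨hw.2, hw.1.2.1⟩
        have h3 := hend (bl y)
        omega
      have hsub : S1 ∪ S2 ⊆ (univ.filter fun w => bl w = bl x).erase x := by
        intro w hw
        rw [mem_erase, mem_filter]
        rw [mem_union] at hw
        rcases hw with hw | hw
        · rw [hS1, mem_filter] at hw
          exact ⟨hw.2.2.1, mem_univ _, hw.2.1⟩
        · rw [hS2, mem_filter, hT2, mem_filter] at hw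
          obtain ⟨-, -, ⟨h1, h2, h3⟩, h4⟩ := hw
          refine ⟨fun h => h2 (by rw [h, hσx]), mem_univ _, ?_⟩
          rcases (hσR w).1 with h5 | h5
          · rw [h5.1, hblxy]
            exact h1
          · exact absurd h5.2.1 h4
      have hmeet : (S1 ∩ S2).Nonempty := by
        rw [← card_pos]
        have h1 := card_union_add_card_inter S1 S2
        have h2 := card_le_card hsub
        have h3 : x ∈ univ.filter fun w => bl w = bl x := by rw [mem_filter]; exact ⟨mem_univ _, rfl⟩
        rw [card_erase_of_mem h3] at h2
        have h4 := hblock (bl x)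
        have h5 := hdeg x
        have h6 := card_pos.2 ⟨x, h3⟩
        change D ≤ S1.card at h5
        omega
      obtain ⟨w, hw⟩ := hmeet
      rw [mem_inter, hS1, mem_filter, hS2, mem_filter, hT2, mem_filter] at hw
      obtain ⟨⟨-, hw1, hw2, hw3⟩, -, -, ⟨hw4, hw5, hw6⟩, -⟩ := hw
      -- the position of `w`
      obtain ⟨i, hi, hiw⟩ := List.mem_iff_getElem.1 (hall2 w)
      have hi1 : i + 1 < L2.length := by
        by_contra hcon
        have h1 : i = L2.length - 1 := by omega
        apply hw2
        have h2 : L2.getLast? = some (L2[L2.length - 1]'(by omega)) := by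
          rw [List.getLast?_eq_getElem?, List.getElem?_eq_getElem]
        rw [hlast] at h2
        have h3 : x = L2[L2.length - 1]'(by omega) := by simpa using h2
        rw [h3, ← hiw]
        simp only [h1]
      have hσw : σ w = L2[i + 1] := by
        rw [← hiw, hσ, List.formPerm_apply_lt_getElem L2 hnd2 i hi1]
      have hsplit : L2 = L2.take (i + 1) ++ L2.drop (i + 1) := (List.take_append_drop _ _).symm
      have hPlast : (L2.take (i + 1)).getLast? = some w := by
        rw [List.take_succ_eq_append_getElem hi, hiw]; simp
      have hQhead : (L2.drop (i + 1)).head? = some (σ w) := by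
        rw [List.drop_eq_getElem_cons hi1, hσw]; rfl
      have hPne : L2.take (i + 1) ≠ [] := by
        intro h0; rw [h0] at hPlast; simp at hPlast
      have hQne : L2.drop (i + 1) ≠ [] := by
        intro h0; rw [h0] at hQhead; simp at hQhead
      have hPhead : (L2.take (i + 1)).head? = some y := by
        rw [hsplit, List.head?_append_of_ne_nil _ hPne] at hhead
        exact hhead
      have hQlast : (L2.drop (i + 1)).getLast? = some x := by
        rw [hsplit, List.getLast?_append_of_ne_nil _ hQne] at hlast
        exact hlast
      set P := L2.take (i + 1) with hP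
      set Q' := L2.drop (i + 1) with hQ'
      have hdisj : ∀ v, v ∈ P → v ∈ Q' → False := by
        intro v h1 h2
        rw [hsplit, List.nodup_append] at hnd2
        exact hnd2.2.2 v h1 v h2 rfl
      have hxQ : x ∈ Q' := List.mem_of_mem_getLast? (by rw [hQlast]; rfl)
      have hyP : y ∈ P := List.mem_of_mem_head? (by rw [hPhead]; rfl)
      have hPc : P.IsChain (fun x y => R x y ∧ s(x, y) ∉ X) := by
        have := hcc2.1
        rw [hsplit, List.isChain_append] at this
        exact this.1
      have hQc : Q'.IsChain (fun x y => R x y ∧ s(x, y) ∉ X) := by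
        have := hcc2.1
        rw [hsplit, List.isChain_append] at this
        exact this.2.1
      have hup : ∀ l : List G, l.IsChain (fun x y => R x y ∧ s(x, y) ∉ X) →
          (x ∉ l ∨ y ∉ l) → l.IsChain (fun x y => R x y ∧ s(x, y) ∉ insert z X) := by
        intro l hl hxy'
        rw [List.isChain_iff_getElem] at hl ⊢
        intro j hj
        refine ⟨(hl j hj).1, ?_⟩
        rw [mem_insert]
        rintro (h | h)
        · rw [← hz', Sym2.eq_iff] at h
          have ha : l[j] ∈ l := List.getElem_mem _
          have hb : l[j + 1] ∈ l := List.getElem_mem _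
          rcases h with ⟨h1, h2⟩ | ⟨h1, h2⟩
          · rw [h1] at ha; rw [h2] at hb
            rcases hxy' with h | h
            · exact h ha
            · exact h hb
          · rw [h1] at ha; rw [h2] at hb
            rcases hxy' with h | h
            · exact h hb
            · exact h ha
        · exact (hl j hj).2 h
      have hPc' := hup P hPc (Or.inl fun h => hdisj x h hxQ)
      have hQc' := hup Q' hQc (Or.inr fun h => hdisj y hyP h)
      refine ⟨P.reverse ++ Q', ?_, ?_, ?_, ?_⟩
      · rw [hsplit, List.nodup_append] at hnd2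
        rw [List.nodup_append]
        refine ⟨List.nodup_reverse.2 hnd2.1, hnd2.2.1, ?_⟩
        intro a ha b hb
        exact hnd2.2.2 a (List.mem_reverse.1 ha) b hb
      · intro v
        have := hall2 v
        rw [hsplit, List.mem_append] at this
        rw [List.mem_append, List.mem_reverse]
        exact this
      · rw [List.isChain_append]
        refine ⟨?_, hQc', ?_⟩
        · rw [List.isChain_reverse]
          refine hPc'.imp ?_
          intro u v huv
          refine ⟨?_, ?_⟩
          · rcases huv.1 with h1 | h1
            · exact Or.inl ⟨h1.1.symm, h1.2.symm⟩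
            · exact Or.inr ⟨h1.2.1, h1.1, hsymm _ _ h1.2.2⟩
          · rw [Sym2.eq_swap]; exact huv.2
        · intro u hu v hv
          rw [List.getLast?_reverse, hPhead] at hu
          rw [hQhead] at hv
          simp only [Option.mem_some_iff] at hu hv
          rw [← hu, ← hv]
          exact hgp y (σ w) hw4.symm hw5.symm hw6
      · intro u hu v hv
        rw [List.getLast?_append_of_ne_nil _ hQne, hQlast] at hu
        rw [List.head?_append_of_ne_nil _ (by simpa using hPne), List.head?_reverse, hPlast] at hv
        simp only [Option.mem_some_iff] at hu hv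
        rw [← hu, ← hv]
        exact hgp x w hw1.symm hw2.symm hw3
  obtain ⟨L, h1, h2, h3⟩ := key bad (Subset.refl _)
  have himp : ∀ x y, (R x y ∧ s(x, y) ∉ bad) → Adj x y := by
    rintro x y ⟨h4 | h4, h5⟩
    · by_contra h6
      apply h5
      rw [hbad, mem_filter]
      exact ⟨mem_univ _, x, y, rfl, h4.1, h4.2, h6⟩
    · exact h4.2.2
  exact ⟨L, h1, h2, h3.1.imp fun x y h => himp x y h, fun y hy z hz => himp _ _ (h3.2 y hy z hz)⟩

end Pool.Agent.U402.HC
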