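import Pool.Agent.U402.HC.Asm
import Pool.Agent.U402.HC.Switch

set_option autoImplicit false
set_option linter.unusedSectionVars false

/-!
Hamiltonian cycles in Cayley graphs whose connection set contains a large part of a subgroup.
-/

namespace Pool.Agent.U402.HC

open Finset
open Pool.Agent.Helper879.ECD (sp sp_mono mem_sp Ind)
open Pool.Agent.R553.SP (CC cc_rot)

variable {G : Type} [Group G] [Fintype G] [DecidableEq G] {H : Subgroup G} {S : Finset G}

/-- an irredundant set of further generators -/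
lemma exists_irr (H : Subgroup G) (A : Set G) (hgen : Subgroup.closure A = ⊤) :
    ∃ S : Finset G, (∀ s ∈ S, s ∈ A) ∧ H ⊔ Subgroup.closure (S : Set G) = ⊤ ∧
      ∀ s ∈ S, s ∉ H ⊔ Subgroup.closure ((S.erase s : Finset G) : Set G) := by
  classical
  set fam : Finset (Finset G) := univ.filter fun S => (∀ s ∈ S, s ∈ A) ∧
    H ⊔ Subgroup.closure (S : Set G) = ⊤ with hfam
  have hne : fam.Nonempty := by
    refine ⟨A.toFinite.toFinset, ?_⟩
    rw [hfam, mem_filter]
    refine ⟨mem_univ _, fun s hs => (Set.Finite.mem_toFinset _).1 hs, ?_⟩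
    rw [Set.Finite.coe_toFinset, hgen, sup_top_eq]
  obtain ⟨S, hS, hmin⟩ := exists_min_image fam (fun S => S.card) hne
  rw [hfam, mem_filter] at hS
  refine ⟨S, hS.2.1, hS.2.2, ?_⟩
  intro s hs hsm
  have h1 : S.erase s ∈ fam := by
    rw [hfam, mem_filter]
    refine ⟨mem_univ _, fun x hx => hS.2.1 x (mem_of_mem_erase hx), ?_⟩
    rw [eq_top_iff, ← hS.2.2]
    apply sup_le le_sup_left
    rw [Subgroup.closure_le]
    intro x hx
    by_cases h : x = s
    · rw [h]; exact hsm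
    · apply Subgroup.mem_sup_right
      exact Subgroup.subset_closure (mem_coe.2 (mem_erase.2 ⟨h, hx⟩))
  have h2 := hmin _ h1
  rw [card_erase_of_mem hs] at h2
  have h3 := card_pos.2 ⟨s, hs⟩
  omega

/-- a trivial closed chain -/
lemma cc_all (hG : 2 ≤ Fintype.card G) (R : G → G → Prop) (hR : ∀ x y, x ≠ y → R x y) :
    ∃ L : List G, L.Nodup ∧ (∀ x, x ∈ L) ∧ CC R L := by
  classical
  refine ⟨(univ : Finset G).toList, Finset.nodup_toList _, fun x => by simp, ?_⟩
  refine cc_upgrade (fun _ _ => True) R _ (Finset.nodup_toList _) (by simpa using hG) ?_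
    (fun x y h _ => hR x y h)
  refine ⟨?_, fun _ _ _ _ => trivial⟩
  rw [List.isChain_iff_getElem]
  intro i _
  trivial

/-- **Blocks which are cliques.** -/
theorem main_clique (A : Set G) (hA : ∀ x ∈ A, x⁻¹ ∈ A) (hgen : Subgroup.closure A = ⊤)
    (H : Subgroup G) (hH : 24 ≤ Nat.card H) (hHA : ∀ x ∈ H, x ≠ 1 → x ∈ A) :
    ∃ L : List G, L.Nodup ∧ (∀ x, x ∈ L) ∧ CC (fun x y => x⁻¹ * y ∈ A) L := by
  classical
  have hG : 2 ≤ Fintype.card G := by
    have h1 : Nat.card H ≤ Nat.card G := Nat.card_le_card_of_injective _ H.subtype_injective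
    rw [Nat.card_eq_fintype_card (α := G)] at h1
    omega
  obtain ⟨S, hSA, hS1, hS2⟩ := exists_irr H A hgen
  rcases S.eq_empty_or_nonempty with h0 | h0
  · rw [h0, coe_empty, Subgroup.closure_empty, sup_bot_eq] at hS1
    apply cc_all hG
    intro x y hxy
    apply hHA
    · rw [hS1]; trivial
    · intro h
      exact hxy (inv_mul_eq_one.1 h)
  · have hS0 : 0 < S.card := card_pos.2 h0
    have hn : 2 ≤ Nat.card (G ⧸ H) := by
      by_contra hcon
      have h1 : Nat.card (G ⧸ H) = 1 := by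
        have : 0 < Nat.card (G ⧸ H) := Nat.card_pos
        omega
      have h2 : H = ⊤ := Subgroup.index_eq_one.1 h1
      obtain ⟨s, hs⟩ := h0
      apply hS2 s hs
      apply Subgroup.mem_sup_left
      rw [h2]; trivial
    obtain ⟨K, hK1, hK2, hK3⟩ := two_clique hS1 hS2 hS0 hH
    obtain ⟨L, hL1, hL2, hL3⟩ := assemble hS1 hS2 hS0 hn A hA hSA K hK1 hK2 hK3
    refine ⟨L, hL1, hL2, ?_⟩
    have himp : ∀ x y : G, (((x : G ⧸ H) = (y : G ⧸ H) ∧ x ≠ y) ∨
        ((∃ e ∈ univ.biUnion K, e.1 = x ∨ hd' S e = x) ∧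
          (∃ e ∈ univ.biUnion K, e.1 = y ∨ hd' S e = y) ∧ x⁻¹ * y ∈ A)) → x⁻¹ * y ∈ A := by
      rintro x y (⟨h1, h2⟩ | ⟨_, _, h3⟩)
      · apply hHA _ (QuotientGroup.eq.1 h1)
        intro h
        exact h2 (inv_mul_eq_one.1 h)
      · exact h3
    exact ⟨hL3.1.imp himp, fun y hy z hz => himp _ _ (hL3.2 y hy z hz)⟩

/-- **Blocks of large minimum degree.** -/
theorem main_dirac (A : Set G) (hA : ∀ x ∈ A, x⁻¹ ∈ A) (hgen : Subgroup.closure A = ⊤)
    (H : Subgroup G) [DecidablePred (· ∈ A)] [DecidablePred (· ∈ H)]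
    (hH : Nat.card H + 101 ≤ 2 * (univ.filter fun x : G => x ∈ A ∧ x ∈ H ∧ x ≠ 1).card) :
    ∃ L : List G, L.Nodup ∧ (∀ x, x ∈ L) ∧ CC (fun x y => x⁻¹ * y ∈ A) L := by
  classical
  set D := (univ.filter fun x : G => x ∈ A ∧ x ∈ H ∧ x ≠ 1).card with hD
  have hDH : D + 1 ≤ Nat.card H := by
    have h1 : (univ.filter fun x : G => x ∈ A ∧ x ∈ H ∧ x ≠ 1) ⊆
        (univ.filter fun x : G => x ∈ H).erase 1 := by
      intro x hx
      rw [mem_filter] at hx
      exact mem_erase.2 ⟨hx.2.2.2, mem_filter.2 ⟨mem_univ _, hx.2.2.1⟩⟩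
    have h2 := card_le_card h1
    have h3 : (1 : G) ∈ univ.filter fun x : G => x ∈ H := mem_filter.2 ⟨mem_univ _, H.one_mem⟩
    rw [card_erase_of_mem h3] at h2
    have h4 : (univ.filter fun x : G => x ∈ H).card = Nat.card H := by
      rw [Nat.card_eq_fintype_card]
      exact (Fintype.card_subtype _).symm
    have h5 := card_pos.2 ⟨1, h3⟩
    omega
  have hH98 : 98 ≤ Nat.card H := by omega
  have hG : 2 ≤ Fintype.card G := by
    have h1 : Nat.card H ≤ Nat.card G := Nat.card_le_card_of_injective _ H.subtype_injective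
    rw [Nat.card_eq_fintype_card (α := G)] at h1
    omega
  have hsymm : ∀ x y : G, x⁻¹ * y ∈ A → y⁻¹ * x ∈ A := by
    intro x y h
    have := hA _ h
    rwa [mul_inv_rev, inv_inv] at this
  have hdeg : ∀ u : G, D ≤ (univ.filter fun w : G => (w : G ⧸ H) = (u : G ⧸ H) ∧ w ≠ u ∧
      u⁻¹ * w ∈ A).card := by
    intro u
    have h1 : (univ.filter fun x : G => x ∈ A ∧ x ∈ H ∧ x ≠ 1).image (fun x => u * x) ⊆
        univ.filter fun w : G => (w : G ⧸ H) = (u : G ⧸ H) ∧ w ≠ u ∧ u⁻¹ * w ∈ A := by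
      intro w hw
      obtain ⟨x, hx, rfl⟩ := mem_image.1 hw
      rw [mem_filter] at hx ⊢
      obtain ⟨-, h1, h2, h3⟩ := hx
      refine ⟨mem_univ _, QuotientGroup.mk_mul_of_mem u h2, ?_, ?_⟩
      · intro h
        exact h3 (mul_eq_left.1 h)
      · rwa [inv_mul_cancel_left]
    have h2 := card_le_card h1
    rwa [card_image_of_injective _ (mul_right_injective u)] at h2
  obtain ⟨S, hSA, hS1, hS2⟩ := exists_irr H A hgen
  rcases S.eq_empty_or_nonempty with h0 | h0
  · rw [h0, coe_empty, Subgroup.closure_empty, sup_bot_eq] at hS1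
    refine switch (fun g : G => (g : G ⧸ H)) (fun x y => x⁻¹ * y ∈ A) hsymm ∅ D
      (Nat.card H) 101 (fun q => card_fiber q) hdeg (fun q => by simp) hH hG ?_
    apply cc_all hG
    intro x y hxy
    left
    refine ⟨?_, hxy⟩
    apply QuotientGroup.eq.2
    rw [hS1]; trivial
  · have hS0 : 0 < S.card := card_pos.2 h0
    have hn : 2 ≤ Nat.card (G ⧸ H) := by
      by_contra hcon
      have h1 : Nat.card (G ⧸ H) = 1 := by
        have : 0 < Nat.card (G ⧸ H) := Nat.card_pos
        omega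
      have h2 : H = ⊤ := Subgroup.index_eq_one.1 h1
      obtain ⟨s, hs⟩ := h0
      apply hS2 s hs
      apply Subgroup.mem_sup_left
      rw [h2]; trivial
    obtain ⟨K, hK1, hK2, hK3, hK4⟩ := two_dirac hS1 hS2 hS0 hH98
    obtain ⟨L, hL1, hL2, hL3⟩ := assemble hS1 hS2 hS0 hn A hA hSA K hK1 hK2 hK3
    set End : Finset G := (univ.biUnion K).biUnion fun e => {e.1, hd' S e}
      with hEnd
    have hmE : ∀ w, w ∈ End ↔ ∃ e ∈ univ.biUnion K, e.1 = w ∨ hd' S e = w := by
      intro w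
      rw [hEnd, mem_biUnion]
      constructor
      · rintro ⟨e, he, h⟩
        rw [mem_insert, mem_singleton] at h
        exact ⟨e, he, h.imp Eq.symm Eq.symm⟩
      · rintro ⟨e, he, h⟩
        refine ⟨e, he, ?_⟩
        rw [mem_insert, mem_singleton]
        exact h.imp Eq.symm Eq.symm
    have himp : ∀ x y : G, (((x : G ⧸ H) = (y : G ⧸ H) ∧ x ≠ y) ∨
        ((∃ e ∈ univ.biUnion K, e.1 = x ∨ hd' S e = x) ∧
          (∃ e ∈ univ.biUnion K, e.1 = y ∨ hd' S e = y) ∧ x⁻¹ * y ∈ A)) →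
        (((x : G ⧸ H) = (y : G ⧸ H) ∧ x ≠ y) ∨ (x ∈ End ∧ y ∈ End ∧ x⁻¹ * y ∈ A)) := by
      rintro x y (h | ⟨h1, h2, h3⟩)
      · exact Or.inl h
      · exact Or.inr ⟨(hmE x).2 h1, (hmE y).2 h2, h3⟩
    refine switch (fun g : G => (g : G ⧸ H)) (fun x y => x⁻¹ * y ∈ A) hsymm End D
      (Nat.card H) 101 (fun q => card_fiber q) hdeg ?_ hH hG
      ⟨L, hL1, hL2, hL3.1.imp himp, fun y hy z hz => himp _ _ (hL3.2 y hy z hz)⟩
    intro q
    have h1 : (End.filter fun w : G => (w : G ⧸ H) = q) ⊆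
        ((univ.biUnion K) ∩ at2 q).image
          (fun e => if (e.1 : G ⧸ H) = q then e.1 else hd' S e) := by
      intro w hw
      rw [mem_filter, hmE] at hw
      obtain ⟨⟨e, he, hew⟩, hwq⟩ := hw
      rw [mem_image]
      refine ⟨e, ?_, ?_⟩
      · rw [mem_inter, mem_at2]
        refine ⟨he, ?_⟩
        rcases hew with h | h
        · left; rw [h, hwq]
        · right; rw [h, hwq]
      · rcases hew with h | h
        · rw [if_pos (by rw [h, hwq]), h]
        · rw [if_neg, h]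
          intro h3
          have h4 : ((e.1 : G) : G ⧸ H) = ((hd' S e : G) : G ⧸ H) := by rw [h3, h, hwq]
          have h5 : (e.1)⁻¹ * hd' S e ∈ H := QuotientGroup.eq.1 h4
          unfold hd' at h5
          rw [inv_mul_cancel_left] at h5
          exact hS2 _ e.2.2 (Subgroup.mem_sup_left h5)
    exact ((card_le_card h1).trans card_image_le).trans (hK4 q)

end Pool.Agent.U402.HC
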