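import Pool.Agent.U402.HC.AsmL
import Pool.Agent.U402.HC.Main

set_option autoImplicit false
set_option linter.unusedSectionVars false

/-!
Hamiltonian cycles in Cayley graphs: linked subgroups, powers of an element, and the addition of a
bounded number of elements to the connection set.
-/

namespace Pool.Agent.U402.HC

open Finset
open Pool.Agent.R553.SP (CC cc_rot)

variable {G : Type} [Group G] [Fintype G] [DecidableEq G]

/-- **The local criterion.** -/
theorem main_local (A : Set G) (hA : ∀ x ∈ A, x⁻¹ ∈ A) (hgen : Subgroup.closure A = ⊤)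
    (H : Subgroup G) (hH : 98 ≤ Nat.card H)
    (hlink : Linked (fun x y : G => x⁻¹ * y ∈ A) (fun g => g ∈ H) 50) :
    ∃ L : List G, L.Nodup ∧ (∀ x, x ∈ L) ∧ CC (fun x y => x⁻¹ * y ∈ A) L := by
  classical
  obtain ⟨S, hSA, hS1, hS2⟩ := exists_irr H A hgen
  rcases S.eq_empty_or_nonempty with h0 | h0
  · rw [h0, coe_empty, Subgroup.closure_empty, sup_bot_eq] at hS1
    have ha : ∃ a ∈ A, a ≠ 1 := by
      by_contra hcon
      push Not at hcon
      have h1 : Subgroup.closure A ≤ ⊥ := by
        rw [Subgroup.closure_le]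
        intro a ha
        rw [SetLike.mem_coe, Subgroup.mem_bot]
        exact hcon a ha
      rw [hgen, ← hS1] at h1
      have h2 : H = ⊥ := le_bot_iff.1 h1
      rw [h2, Subgroup.card_bot] at hH
      omega
    obtain ⟨a, haA, ha1⟩ := ha
    obtain ⟨P, hP1, hP2, hP3⟩ := hlink Unit (fun _ => 1) (fun _ => a) ⟨()⟩ (by simp)
      (fun _ => by rw [hS1]; trivial) (fun _ => by rw [hS1]; trivial)
      (fun _ _ _ => rfl) (fun _ _ _ => rfl) (fun _ _ h => ha1 h.symm)
    obtain ⟨h1, h2, h3, h4, -⟩ := hP1 ()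
    refine ⟨P (), h4, ?_, h3, ?_⟩
    · intro v
      obtain ⟨i, hi⟩ := hP3 v (by change v ∈ H; rw [hS1]; trivial)
      exact hi
    · intro y hy z hz
      rw [h2] at hy
      rw [h1] at hz
      simp only [Option.mem_some_iff] at hy hz
      rw [← hy, ← hz, mul_one]
      exact hA a haA
  · exact main_linked A hA H hH S hSA hS1 hS2 h0 hlink

/-- linkages in the powers of an element of large order -/
theorem linked_zpowers (A : Set G) (hA : ∀ x ∈ A, x⁻¹ ∈ A) (h : G) (hh : 152 ≤ orderOf h)
    (hpow : ∀ i : ℕ, 1 ≤ i → i ≤ 454 → i < orderOf h → h ^ i ∈ A) :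
    Linked (fun x y : G => x⁻¹ * y ∈ A) (fun g => g ∈ Subgroup.zpowers h) 50 := by
  classical
  set n := orderOf h with hn
  have hn0 : 0 < n := by omega
  have hex : ∀ v ∈ Subgroup.zpowers h, ∃ t < n, h ^ t = v := by
    intro v hv
    obtain ⟨k, hk, hkv⟩ := (mem_zpowers_iff_mem_range_orderOf (x := h) (y := v)).1 hv |>
      Finset.mem_image.1
    exact ⟨k, Finset.mem_range.1 hk, hkv⟩
  choose! t ht1 ht2 using hex
  set m := n / 152 with hm
  have hm1 : 1 ≤ m := (Nat.one_le_div_iff (by norm_num)).2 hh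
  have hmn : 152 * m ≤ n := Nat.mul_div_le n 152
  have hnm : n < 152 * m + 152 := by
    have := Nat.lt_mul_div_succ n (show 0 < 152 by norm_num)
    omega
  have hpinj : ∀ i j, i < n → j < n → h ^ i = h ^ j → i = j := by
    intro i j hi hj hij
    exact pow_injOn_Iio_orderOf (Set.mem_Iio.2 hi) (Set.mem_Iio.2 hj) hij
  have htp : ∀ i < n, t (h ^ i) = i := by
    intro i hi
    have h1 : h ^ i ∈ Subgroup.zpowers h := Subgroup.npow_mem_zpowers h i
    exact hpinj _ _ (ht1 _ h1) hi (ht2 _ h1)
  set X : Finset G := univ.filter fun g => g ∈ Subgroup.zpowers h with hX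
  have hmX : ∀ v, v ∈ X ↔ v ∈ Subgroup.zpowers h := by
    intro v; rw [hX, mem_filter]; simp
  let w : G → ℕ := fun v => min (t v / 152) (m - 1)
  have key := linked_of_windows (fun x y : G => x⁻¹ * y ∈ A) X w m 50
    (by
      intro v _
      have : w v ≤ m - 1 := min_le_right _ _
      omega)
    (by
      have main : ∀ u ∈ X, ∀ v ∈ X, t u < t v → Nr (w u) (w v) → u⁻¹ * v ∈ A := by
        intro u hu v hv huv hN
        rw [hmX] at hu hv
        have h1 : t v - t u ≤ 454 := by
          have h2 : w v ≤ w u + 1 := hN.2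
          have h3 := ht1 v hv
          simp only [w] at h2
          omega
        have h2 : u⁻¹ * v = h ^ (t v - t u) := by
          rw [← ht2 u hu, ← ht2 v hv, htp _ (ht1 u hu), htp _ (ht1 v hv), inv_mul_eq_iff_eq_mul,
            ← pow_add]
          congr 1
          omega
        rw [h2]
        exact hpow _ (by omega) h1 (by have := ht1 v hv; omega)
      intro u hu v hv huv hN
      rcases Nat.lt_trichotomy (t u) (t v) with h1 | h1 | h1
      · exact main u hu v hv h1 hN
      · exfalso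
        apply huv
        rw [hmX] at hu hv
        rw [← ht2 u hu, ← ht2 v hv, h1]
      · have := hA _ (main v hv u hu h1 ⟨hN.2, hN.1⟩)
        rwa [mul_inv_rev, inv_inv] at this)
    (by
      intro j hj
      have h1 : ((Finset.range 152).image fun i => h ^ (152 * j + i)) ⊆
          X.filter fun v => w v = j := by
        intro v hv
        obtain ⟨i, hi, rfl⟩ := mem_image.1 hv
        rw [Finset.mem_range] at hi
        have h2 : 152 * j + i < n := by
          have : 152 * (j + 1) ≤ 152 * m := Nat.mul_le_mul_left _ hj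
          omega
        rw [mem_filter, hmX]
        refine ⟨Subgroup.npow_mem_zpowers h _, ?_⟩
        simp only [w]
        rw [htp _ h2]
        omega
      have h2 := card_le_card h1
      rw [card_image_of_injOn, card_range] at h2
      · exact h2
      · intro i hi i' hi' hii
        rw [mem_coe, Finset.mem_range] at hi hi'
        have h3 : 152 * (j + 1) ≤ 152 * m := Nat.mul_le_mul_left _ hj
        have := hpinj _ _ (by omega) (by omega) hii
        omega)
  intro ι _ x y hne hι hx hy hxi hyi hxy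
  obtain ⟨P, hP1, hP2, hP3⟩ := key ι x y hne hι (fun i => (hmX _).2 (hx i))
    (fun i => (hmX _).2 (hy i)) hxi hyi hxy
  refine ⟨P, ?_, hP2, fun v hv => hP3 v ((hmX _).2 hv)⟩
  intro i
  obtain ⟨h1, h2, h3, h4, h5⟩ := hP1 i
  exact ⟨h1, h2, h3, h4, fun v hv => (hmX _).1 (h5 v hv)⟩

/-- **Powers of an element.** -/
theorem main_powers (A : Set G) (hA : ∀ x ∈ A, x⁻¹ ∈ A) (hgen : Subgroup.closure A = ⊤)
    (h : G) (hh : 24 ≤ orderOf h)
    (hpow : ∀ i : ℕ, 1 ≤ i → i ≤ 454 → i < orderOf h → h ^ i ∈ A) :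
    ∃ L : List G, L.Nodup ∧ (∀ x, x ∈ L) ∧ CC (fun x y => x⁻¹ * y ∈ A) L := by
  classical
  rcases Nat.lt_or_ge (orderOf h) 152 with h1 | h1
  · apply main_clique A hA hgen (Subgroup.zpowers h)
    · rw [Nat.card_zpowers]; exact hh
    · intro x hx hx1
      obtain ⟨k, hk, rfl⟩ := (mem_zpowers_iff_mem_range_orderOf (x := h) (y := x)).1 hx |>
        Finset.mem_image.1
      rw [Finset.mem_range] at hk
      have hk0 : k ≠ 0 := by
        rintro rfl
        exact hx1 (pow_zero h)
      exact hpow k (by omega) (by omega) hk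
  · apply main_local A hA hgen (Subgroup.zpowers h) _ (linked_zpowers A hA h h1 hpow)
    rw [Nat.card_zpowers]
    omega

/-- an element or a subgroup of suitable order -/
lemma exists_elt_or_subgroup (hG : 5354228880 < Nat.card G) :
    (∃ h : G, 24 ≤ orderOf h) ∨ ∃ H : Subgroup G, 24 ≤ Nat.card H ∧ Nat.card H ≤ 529 := by
  by_contra hcon
  push Not at hcon
  obtain ⟨hc1, hc2⟩ := hcon
  set N := Nat.card G with hN
  have hN0 : N ≠ 0 := by omega
  have hsub : ∀ p k : ℕ, p.Prime → 24 ≤ p ^ k → p ^ k ≤ 529 → ¬ p ^ k ∣ N := by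
    intro p k hp h1 h2 h3
    have : Fact p.Prime := ⟨hp⟩
    obtain ⟨K, hK⟩ := Sylow.exists_subgroup_card_pow_prime p h3
    have := hc2 K (by rw [hK]; exact h1)
    rw [hK] at this
    omega
  have hbig : ∀ p : ℕ, p.Prime → 24 ≤ p → ¬ p ∣ N := by
    intro p hp h1 h2
    have : Fact p.Prime := ⟨hp⟩
    rw [hN, Nat.card_eq_fintype_card] at h2
    obtain ⟨x, hx⟩ := exists_prime_orderOf_dvd_card p h2
    have := hc1 x
    omega
  have hdvd : N ∣ 5354228880 := by
    rw [← Nat.factorization_prime_le_iff_dvd hN0 (by norm_num)]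
    intro p hp
    have key : ∀ e : ℕ, ¬ p ^ (e + 1) ∣ N → p ^ e ∣ 5354228880 →
        N.factorization p ≤ (5354228880 : ℕ).factorization p := by
      intro e h1 h2
      rw [hp.pow_dvd_iff_le_factorization hN0] at h1
      rw [hp.pow_dvd_iff_le_factorization (by norm_num)] at h2
      omega
    rcases Nat.lt_or_ge p 24 with h | h
    · interval_cases p
      all_goals first
        | (exfalso; revert hp; norm_num; done)
        | skip
      · exact key 4 (hsub 2 5 (by norm_num) (by norm_num) (by norm_num)) (by norm_num)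
      · exact key 2 (hsub 3 3 (by norm_num) (by norm_num) (by norm_num)) (by norm_num)
      · exact key 1 (hsub 5 2 (by norm_num) (by norm_num) (by norm_num)) (by norm_num)
      · exact key 1 (hsub 7 2 (by norm_num) (by norm_num) (by norm_num)) (by norm_num)
      · exact key 1 (hsub 11 2 (by norm_num) (by norm_num) (by norm_num)) (by norm_num)
      · exact key 1 (hsub 13 2 (by norm_num) (by norm_num) (by norm_num)) (by norm_num)
      · exact key 1 (hsub 17 2 (by norm_num) (by norm_num) (by norm_num)) (by norm_num)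
      · exact key 1 (hsub 19 2 (by norm_num) (by norm_num) (by norm_num)) (by norm_num)
      · exact key 1 (hsub 23 2 (by norm_num) (by norm_num) (by norm_num)) (by norm_num)
    · apply key 0
      · rw [zero_add, pow_one]; exact hbig p hp h
      · simp
  have := Nat.le_of_dvd (by norm_num) hdvd
  omega

/-- **Addition of a bounded number of elements.** -/
theorem main_add (A : Set G) (hA : ∀ x ∈ A, x⁻¹ ∈ A) (hgen : Subgroup.closure A = ⊤)
    (hG : 5354228880 < Nat.card G) :
    ∃ B : Set G, (∀ x ∈ B, x⁻¹ ∈ B) ∧ B.ncard ≤ 908 ∧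
      ∃ L : List G, L.Nodup ∧ (∀ x, x ∈ L) ∧ CC (fun x y => x⁻¹ * y ∈ A ∪ B) L := by
  classical
  have hgenB : ∀ B : Set G, Subgroup.closure (A ∪ B) = ⊤ := by
    intro B
    rw [eq_top_iff, ← hgen]
    exact Subgroup.closure_mono Set.subset_union_left
  have hsymB : ∀ B : Set G, (∀ x ∈ B, x⁻¹ ∈ B) → ∀ x ∈ A ∪ B, x⁻¹ ∈ A ∪ B := by
    intro B hB x hx
    rcases hx with hx | hx
    · exact Or.inl (hA x hx)
    · exact Or.inr (hB x hx)
  rcases exists_elt_or_subgroup hG with ⟨h, hh⟩ | ⟨H, hH1, hH2⟩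
  · set B : Finset G := ((Finset.range 454).image fun i => h ^ (i + 1)) ∪
      ((Finset.range 454).image fun i => (h ^ (i + 1))⁻¹) with hB
    have hmB : ∀ x, x ∈ (B : Set G) ↔ ∃ i < 454, h ^ (i + 1) = x ∨ (h ^ (i + 1))⁻¹ = x := by
      intro x
      rw [mem_coe, hB, mem_union, mem_image, mem_image]
      simp only [Finset.mem_range]
      constructor
      · rintro (⟨i, hi, h1⟩ | ⟨i, hi, h1⟩)
        · exact ⟨i, hi, Or.inl h1⟩
        · exact ⟨i, hi, Or.inr h1⟩
      · rintro ⟨i, hi, h1 | h1⟩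
        · exact Or.inl ⟨i, hi, h1⟩
        · exact Or.inr ⟨i, hi, h1⟩
    have hBs : ∀ x ∈ (B : Set G), x⁻¹ ∈ (B : Set G) := by
      intro x hx
      rw [hmB] at hx ⊢
      obtain ⟨i, hi, h1 | h1⟩ := hx
      · exact ⟨i, hi, Or.inr (by rw [h1])⟩
      · exact ⟨i, hi, Or.inl (by rw [← h1, inv_inv])⟩
    refine ⟨B, hBs, ?_, ?_⟩
    · rw [Set.ncard_coe_finset]
      refine (card_union_le _ _).trans ?_
      have h1 := card_image_le (s := Finset.range 454) (f := fun i => h ^ (i + 1))
      have h2 := card_image_le (s := Finset.range 454) (f := fun i => (h ^ (i + 1))⁻¹)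
      rw [card_range] at h1 h2
      omega
    · apply main_powers (A ∪ (B : Set G)) (hsymB _ hBs) (hgenB _) h hh
      intro i hi1 hi2 _
      right
      rw [hmB]
      refine ⟨i - 1, by omega, Or.inl ?_⟩
      rw [Nat.sub_add_cancel hi1]
  · refine ⟨{x | x ∈ H ∧ x ≠ 1}, ?_, ?_, ?_⟩
    · rintro x ⟨h1, h2⟩
      exact ⟨H.inv_mem h1, fun h => h2 (inv_eq_one.1 h)⟩
    · have h1 : Set.ncard {x | x ∈ H ∧ x ≠ 1} ≤ Set.ncard (H : Set G) :=
        Set.ncard_le_ncard (fun x hx => hx.1) (Set.toFinite _)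
      have h2 : Set.ncard (H : Set G) = Nat.card H := rfl
      omega
    · apply main_clique _ (hsymB _ ?_) (hgenB _) H hH1
      · intro x hx hx1
        exact Or.inr ⟨hx, hx1⟩
      · rintro x ⟨h1, h2⟩
        exact ⟨H.inv_mem h1, fun h => h2 (inv_eq_one.1 h)⟩

end Pool.Agent.U402.HC
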