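import Pool.Agent.H825R2.EW.PackM

set_option autoImplicit false
set_option linter.unusedSectionVars false

/-!
Selection of one element from each class, keeping disjoint spanning sets (matroid union with a dual
partition matroid).
-/

namespace Pool.Agent.U402.HC

open Finset
open Pool.Agent.Helper879.ECD (sp sp_mono mem_sp Ind)
open Pool.Agent.H825R2.EW (packM)

variable {F U E C : Type} [Field F] [AddCommGroup U] [Module F U] [DecidableEq E] [Fintype E]
  [DecidableEq C]

/-- the configuration which is dual to the partition into the classes of `κ` -/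
def zc (F : Type) [Field F] {E C : Type} [DecidableEq E] [DecidableEq C] (κ : E → C) (e : E) :
    E × E → F :=
  fun p => if κ p.1 = κ p.2 then (if p.1 = e then 1 else 0) - (if p.2 = e then 1 else 0) else 0

lemma zc_comb (κ : E → C) (f : E → F) (S : Finset E) (a b : E) (h : κ a = κ b) :
    (∑ i ∈ S, f i • zc F κ i) (a, b) = (if a ∈ S then f a else 0) - (if b ∈ S then f b else 0) := by
  rw [Finset.sum_apply]
  simp only [Pi.smul_apply, zc, h, if_true, smul_eq_mul, mul_sub, mul_ite, mul_one, mul_zero]
  rw [Finset.sum_sub_distrib, Finset.sum_ite_eq, Finset.sum_ite_eq]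

/-- the number of classes meeting the complement of `R` -/
def outer (κ : E → C) (R : Finset E) : Finset C := (univ \ R).image κ

/-- lower bound for the rank of the dual configuration -/
lemma zc_lower (κ : E → C) (R : Finset E) :
    R.card + (outer κ R).card ≤
      Module.finrank F (sp F (zc F κ) R) + ((univ : Finset E).image κ).card := by
  classical
  rcases isEmpty_or_nonempty E with hE | hE
  · have h1 : R = ∅ := Finset.eq_empty_of_isEmpty R
    rw [h1]
    simp [outer]
  -- representatives of the classes contained in `R`
  set full : Finset C := ((univ : Finset E).image κ) \ outer κ R with hfull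
  have hrep : ∀ c ∈ full, ∃ e, κ e = c := by
    intro c hc
    rw [hfull, mem_sdiff, mem_image] at hc
    obtain ⟨⟨e, -, he⟩, -⟩ := hc
    exact ⟨e, he⟩
  choose! ρ hρ using hrep
  have hfR : ∀ c ∈ full, ∀ e, κ e = c → e ∈ R := by
    intro c hc e he
    by_contra hne
    rw [hfull, mem_sdiff] at hc
    exact hc.2 (mem_image.2 ⟨e, mem_sdiff.2 ⟨mem_univ _, hne⟩, he⟩)
  set R' : Finset E := R \ full.image ρ with hR'
  have hcard : R.card ≤ R'.card + full.card := by
    have h1 : R.card ≤ R'.card + (full.image ρ).card := by
      rw [hR']
      exact Finset.card_le_card_sdiff_add_card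
    exact h1.trans (by gcongr; exact card_image_le)
  have hind : Ind F (zc F κ) R' := by
    unfold Ind
    rw [linearIndepOn_finset_iff]
    intro f hf e he
    -- an element of the class outside `R'`
    obtain ⟨e', he', hk⟩ : ∃ e', e' ∉ R' ∧ κ e = κ e' := by
      by_cases hc : κ e ∈ full
      · refine ⟨ρ (κ e), ?_, (hρ _ hc).symm⟩
        rw [hR', mem_sdiff]
        intro h
        exact h.2 (mem_image_of_mem _ hc)
      · rw [hfull, mem_sdiff, not_and_not_right] at hc
        have h1 := hc (mem_image_of_mem _ (mem_univ e))
        obtain ⟨e', he', hk⟩ := mem_image.1 h1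
        refine ⟨e', ?_, hk.symm⟩
        intro h
        rw [hR', mem_sdiff] at h
        exact (mem_sdiff.1 he').2 h.1
    have h1 := congrFun hf (e, e')
    rw [zc_comb κ f R' e e' hk, if_pos he, if_neg he', sub_zero] at h1
    exact h1
  have h2 : R'.card ≤ Module.finrank F (sp F (zc F κ) R) := by
    rw [← hind.card]
    apply Submodule.finrank_mono
    exact sp_mono (by rw [hR']; exact sdiff_subset)
  have h3 : full.card + (outer κ R).card = ((univ : Finset E).image κ).card := by
    rw [hfull]
    apply card_sdiff_add_card_eq_card
    exact image_subset_image (subset_univ _)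
  omega

/-- upper bound for the rank of the dual configuration -/
lemma zc_upper (κ : E → C) :
    Module.finrank F (sp F (zc F κ) univ) + ((univ : Finset E).image κ).card ≤
      Fintype.card E := by
  classical
  rcases isEmpty_or_nonempty E with hE | hE
  · have h1 : (univ : Finset E) = ∅ := Finset.eq_empty_of_isEmpty _
    rw [h1]
    unfold sp
    rw [Finset.coe_empty, Set.image_empty, Submodule.span_empty, finrank_bot]
    simp
  set cl : Finset C := (univ : Finset E).image κ with hcl
  have hrep : ∀ c ∈ cl, ∃ e, κ e = c := by
    intro c hc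
    obtain ⟨e, -, he⟩ := mem_image.1 hc
    exact ⟨e, he⟩
  choose! ρ hρ using hrep
  have hinj : Set.InjOn ρ (cl : Set C) := by
    intro a ha b hb hab
    rw [← hρ a ha, ← hρ b hb, hab]
  set N : Finset E := univ \ cl.image ρ with hN
  have hle : sp F (zc F κ) univ ≤ sp F (zc F κ) N := by
    unfold sp
    rw [Submodule.span_le]
    rintro _ ⟨e, -, rfl⟩
    by_cases he : e ∈ N
    · exact Submodule.subset_span ⟨e, he, rfl⟩
    · -- `e` is a representative
      have h1 : e ∈ cl.image ρ := by
        by_contra h
        exact he (by rw [hN, mem_sdiff]; exact ⟨mem_univ _, h⟩)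
      obtain ⟨c, hc, rfl⟩ := mem_image.1 h1
      have h2 : zc F κ (ρ c) = -∑ i ∈ N.filter (fun i => κ i = c), zc F κ i := by
        rw [eq_neg_iff_add_eq_zero]
        have h3 : zc F κ (ρ c) + ∑ i ∈ N.filter (fun i => κ i = c), zc F κ i =
            ∑ i ∈ univ.filter (fun i => κ i = c), (1 : F) • zc F κ i := by
          have h4 : univ.filter (fun i => κ i = c) =
              insert (ρ c) (N.filter (fun i => κ i = c)) := by
            ext i
            rw [mem_filter, mem_insert, mem_filter]
            constructor
            · rintro ⟨-, hi⟩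
              by_cases hi' : i ∈ N
              · exact Or.inr ⟨hi', hi⟩
              · left
                have h5 : i ∈ cl.image ρ := by
                  by_contra h
                  exact hi' (by rw [hN, mem_sdiff]; exact ⟨mem_univ _, h⟩)
                obtain ⟨c', hc', rfl⟩ := mem_image.1 h5
                rw [hρ c' hc'] at hi
                rw [hi]
            · rintro (rfl | ⟨-, hi⟩)
              · exact ⟨mem_univ _, hρ c hc⟩
              · exact ⟨mem_univ _, hi⟩
          have h6 : ρ c ∉ N.filter (fun i => κ i = c) := by
            intro h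
            exact he (mem_filter.1 h).1
          rw [h4, sum_insert h6]
          simp only [one_smul]
        rw [h3]
        ext p
        obtain ⟨a, b⟩ := p
        by_cases hab : κ a = κ b
        · rw [zc_comb κ (fun _ => (1 : F)) _ a b hab]
          simp only [mem_filter, mem_univ, true_and, hab, Pi.zero_apply, sub_self]
        · rw [Finset.sum_apply]
          simp only [Pi.smul_apply, zc, hab, if_false, smul_zero, sum_const_zero, Pi.zero_apply]
      rw [h2]
      apply Submodule.neg_mem
      apply Submodule.sum_mem
      intro i hi
      exact Submodule.subset_span ⟨i, (mem_filter.1 hi).1, rfl⟩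
  have h1 : Module.finrank F (sp F (zc F κ) N) ≤ N.card := by
    unfold sp
    rw [← Finset.coe_image]
    exact (finrank_span_finset_le_card _).trans card_image_le
  have h2 : N.card + cl.card = Fintype.card E := by
    have h3 : (cl.image ρ).card = cl.card := card_image_of_injOn hinj
    rw [← h3, hN, card_sdiff_add_card_eq_card (subset_univ _), card_univ]
  have h3 := Submodule.finrank_mono hle
  omega

lemma finrank_inl [FiniteDimensional F U] {W : Type} [AddCommGroup W] [Module F W]
    (x : E → U) (R : Finset E) :
    Module.finrank F (sp F (fun e => (x e, (0 : W))) R) = Module.finrank F (sp F x R) := by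
  have h : sp F (fun e => (x e, (0 : W))) R = (sp F x R).map (LinearMap.inl F U W) := by
    unfold sp
    rw [Submodule.map_span, ← Set.image_comp]
    rfl
  rw [h]
  exact ((Submodule.equivMapOfInjective _ LinearMap.inl_injective _).finrank_eq).symm

lemma finrank_inr {W : Type} [AddCommGroup W] [Module F W]
    (x : E → W) (R : Finset E) :
    Module.finrank F (sp F (fun e => ((0 : U), x e)) R) = Module.finrank F (sp F x R) := by
  have h : sp F (fun e => ((0 : U), x e)) R = (sp F x R).map (LinearMap.inr F U W) := by
    unfold sp
    rw [Submodule.map_span, ← Set.image_comp]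
    rfl
  rw [h]
  exact ((Submodule.equivMapOfInjective _ LinearMap.inr_injective _).finrank_eq).symm

/-- **Selection.** -/
theorem select [FiniteDimensional F U] (x : E → U) (κ : E → C) (t : ℕ)
    (hH : ∀ R : Finset E, t * Module.finrank F (sp F x univ) ≤
      t * Module.finrank F (sp F x R) + (outer κ R).card) :
    ∃ I : Fin t → Finset E, (∀ i j, i ≠ j → Disjoint (I i) (I j)) ∧
      (∀ i, sp F x (I i) = sp F x univ) ∧
      ∀ i j, ∀ e ∈ I i, ∀ f ∈ I j, κ e = κ f → e = f := by
  classical
  let X : Option (Fin t) → E → U × (E × E → F) := fun k e =>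
    match k with
    | some _ => (x e, 0)
    | none => (0, zc F κ e)
  have hs : ∀ (i : Fin t) (R : Finset E), Module.finrank F (sp F (X (some i)) R) =
      Module.finrank F (sp F x R) := fun i R => finrank_inl x R
  have hn : ∀ (R : Finset E), Module.finrank F (sp F (X none) R) =
      Module.finrank F (sp F (zc F κ) R) := fun R => finrank_inr (zc F κ) R
  obtain ⟨I, hdis, hsp⟩ := packM (x := X) (by
    intro R
    rw [Fintype.sum_option, Fintype.sum_option, hn, hn]
    simp only [hs, sum_const, card_univ, Fintype.card_fin, smul_eq_mul]
    have h1 := hH R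
    have h2 := zc_lower (F := F) κ R
    have h3 := zc_upper (F := F) κ
    have h4 : (univ \ R).card + R.card = Fintype.card E := by
      rw [card_sdiff_add_card_eq_card (subset_univ _), card_univ]
    omega)
  refine ⟨fun i => I (some i), fun i j hij => hdis _ _ (by simpa using hij), ?_, ?_⟩
  · intro i
    have h1 := hsp (some i)
    have h2 : sp F (X (some i)) (I (some i)) =
        (sp F x (I (some i))).map (LinearMap.inl F U (E × E → F)) := by
      unfold sp
      rw [Submodule.map_span, ← Set.image_comp]
      rfl
    have h3 : sp F (X (some i)) univ =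
        (sp F x univ).map (LinearMap.inl F U (E × E → F)) := by
      unfold sp
      rw [Submodule.map_span, ← Set.image_comp]
      rfl
    rw [h2, h3] at h1
    exact Submodule.map_injective_of_injective LinearMap.inl_injective h1
  · intro i j e he f hf hef
    by_contra hne
    have heN : e ∉ I none := fun h =>
      Finset.disjoint_left.1 (hdis (some i) none (by simp)) he h
    have hfN : f ∉ I none := fun h =>
      Finset.disjoint_left.1 (hdis (some j) none (by simp)) hf h
    have h1 := hsp none
    have h2 : sp F (X none) (I none) =
        (sp F (zc F κ) (I none)).map (LinearMap.inr F U (E × E → F)) := by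
      unfold sp
      rw [Submodule.map_span, ← Set.image_comp]
      rfl
    have h3 : sp F (X none) univ =
        (sp F (zc F κ) univ).map (LinearMap.inr F U (E × E → F)) := by
      unfold sp
      rw [Submodule.map_span, ← Set.image_comp]
      rfl
    rw [h2, h3] at h1
    have h4 := Submodule.map_injective_of_injective LinearMap.inr_injective h1
    have h5 : zc F κ e ∈ sp F (zc F κ) (I none) := by
      rw [h4]; exact mem_sp (mem_univ e)
    have h6 : sp F (zc F κ) (I none) ≤
        LinearMap.ker (LinearMap.proj (R := F) (φ := fun _ : E × E => F) (e, f)) := by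
      unfold sp
      rw [Submodule.span_le]
      rintro _ ⟨g, hg, rfl⟩
      rw [SetLike.mem_coe, LinearMap.mem_ker, LinearMap.proj_apply]
      have hge : e ≠ g := fun h => heN (h ▸ hg)
      have hgf : f ≠ g := fun h => hfN (h ▸ hg)
      simp [zc, hge, hgf]
    have h7 := h6 h5
    rw [LinearMap.mem_ker, LinearMap.proj_apply] at h7
    simp [zc, hef, Ne.symm hne] at h7

/-- Selection from a family of disjoint spanning sets whose classes have at most `c` elements. -/
theorem select_of_family [FiniteDimensional F U] (x : E → U) (κ : E → C) (c t : ℕ) (hc : 0 < c)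
    (I : Fin (c * t) → Finset E) (hdis : ∀ i j, i ≠ j → Disjoint (I i) (I j))
    (W : Submodule F U) (hsp : ∀ i, sp F x (I i) = W)
    (hcl : ∀ e i, e ∈ I i → ((univ.biUnion I).filter fun f => κ f = κ e).card ≤ c) :
    ∃ J : Fin t → Finset E, (∀ i j, i ≠ j → Disjoint (J i) (J j)) ∧
      (∀ i, sp F x (J i) = W) ∧ (∀ i, J i ⊆ univ.biUnion I) ∧
      ∀ i j, ∀ e ∈ J i, ∀ f ∈ J j, κ e = κ f → e = f := by
  classical
  rcases Nat.eq_zero_or_pos t with rfl | ht
  · exact ⟨fun i => i.elim0, fun i => i.elim0, fun i => i.elim0, fun i => i.elim0,
      fun i => i.elim0⟩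
  set T : Finset E := univ.biUnion I with hT
  have hIT : ∀ i, I i ⊆ T := fun i => subset_biUnion_of_mem I (mem_univ i)
  let E' : Type := {e : E // e ∈ T}
  let x' : E' → U := fun e => x e.1
  let κ' : E' → C := fun e => κ e.1
  have himg : ∀ R : Finset E', sp F x' R = sp F x (R.map (Function.Embedding.subtype _)) := by
    intro R
    unfold sp
    congr 1
    ext u
    simp only [Set.mem_image, mem_coe, mem_map, Function.Embedding.coe_subtype]
    constructor
    · rintro ⟨e, he, rfl⟩; exact ⟨e.1, ⟨e, he, rfl⟩, rfl⟩
    · rintro ⟨_, ⟨e, he, rfl⟩, rfl⟩; exact ⟨e, he, rfl⟩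
  have hW : sp F x' univ = W := by
    rw [himg]
    have i0 : Fin (c * t) := ⟨0, Nat.mul_pos hc ht⟩
    apply le_antisymm
    · unfold sp
      rw [Submodule.span_le]
      rintro _ ⟨e, he, rfl⟩
      rw [mem_coe, mem_map] at he
      obtain ⟨e', -, rfl⟩ := he
      obtain ⟨i, -, hi⟩ := mem_biUnion.1 e'.2
      have := mem_sp (F := F) (x := x) hi
      rw [hsp i] at this
      exact this
    · rw [← hsp i0]
      apply sp_mono
      intro e he
      exact mem_map.2 ⟨⟨e, hIT _ he⟩, mem_univ _, rfl⟩
  obtain ⟨J, hJd, hJs, hJκ⟩ := select (F := F) x' κ' t (by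
    intro R
    have key : (c * t) * Module.finrank F (sp F x' univ) ≤
        (c * t) * Module.finrank F (sp F x' R) + (univ \ R).card := by
      set R0 : Finset E := R.map (Function.Embedding.subtype _) with hR0
      have h1 : ∀ i, Module.finrank F (sp F x' univ) ≤
          Module.finrank F (sp F x' R) + (I i \ R0).card := by
        intro i
        rw [hW, himg R, ← hR0, ← hsp i]
        have h2 : sp F x (I i) ≤ sp F x R0 ⊔ sp F x (I i \ R0) := by
          unfold sp
          rw [← Submodule.span_union]
          apply Submodule.span_mono
          rw [← Set.image_union]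
          apply Set.image_mono
          intro e he
          by_cases h : e ∈ R0
          · exact Or.inl h
          · exact Or.inr (by rw [mem_coe, mem_sdiff]; exact ⟨he, h⟩)
        have h3 := Submodule.finrank_mono h2
        have h4 := Submodule.finrank_add_le_finrank_add_finrank (sp F x R0) (sp F x (I i \ R0))
        have h5 : Module.finrank F (sp F x (I i \ R0)) ≤ (I i \ R0).card := by
          unfold sp
          rw [← Finset.coe_image]
          exact (finrank_span_finset_le_card _).trans card_image_le
        omega
      have h2 : ∑ i : Fin (c * t), (I i \ R0).card ≤ (univ \ R).card := by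
        rw [← card_biUnion (fun i _ j _ hij =>
          disjoint_of_subset_left sdiff_subset (disjoint_of_subset_right sdiff_subset
            (hdis i j hij)))]
        have h3 : univ.biUnion (fun i => I i \ R0) ⊆
            (univ \ R).map (Function.Embedding.subtype _) := by
          intro e he
          obtain ⟨i, -, hi⟩ := mem_biUnion.1 he
          rw [mem_sdiff] at hi
          refine mem_map.2 ⟨⟨e, hIT i hi.1⟩, ?_, rfl⟩
          rw [mem_sdiff]
          refine ⟨mem_univ _, fun h => hi.2 ?_⟩
          rw [hR0]
          exact mem_map.2 ⟨_, h, rfl⟩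
        have h4 := card_le_card h3
        rwa [card_map] at h4
      have h3 : ∑ _i : Fin (c * t), Module.finrank F (sp F x' univ) ≤
          ∑ i : Fin (c * t), (Module.finrank F (sp F x' R) + (I i \ R0).card) :=
        sum_le_sum fun i _ => h1 i
      rw [sum_add_distrib, sum_const, sum_const, card_univ, Fintype.card_fin, smul_eq_mul,
        smul_eq_mul] at h3
      omega
    have hout : (univ \ R).card ≤ c * (outer κ' R).card := by
      unfold outer
      apply card_le_mul_card_image
      intro a ha
      obtain ⟨e, he, rfl⟩ := mem_image.1 ha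
      obtain ⟨i, -, hi⟩ := mem_biUnion.1 e.2
      refine le_trans ?_ (hcl e.1 i hi)
      have h1 : ((univ \ R).filter fun y => κ' y = κ' e).card =
          (((univ \ R).filter fun y => κ' y = κ' e).map (Function.Embedding.subtype _)).card := by
        rw [card_map]
      rw [h1]
      apply card_le_card
      intro y hy
      obtain ⟨y', hy', rfl⟩ := mem_map.1 hy
      rw [mem_filter] at hy' ⊢
      exact ⟨y'.2, hy'.2⟩
    have h5 : c * (t * Module.finrank F (sp F x' univ)) ≤
        c * (t * Module.finrank F (sp F x' R) + (outer κ' R).card) := by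
      rw [mul_add, ← mul_assoc, ← mul_assoc]
      omega
    exact Nat.le_of_mul_le_mul_left h5 hc)
  refine ⟨fun i => (J i).map (Function.Embedding.subtype _), ?_, ?_, ?_, ?_⟩
  · intro i j hij
    exact (disjoint_map _).2 (hJd i j hij)
  · intro i
    rw [← himg, hJs i, hW]
  · intro i e he
    obtain ⟨e', -, rfl⟩ := mem_map.1 he
    exact e'.2
  · intro i j e he f hf hef
    obtain ⟨e', he', rfl⟩ := mem_map.1 he
    obtain ⟨f', hf', rfl⟩ := mem_map.1 hf
    have := hJκ i j e' he' f' hf' hef
    rw [this]

end Pool.Agent.U402.HC
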