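import Pool.Agent.U402.HC.Coset

set_option autoImplicit false
set_option linter.unusedSectionVars false

/-!
Two disjoint spanning sets of pairwise disjoint arcs of a coset graph.
-/

namespace Pool.Agent.U402.HC

open Finset
open Pool.Agent.Helper879.ECD (sp sp_mono mem_sp Ind)

variable {G : Type} [Group G] [Fintype G] [DecidableEq G] {H : Subgroup G} {S : Finset G}

/-- two different arcs with a common element -/
def Confl (e f : Arc S) : Prop :=
  e ≠ f ∧ (e.1 = f.1 ∨ e.1 = hd' S f ∨ hd' S e = f.1 ∨ hd' S e = hd' S f)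

lemma confl_symm (e f : Arc S) (h : Confl e f) : Confl f e := by
  obtain ⟨h1, h2⟩ := h
  refine ⟨h1.symm, ?_⟩
  rcases h2 with h | h | h | h
  · exact Or.inl h.symm
  · exact Or.inr (Or.inr (Or.inl h.symm))
  · exact Or.inr (Or.inl h.symm)
  · exact Or.inr (Or.inr (Or.inr h.symm))

lemma confl_irr (e : Arc S) : ¬ Confl e e := fun h => h.1 rfl

/-- the last stage -/
lemma final_sel (J : Finset (Arc S))
    (hJ : ∀ Z, dem (ZMod 2) (vx H S) 12 Z ≤ ((J ∩ Z).card : ℤ))
    (hdeg : ∀ v, (J ∩ at1 v).card ≤ 2) :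
    ∃ K : Fin 2 → Finset (Arc S), (∀ i j, i ≠ j → Disjoint (K i) (K j)) ∧
      (∀ i, sp (ZMod 2) (vx H S) (K i) = sp (ZMod 2) (vx H S) univ) ∧
      (univ.biUnion K ⊆ J) ∧
      ∀ e ∈ univ.biUnion K, ∀ f ∈ univ.biUnion K, ¬ Confl e f := by
  classical
  obtain ⟨I, hI1, hI2, hI3⟩ := pack_in (vx H S) J 12 (by norm_num) hJ
  have hIJ : univ.biUnion I ⊆ J := by
    intro e he
    obtain ⟨i, -, hi⟩ := mem_biUnion.1 he
    exact hI3 i hi
  obtain ⟨K, hK1, hK2, hK3, hK4⟩ := indep_of_deg2 (vx H S) Confl confl_symm confl_irr I hI1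
    (sp (ZMod 2) (vx H S) univ) hI2 (by
      intro e he
      have heJ : e ∈ J := hIJ he
      have h1 : ((univ.biUnion I).filter fun f => Confl e f) ⊆
          ((J ∩ at1 e.1).erase e) ∪ ((J ∩ at1 (hd' S e)).erase e) := by
        intro f hf
        rw [mem_filter] at hf
        obtain ⟨hfI, hne, hc⟩ := hf
        have hfJ := hIJ hfI
        simp only [mem_union, mem_erase, mem_inter, mem_at1]
        rcases hc with h | h | h | h
        · left; exact ⟨hne.symm, hfJ, Or.inl h.symm⟩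
        · left; exact ⟨hne.symm, hfJ, Or.inr h.symm⟩
        · right; exact ⟨hne.symm, hfJ, Or.inl h.symm⟩
        · right; exact ⟨hne.symm, hfJ, Or.inr h.symm⟩
      refine (card_le_card h1).trans ((card_union_le _ _).trans ?_)
      have h2 := hdeg e.1
      have h3 := hdeg (hd' S e)
      have h4 : e ∈ J ∩ at1 e.1 := mem_inter.2 ⟨heJ, (mem_at1 _ _).2 (Or.inl rfl)⟩
      have h5 : e ∈ J ∩ at1 (hd' S e) := mem_inter.2 ⟨heJ, (mem_at1 _ _).2 (Or.inr rfl)⟩
      rw [card_erase_of_mem h4, card_erase_of_mem h5]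
      omega)
  exact ⟨K, hK1, hK2, hK3.trans hIJ, hK4⟩

lemma inc1 (e : Arc S) : (univ.filter fun v : G => e ∈ at1 v).card ≤ 2 := by
  classical
  have h1 : (univ.filter fun v : G => e ∈ at1 v) ⊆ {e.1, hd' S e} := by
    intro v hv
    rw [mem_filter, mem_at1] at hv
    rw [mem_insert, mem_singleton]
    rcases hv.2 with h | h
    · exact Or.inl h.symm
    · exact Or.inr h.symm
  exact (card_le_card h1).trans card_le_two

section

variable (hgen : H ⊔ Subgroup.closure (S : Set G) = ⊤)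
  (hirr : ∀ s ∈ S, s ∉ H ⊔ Subgroup.closure ((S.erase s : Finset G) : Set G))

include hgen hirr in
/-- the arcs for blocks which are cliques -/
theorem two_clique (hS : 0 < S.card) (hH : 24 ≤ Nat.card H) :
    ∃ K : Fin 2 → Finset (Arc S), (∀ i j, i ≠ j → Disjoint (K i) (K j)) ∧
      (∀ i, sp (ZMod 2) (vx H S) (K i) = sp (ZMod 2) (vx H S) univ) ∧
      ∀ e ∈ univ.biUnion K, ∀ f ∈ univ.biUnion K, ¬ Confl e f := by
  classical
  set n := Nat.card (G ⧸ H) with hn
  set h := Nat.card H with hh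
  set d := S.card with hd
  have hn0 : (1 : ℚ) ≤ n := by exact_mod_cast (Nat.card_pos : 0 < Nat.card (G ⧸ H))
  have hh0 : (24 : ℚ) ≤ h := by exact_mod_cast hH
  have hd0 : (1 : ℚ) ≤ d := by exact_mod_cast hS
  have hnd : (0 : ℚ) < n * (h * d) := by positivity
  obtain ⟨J, -, hJ1, hJ2⟩ := relax (dem (ZMod 2) (vx H S) 12) (dem_empty _ _) (dem_sup _ _)
    (fun v : G => at1 v) 2 inc1 (fun _ => 1)
    (fun _ => (12 : ℕ) * ((n : ℚ) - 1) / (n * (h * d)))
    (by
      intro e
      apply div_nonneg _ hnd.le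
      apply mul_nonneg (by norm_num)
      linarith)
    (by
      intro e
      rw [div_le_one hnd]
      push_cast
      nlinarith [mul_le_mul hh0 hd0 (by norm_num) (by linarith : (0 : ℚ) ≤ h)])
    (frac_cover hgen hirr hS 12)
    (by
      intro v
      rw [sum_const, nsmul_eq_mul]
      have h1 : ((at1 v : Finset (Arc S)).card : ℚ) ≤ 2 * d := by exact_mod_cast card_at1 v
      have h2 : (0 : ℚ) ≤ (12 : ℕ) * ((n : ℚ) - 1) / (n * (h * d)) := by
        apply div_nonneg _ hnd.le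
        apply mul_nonneg (by norm_num)
        linarith
      refine lt_of_le_of_lt (mul_le_mul_of_nonneg_right h1 h2) ?_
      rw [mul_div_assoc', div_lt_iff₀ hnd]
      push_cast
      have h3 : 24 * (d : ℚ) ≤ h * d := mul_le_mul_of_nonneg_right hh0 (by linarith)
      nlinarith [mul_le_mul_of_nonneg_right h3 (by linarith : (0 : ℚ) ≤ n - 1)])
  obtain ⟨K, hK1, hK2, -, hK4⟩ := final_sel (H := H) J hJ1 (fun v => by
    have := hJ2 v
    omega)
  exact ⟨K, hK1, hK2, hK4⟩

/-- elements or cosets -/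
noncomputable def inc2 (H : Subgroup G) (S : Finset G) : G ⊕ (G ⧸ H) → Finset (Arc S)
  | Sum.inl v => at1 v
  | Sum.inr Q => at2 Q

/-- bounds for the degrees -/
def bd2 (m : ℕ) : G ⊕ (G ⧸ H) → ℕ
  | Sum.inl _ => 1
  | Sum.inr _ => 2 * m

include hgen hirr in
/-- the arcs for general blocks -/
theorem two_dirac (hS : 0 < S.card) (hH : 98 ≤ Nat.card H) :
    ∃ K : Fin 2 → Finset (Arc S), (∀ i j, i ≠ j → Disjoint (K i) (K j)) ∧
      (∀ i, sp (ZMod 2) (vx H S) (K i) = sp (ZMod 2) (vx H S) univ) ∧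
      (∀ e ∈ univ.biUnion K, ∀ f ∈ univ.biUnion K, ¬ Confl e f) ∧
      ∀ Q : G ⧸ H, ((univ.biUnion K) ∩ at2 Q).card ≤ 101 := by
  classical
  have : Fintype (G ⧸ H) := Fintype.ofFinite _
  set n := Nat.card (G ⧸ H) with hn
  set h := Nat.card H with hh
  set d := S.card with hd
  have hn0 : (1 : ℚ) ≤ n := by exact_mod_cast (Nat.card_pos : 0 < Nat.card (G ⧸ H))
  have hh0 : (98 : ℚ) ≤ h := by exact_mod_cast hH
  have hd0 : (1 : ℚ) ≤ d := by exact_mod_cast hS
  have hnd : (0 : ℚ) < n * (h * d) := by positivity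
  have hy0 : (0 : ℚ) ≤ (49 : ℕ) * ((n : ℚ) - 1) / (n * (h * d)) := by
    apply div_nonneg _ hnd.le
    apply mul_nonneg (by norm_num)
    linarith
  obtain ⟨J1, -, hJ1, hJ2⟩ := relax (dem (ZMod 2) (vx H S) 49) (dem_empty _ _) (dem_sup _ _)
    (inc2 H S) 4
    (by
      intro e
      have h1 : (univ.filter fun v : G ⊕ (G ⧸ H) => e ∈ inc2 H S v) ⊆
          ({Sum.inl e.1, Sum.inl (hd' S e)} : Finset (G ⊕ (G ⧸ H))) ∪
          {Sum.inr (e.1 : G ⧸ H), Sum.inr ((hd' S e : G) : G ⧸ H)} := by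
        rintro (v | Q) hv
        · rw [mem_filter] at hv
          have := (mem_at1 _ _).1 (show e ∈ at1 v from hv.2)
          simp only [mem_union, mem_insert, mem_singleton, Sum.inl.injEq, reduceCtorEq, or_false]
          rcases this with h | h
          · exact Or.inl h.symm
          · exact Or.inr h.symm
        · rw [mem_filter] at hv
          have := (mem_at2 _ _).1 (show e ∈ at2 Q from hv.2)
          simp only [mem_union, mem_insert, mem_singleton, Sum.inr.injEq, reduceCtorEq, false_or]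
          rcases this with h | h
          · exact Or.inl h.symm
          · exact Or.inr h.symm
      refine (card_le_card h1).trans ((card_union_le _ _).trans ?_)
      have h2 : ({Sum.inl e.1, Sum.inl (hd' S e)} : Finset (G ⊕ (G ⧸ H))).card ≤ 2 := card_le_two
      have h3 : ({Sum.inr (e.1 : G ⧸ H), Sum.inr ((hd' S e : G) : G ⧸ H)} :
        Finset (G ⊕ (G ⧸ H))).card ≤ 2 := card_le_two
      omega)
    (bd2 49)
    (fun _ => (49 : ℕ) * ((n : ℚ) - 1) / (n * (h * d)))
    (fun e => hy0)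
    (by
      intro e
      rw [div_le_one hnd]
      push_cast
      nlinarith [mul_le_mul hh0 hd0 (by norm_num) (by linarith : (0 : ℚ) ≤ h)])
    (frac_cover hgen hirr hS 49)
    (by
      rintro (v | Q)
      · change ∑ _e ∈ at1 v, _ < ((1 : ℕ) : ℚ)
        rw [sum_const, nsmul_eq_mul]
        have h1 : ((at1 v : Finset (Arc S)).card : ℚ) ≤ 2 * d := by exact_mod_cast card_at1 v
        refine lt_of_le_of_lt (mul_le_mul_of_nonneg_right h1 hy0) ?_
        rw [mul_div_assoc', div_lt_iff₀ hnd]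
        push_cast
        have h3 : 98 * (d : ℚ) ≤ h * d := mul_le_mul_of_nonneg_right hh0 (by linarith)
        nlinarith [mul_le_mul_of_nonneg_right h3 (by linarith : (0 : ℚ) ≤ n - 1)]
      · change ∑ _e ∈ at2 Q, _ < ((2 * 49 : ℕ) : ℚ)
        rw [sum_const, nsmul_eq_mul]
        have h1 : ((at2 Q : Finset (Arc S)).card : ℚ) ≤ 2 * (h * d) := by
          exact_mod_cast card_at2 Q
        refine lt_of_le_of_lt (mul_le_mul_of_nonneg_right h1 hy0) ?_
        rw [mul_div_assoc', div_lt_iff₀ hnd]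
        push_cast
        have h3 : (0 : ℚ) < h * d := by positivity
        nlinarith)
  have hJv : ∀ v, (J1 ∩ at1 v).card ≤ 4 := by
    intro v
    have := hJ2 (Sum.inl v)
    change (J1 ∩ at1 v).card < 1 + 4 at this
    omega
  have hJQ : ∀ Q : G ⧸ H, (J1 ∩ at2 Q).card ≤ 101 := by
    intro Q
    have := hJ2 (Sum.inr Q)
    change (J1 ∩ at2 Q).card < 2 * 49 + 4 at this
    omega
  obtain ⟨J, hJs, hJ3, hJ4⟩ := relax (dem (ZMod 2) (vx H S) 12) (dem_empty _ _) (dem_sup _ _)
    (fun v : G => at1 v) 2 inc1 (fun _ => 1)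
    (fun e => if e ∈ J1 then (12 / 49 : ℚ) else 0)
    (by intro e; split_ifs <;> norm_num)
    (by intro e; split_ifs <;> norm_num)
    (by
      intro Z
      rw [← sum_filter, sum_const, nsmul_eq_mul, filter_mem_eq_inter, inter_comm]
      have h1 := hJ1 Z
      have h2 : ((dem (ZMod 2) (vx H S) 49 Z : ℤ) : ℚ) ≤ ((J1 ∩ Z).card : ℚ) := by
        exact_mod_cast h1
      have h3 : ((dem (ZMod 2) (vx H S) 12 Z : ℤ) : ℚ) =
          12 / 49 * ((dem (ZMod 2) (vx H S) 49 Z : ℤ) : ℚ) := by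
        unfold dem
        push_cast
        ring
      rw [h3]
      linarith)
    (by
      intro v
      rw [← sum_filter, sum_const, nsmul_eq_mul, filter_mem_eq_inter, inter_comm]
      have h1 : ((J1 ∩ at1 v).card : ℚ) ≤ 4 := by exact_mod_cast hJv v
      have h2 : ((J1 ∩ at1 v).card : ℚ) * (12 / 49) ≤ 4 * (12 / 49) :=
        mul_le_mul_of_nonneg_right h1 (by norm_num)
      refine lt_of_le_of_lt h2 ?_
      norm_num)
  have hJJ1 : J ⊆ J1 := by
    intro e he
    by_contra hne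
    exact hJs e he (if_neg hne)
  obtain ⟨K, hK1, hK2, hK3, hK4⟩ := final_sel (H := H) J hJ3 (fun v => by
    have := hJ4 v
    omega)
  refine ⟨K, hK1, hK2, hK4, ?_⟩
  intro Q
  exact (card_le_card (inter_subset_inter_right (hK3.trans hJJ1))).trans (hJQ Q)

end

end Pool.Agent.U402.HC
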